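import Pool.Agent.MP_02ff8e_lc.Gam

namespace Pool.Agent.MP_02ff8e_lc

open Set Pointwise Topology Submodule

variable {K : Set ℝ}

theorem Pos.add {x y : ℝ} (hx : x ∈ Pos K) (hy : y ∈ Pos K) : x + y ∈ Pos K := by
  obtain ⟨q, hq, t, ht, w, hw, rfl⟩ := hx
  obtain ⟨q', hq', t', ht', w', hw', rfl⟩ := hy
  have mono : ∀ a b : ℝ, a < b → span ℚ (K ∩ Iio a) ≤ span ℚ (K ∩ Iio b) := fun a b h =>
    span_mono (inter_subset_inter_right _ (Iio_subset_Iio h.le))
  rcases lt_trichotomy t t' with h | rfl | h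
  · exact ⟨q', hq', t', ht', q • t + w + w', add_mem (add_mem (smul_mem _ _ (subset_span ⟨ht, h⟩))
      (mono _ _ h hw)) hw', by abel⟩
  · exact ⟨q + q', add_pos hq hq', t, ht, w + w', add_mem hw hw', by rw [add_smul]; abel⟩
  · exact ⟨q, hq, t, ht, w + (q' • t' + w'), add_mem hw (add_mem (smul_mem _ _
      (subset_span ⟨ht', h⟩)) (mono _ _ h hw')), by abel⟩

theorem mem_pos_self {t : ℝ} (ht : t ∈ K) : t ∈ Pos K :=
  ⟨1, one_pos, t, ht, 0, zero_mem _, by simp⟩

theorem Pos.mem_span {x : ℝ} (hx : x ∈ Pos K) : x ∈ span ℚ K := by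
  obtain ⟨q, -, t, ht, w, hw, rfl⟩ := hx
  exact add_mem (smul_mem _ _ (subset_span ht)) (span_mono inter_subset_left hw)

theorem pos_of_finsupp {l : ℝ →₀ ℚ} (hl : ↑l.support ⊆ K) (h0 : l ≠ 0) :
    (l.sum fun t r => r • t) ∈ Pos K ∨ -(l.sum fun t r => r • t) ∈ Pos K := by
  classical
  have hne : l.support.Nonempty := Finsupp.support_nonempty_iff.2 h0
  set t := l.support.max' hne
  have ht : t ∈ l.support := Finset.max'_mem _ _
  have hw : ∑ s ∈ l.support.erase t, l s • s ∈ span ℚ (K ∩ Iio t) := by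
    refine sum_mem fun s hs => smul_mem _ _ (subset_span ⟨hl (Finset.mem_of_mem_erase hs), ?_⟩)
    exact lt_of_le_of_ne (Finset.le_max' _ _ (Finset.mem_of_mem_erase hs))
      (Finset.ne_of_mem_erase hs)
  have e : (l.sum fun t r => r • t) = l t • t + ∑ s ∈ l.support.erase t, l s • s :=
    (Finset.add_sum_erase _ (fun s => l s • s) ht).symm
  rcases lt_or_gt_of_ne (Finsupp.mem_support_iff.1 ht) with h | h
  · exact Or.inr ⟨-l t, neg_pos.2 h, t, hl ht, _, neg_mem hw, by rw [e, neg_smul]; abel⟩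
  · exact Or.inl ⟨l t, h, t, hl ht, _, hw, e⟩

theorem span_cases {x : ℝ} (hx : x ∈ span ℚ K) : x = 0 ∨ x ∈ Pos K ∨ -x ∈ Pos K := by
  obtain ⟨l, hl, rfl⟩ := mem_span_set.1 hx
  by_cases h0 : l = 0
  · left; simp [h0]
  · exact Or.inr (pos_of_finsupp hl h0)

/-- Each element of `E` is outside the span of `W` and the other elements. -/
def Free (W : Submodule ℚ ℝ) (E : Set ℝ) : Prop := ∀ t ∈ E, t ∉ W ⊔ span ℚ (E \ {t})

theorem Free.of_pos {W : Submodule ℚ ℝ} (h : ∀ x ∈ Pos K, x ∉ W) : Free W K := by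
  classical
  intro t ht hmem
  obtain ⟨w, hw, v, hv, e⟩ := mem_sup.1 hmem
  obtain ⟨l, hl, rfl⟩ := mem_span_set.1 hv
  have hlt : l t = 0 := by
    by_contra h0
    exact (hl (Finsupp.mem_support_iff.2 h0)).2 rfl
  have hs : ↑(Finsupp.single t (1 : ℚ) - l).support ⊆ K := by
    intro s hs
    by_cases hst : s = t
    · exact hst ▸ ht
    · refine (hl ?_).1
      simpa [Finsupp.single_apply, Ne.symm hst] using hs
  have hne : Finsupp.single t (1 : ℚ) - l ≠ 0 := by
    intro h0
    have := DFunLike.congr_fun h0 t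
    simp [hlt] at this
  have e2 : ((Finsupp.single t (1 : ℚ) - l).sum fun t r => r • t) = w := by
    rw [Finsupp.sum_sub_index (fun _ _ _ => sub_smul _ _ _), Finsupp.sum_single_index (by simp),
      one_smul]
    exact (eq_sub_of_add_eq e).symm
  rcases pos_of_finsupp hs hne with h1 | h1
  · exact h _ h1 (e2 ▸ hw)
  · exact h _ h1 (e2 ▸ neg_mem hw)

theorem Free.pos {W : Submodule ℚ ℝ} {E : Set ℝ} (h : Free W E) : ∀ x ∈ Pos E, x ∉ W := by
  rintro _ ⟨q, hq, t, ht, w, hw, rfl⟩ hx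
  refine h t ht ?_
  have h1 : q • t ∈ W ⊔ span ℚ (E \ {t}) := by
    have : q • t = (q • t + w) - w := by abel
    rw [this]
    refine sub_mem (mem_sup_left hx) (mem_sup_right (span_mono ?_ hw))
    exact fun s hs => ⟨hs.1, ne_of_lt hs.2⟩
  exact (smul_mem_iff _ hq.ne').1 h1

theorem Free.insert {W : Submodule ℚ ℝ} {E : Set ℝ} (h : Free W E) {s : ℝ}
    (hs : s ∉ W ⊔ span ℚ E) : Free W (insert s E) := by
  have hsE : s ∉ E := fun h => hs (mem_sup_right (subset_span h))
  rintro t (rfl | ht) hmem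
  · rw [insert_sdiff_of_mem _ (mem_singleton _), sdiff_singleton_eq_self hsE] at hmem
    exact hs hmem
  · have hts : s ≠ t := fun h => hsE (h ▸ ht)
    rw [insert_sdiff_of_notMem _ (by simpa using hts), span_insert, ← sup_assoc, sup_comm W,
      sup_assoc] at hmem
    obtain ⟨v, hv, u, hu, e⟩ := mem_sup.1 hmem
    obtain ⟨q, rfl⟩ := mem_span_singleton.1 hv
    by_cases hq : q = 0
    · rw [hq, zero_smul, zero_add] at e
      exact h t ht (e ▸ hu)
    · refine hs ((smul_mem_iff _ hq).1 ?_)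
      rw [eq_sub_of_add_eq e]
      exact sub_mem (mem_sup_right (subset_span ht))
        (sup_le_sup_left (span_mono sdiff_subset) W hu)

/-- sigma-compact sets of reals -/
def SC (L : Set ℝ) : Prop := Sig (∅ : Set Unit) (fun _ => L)

theorem SC.span {L : Set ℝ} (h : SC L) : SC (span ℚ L : Set ℝ) := Sig.span h

theorem SC.union {L L' : Set ℝ} (h : SC L) (h' : SC L') : SC (L ∪ L') := Sig.union h h'

theorem SC.of_closed {L : Set ℝ} (h : IsClosed L) : SC L := by
  refine sig_const_iff.2 ⟨fun n => L ∩ Icc (-(n : ℝ)) n, fun n => isCompact_Icc.inter_left h, ?_⟩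
  ext x
  simp only [mem_iUnion, mem_inter_iff]
  refine ⟨fun hx => ?_, fun ⟨_, h⟩ => h.1⟩
  obtain ⟨n, hn⟩ := exists_nat_ge |x|
  exact ⟨n, hx, abs_le.1 hn⟩

theorem SC.diff_singleton {L : Set ℝ} (h : SC L) (t : ℝ) : SC (L \ {t}) := by
  refine (Sig.iUnion (S := fun (n : ℕ) _ => L ∩ {s | 1 / ((n : ℝ) + 1) ≤ |s - t|})
    fun n => Sig.inter h (isClosed_le continuous_const (by fun_prop))).congr fun _ => ?_
  ext s
  simp only [mem_iUnion, mem_inter_iff, mem_ofPred_eq, mem_sdiff, mem_singleton_iff]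
  constructor
  · rintro ⟨n, h1, h2⟩
    refine ⟨h1, fun h => ?_⟩
    rw [h, sub_self, abs_zero] at h2
    exact absurd h2 (not_le.2 Nat.one_div_pos_of_nat)
  · rintro ⟨h1, h2⟩
    obtain ⟨n, hn⟩ := exists_nat_one_div_lt (abs_pos.2 (sub_ne_zero.2 h2))
    exact ⟨n, h1, hn.le⟩

theorem eq_top_of_Ioo {W : Submodule ℚ ℝ} {a b : ℝ} (hab : a < b) (h : Ioo a b ⊆ W) : W = ⊤ :=
  W.eq_top_of_nonempty_interior' ⟨(a + b) / 2, interior_maximal h isOpen_Ioo
    ⟨by linarith, by linarith⟩⟩

theorem span_insert_ne_top {L : Set ℝ} (h : SC L) (hL : span ℚ L ≠ ⊤) (t : ℝ) :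
    span ℚ (insert t L) ≠ ⊤ := by
  intro htop
  obtain ⟨C, h1, h2⟩ := sig_const_iff.1 h.span
  obtain ⟨z, x, hx⟩ := nonempty_interior_of_iUnion_of_closed
    (f := fun z : ℚ × ℕ => (fun w => z.1 • t + w) '' C z.2)
    (fun z => ((h1 z.2).image (by fun_prop)).isClosed) (by
      refine eq_univ_of_forall fun x => ?_
      have : x ∈ span ℚ (insert t L) := htop ▸ mem_top
      obtain ⟨q, w, hw, rfl⟩ := mem_span_insert.1 this
      have hw' : w ∈ ⋃ n, C n := h2 ▸ hw
      obtain ⟨n, hn⟩ := mem_iUnion.1 hw'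
      exact mem_iUnion.2 ⟨(q, n), w, hn, rfl⟩)
  obtain ⟨l, u, hlu, hsub⟩ := mem_nhds_iff_exists_Ioo_subset.1 (mem_interior_iff_mem_nhds.1 hx)
  refine hL (eq_top_of_Ioo (a := l - z.1 • t) (b := u - z.1 • t) (by linarith [hlu.1, hlu.2])
    fun y hy => ?_)
  obtain ⟨w, hw, e⟩ := hsub (show z.1 • t + y ∈ Ioo l u from ⟨by linarith [hy.1], by linarith [hy.2]⟩)
  have : w = y := add_left_cancel e
  rw [h2, ← this]
  exact mem_iUnion.2 ⟨_, hw⟩

theorem span_union_ne_top {L : Set ℝ} (h : SC L) (hL : span ℚ L ≠ ⊤) (hK : SC K)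
    (hfree : Free (span ℚ L) K) : span ℚ (L ∪ K) ≠ ⊤ := by
  rcases K.eq_empty_or_nonempty with rfl | ⟨t, ht⟩
  · simpa using hL
  · have h1 : span ℚ (L ∪ (K \ {t})) ≠ ⊤ := by
      intro h
      refine hfree t ht ?_
      rw [← span_union, h]
      trivial
    have := span_insert_ne_top (h.union (hK.diff_singleton t)) h1 t
    rwa [← union_insert, insert_sdiff_singleton, insert_eq_of_mem ht] at this

theorem span_union_finite_ne_top {L : Set ℝ} (h : SC L) (hL : span ℚ L ≠ ⊤) {E : Set ℝ}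
    (hE : E.Finite) : span ℚ (L ∪ E) ≠ ⊤ := by
  induction E, hE using Set.Finite.induction_on with
  | empty => simpa using hL
  | @insert a E _ hE ih =>
    rw [union_insert]
    exact span_insert_ne_top (h.union (SC.of_closed hE.isClosed)) ih a

variable {ι : Type} [LinearOrder ι] {k : ι → Set ℝ}

/-- Joint independence of the sets `k i`, `i ∈ F`. -/
def Ind (k : ι → Set ℝ) (F : Finset ι) : Prop :=
  ∀ i ∈ F, ∀ x ∈ Pos (k i), x ∉ span ℚ (⋃ j ∈ F.filter (· < i), k j)

theorem Ind.of_insert {F : Finset ι} {a : ι} (h : Ind k (insert a F)) : Ind k F := by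
  intro i hi x hx hx'
  refine h i (Finset.mem_insert_of_mem hi) x hx (span_mono ?_ hx')
  exact biUnion_subset_biUnion_left (Finset.filter_subset_filter _ (Finset.subset_insert _ _))

theorem filter_insert_max {F : Finset ι} {a : ι} (ha : ∀ x ∈ F, x < a) :
    (insert a F).filter (· < a) = F := by
  ext x
  simp only [Finset.mem_filter, Finset.mem_insert]
  exact ⟨fun h => h.1.resolve_left h.2.ne, fun h => ⟨Or.inr h, ha x h⟩⟩

theorem Ind.span_ne_top (hk : ∀ i, IsClosed (k i)) {F : Finset ι} (h : Ind k F) :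
    span ℚ (⋃ j ∈ F, k j) ≠ ⊤ := by
  induction F using Finset.induction_on_max with
  | empty => simp
  | insert a F ha ih =>
    rw [Finset.set_biUnion_insert, union_comm]
    refine span_union_ne_top (SC.of_closed (isClosed_biUnion_finset fun i _ => hk i))
      (ih h.of_insert) (SC.of_closed (hk a)) (Free.of_pos ?_)
    have := h a (Finset.mem_insert_self _ _)
    rwa [filter_insert_max ha] at this

theorem Ind.direct {F : Finset ι} (h : Ind k F) {w : ι → ℝ} (hw : ∀ i ∈ F, w i ∈ span ℚ (k i))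
    (h0 : ∑ i ∈ F, w i = 0) : ∀ i ∈ F, w i = 0 := by
  induction F using Finset.induction_on_max with
  | empty => simp
  | insert a F ha ih =>
    have haF : a ∉ F := fun h => lt_irrefl _ (ha a h)
    rw [Finset.sum_insert haF] at h0
    have h1 := h a (Finset.mem_insert_self _ _)
    rw [filter_insert_max ha] at h1
    have h2 : ∑ i ∈ F, w i ∈ span ℚ (⋃ j ∈ F, k j) := sum_mem fun i hi =>
      span_mono (subset_biUnion_of_mem (u := k) hi) (hw i (Finset.mem_insert_of_mem hi))
    have h3 : w a = 0 := by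
      rcases span_cases (hw a (Finset.mem_insert_self _ _)) with h3 | h3 | h3
      · exact h3
      · refine (h1 _ h3 ?_).elim
        rw [eq_neg_of_add_eq_zero_left h0]
        exact neg_mem h2
      · refine (h1 _ h3 ?_).elim
        rw [eq_neg_of_add_eq_zero_left h0, neg_neg]
        exact h2
    rw [h3, zero_add] at h0
    intro i hi
    rcases Finset.mem_insert.1 hi with rfl | hi
    · exact h3
    · exact ih h.of_insert (fun i hi => hw i (Finset.mem_insert_of_mem hi)) h0 i hi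

/-- The three parts of the span of `K`. -/
def Sg : SignType → Set ℝ → Set ℝ
  | .zero, _ => {0}
  | .neg, K => (fun x => -x) '' Pos K
  | .pos, K => Pos K

theorem Sg.add {s : SignType} {x y : ℝ} (hx : x ∈ Sg s K) (hy : y ∈ Sg s K) : x + y ∈ Sg s K := by
  cases s with
  | zero => rw [show x = 0 from hx, zero_add]; exact hy
  | neg =>
    obtain ⟨a, ha, rfl⟩ := hx
    obtain ⟨b, hb, rfl⟩ := hy
    exact ⟨a + b, Pos.add ha hb, by simp only; ring⟩
  | pos => exact Pos.add hx hy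

theorem Sg.mem_span {s : SignType} {x : ℝ} (hx : x ∈ Sg s K) : x ∈ span ℚ K := by
  cases s with
  | zero => rw [show x = 0 from hx]; exact zero_mem _
  | neg =>
    obtain ⟨a, ha, rfl⟩ := hx
    exact neg_mem (Pos.mem_span ha)
  | pos => exact Pos.mem_span hx

theorem Sg.exists {x : ℝ} (hx : x ∈ span ℚ K) : ∃ s, x ∈ Sg s K := by
  rcases span_cases hx with h | h | h
  exacts [⟨.zero, h⟩, ⟨.pos, h⟩, ⟨.neg, -x, h, neg_neg _⟩]

theorem Sg.uniq (h0 : (0 : ℝ) ∉ Pos K) {s s' : SignType} {x : ℝ} (hx : x ∈ Sg s K)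
    (hx' : x ∈ Sg s' K) : s = s' := by
  have key : ∀ x, x ∈ Pos K → -x ∈ Pos K → False := fun x h1 h2 => h0 (by
    simpa using Pos.add h1 h2)
  have hneg : ∀ x, x ∈ Sg .neg K → -x ∈ Pos K := by
    rintro _ ⟨a, ha, rfl⟩
    simpa using ha
  cases s <;> cases s' <;> first
    | rfl
    | exact (h0 (by simpa [show x = 0 from hx] using hneg _ hx')).elim
    | exact (h0 (by simpa [show x = 0 from hx'] using hneg _ hx)).elim
    | exact (h0 ((show x = 0 from hx) ▸ hx')).elim
    | exact (h0 ((show x = 0 from hx') ▸ hx)).elim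
    | exact (key x hx (hneg _ hx')).elim
    | exact (key x hx' (hneg _ hx)).elim

theorem Sg.mem_self (s : SignType) {t : ℝ} (ht : t ∈ K) : (s : ℝ) * t ∈ Sg s K := by
  cases s with
  | zero => simp [Sg]
  | neg => exact ⟨t, mem_pos_self ht, by simp⟩
  | pos => simpa [Sg] using mem_pos_self ht

/-- The pieces of the partition. -/
def piece (k : ι → Set ℝ) (e : ι →₀ SignType) : Set ℝ := ∑ i ∈ e.support, Sg (e i) (k i)

omit [LinearOrder ι] in
theorem piece_add {e : ι →₀ SignType} {x y : ℝ} (hx : x ∈ piece k e) (hy : y ∈ piece k e) :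
    x + y ∈ piece k e := by
  obtain ⟨g, hg, rfl⟩ := (mem_finsetSum _ _ _).1 hx
  obtain ⟨g', hg', rfl⟩ := (mem_finsetSum _ _ _).1 hy
  exact (mem_finsetSum _ _ _).2 ⟨fun i => g i + g' i, fun hi => Sg.add (hg hi) (hg' hi),
    Finset.sum_add_distrib⟩

theorem mem_piece_iff {e : ι →₀ SignType} {F : Finset ι} (hF : e.support ⊆ F) {x : ℝ} :
    x ∈ piece k e ↔ ∃ g : ι → ℝ, (∀ i ∈ F, g i ∈ Sg (e i) (k i)) ∧ ∑ i ∈ F, g i = x := by
  constructor
  · intro hx
    obtain ⟨g, hg, rfl⟩ := (mem_finsetSum _ _ _).1 hx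
    refine ⟨fun i => if i ∈ e.support then g i else 0, fun i _ => ?_, ?_⟩
    · beta_reduce
      split_ifs with h
      · exact hg h
      · rw [Finsupp.notMem_support_iff.1 h]; rfl
    · rw [Finset.sum_ite_mem, Finset.inter_eq_right.2 hF]
  · rintro ⟨g, hg, rfl⟩
    refine (mem_finsetSum _ _ _).2 ⟨g, fun hi => hg _ (hF hi), Finset.sum_subset hF ?_⟩
    intro i hi hi'
    have := hg i hi
    rwa [Finsupp.notMem_support_iff.1 hi'] at this

theorem piece_cover {F : Finset ι} {x : ℝ} (hx : x ∈ span ℚ (⋃ j ∈ F, k j)) :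
    ∃ e : ι →₀ SignType, e.support ⊆ F ∧ x ∈ piece k e := by
  rw [span_iUnion₂] at hx
  obtain ⟨μ, rfl⟩ := (mem_iSup_finset_iff_exists_sum _ _).1 hx
  choose s hs using fun i => Sg.exists (μ i).2
  let e : ι →₀ SignType := Finsupp.onFinset F (fun i => if i ∈ F then s i else 0)
    (fun i hi => by by_contra h; simp [h] at hi)
  have he : e.support ⊆ F := Finsupp.support_onFinset_subset
  refine ⟨e, he, (mem_piece_iff he).2 ⟨_, fun i hi => ?_, rfl⟩⟩
  simpa [e, hi] using hs i

theorem piece_disj {e e' : ι →₀ SignType} (h : Ind k (e.support ∪ e'.support)) {x : ℝ}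
    (hx : x ∈ piece k e) (hx' : x ∈ piece k e') : e = e' := by
  obtain ⟨g, hg, h1⟩ := (mem_piece_iff (F := e.support ∪ e'.support)
    Finset.subset_union_left).1 hx
  obtain ⟨g', hg', h2⟩ := (mem_piece_iff (F := e.support ∪ e'.support)
    Finset.subset_union_right).1 hx'
  have h3 := h.direct (w := fun i => g i - g' i)
    (fun i hi => sub_mem (Sg.mem_span (hg i hi)) (Sg.mem_span (hg' i hi)))
    (by rw [Finset.sum_sub_distrib, h1, h2, sub_self])
  ext i
  by_cases hi : i ∈ e.support ∪ e'.support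
  · exact Sg.uniq (fun h0 => h i hi 0 h0 (zero_mem _)) (hg i hi)
      (sub_eq_zero.1 (h3 i hi) ▸ hg' i hi)
  · rw [Finset.mem_union, not_or, Finsupp.notMem_support_iff, Finsupp.notMem_support_iff] at hi
    rw [hi.1, hi.2]

omit [LinearOrder ι] in
theorem piece_mem {e : ι →₀ SignType} {r : ι → ℝ} (hr : ∀ i ∈ e.support, r i ∈ k i) :
    ∑ i ∈ e.support, (e i : ℝ) * r i ∈ piece k e :=
  finsetSum_mem_finsetSum _ _ _ fun i hi => Sg.mem_self _ (hr i hi)

omit [LinearOrder ι] in
theorem sig_piece {α : Type} {W : Set α} {K : ι → Set α → Set ℝ} {e : ι →₀ SignType}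
    (h : ∀ i ∈ e.support, Sig W (K i)) : Sig W (fun c => piece (fun i => K i c) e) := by
  classical
  unfold piece
  generalize e.support = F at h
  induction F using Finset.induction_on with
  | empty => exact (Gam.const isCompact_singleton).sig
  | insert a F ha ih =>
    simp only [Finset.sum_insert ha]
    refine Sig.add ?_ (ih fun i hi => h i (Finset.mem_insert_of_mem hi))
    have h1 := (h a (Finset.mem_insert_self _ _)).pos
    cases e a with
    | zero => exact (Gam.const isCompact_singleton).sig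
    | neg => exact h1.image continuous_neg
    | pos => exact h1

/-! ### The delta system argument -/

theorem delta_aux {γ I S : Type} [Countable S] (st : γ → I → S) (n : ℕ) :
    ∀ (A : Set γ) (supp : γ → Finset I), ¬ A.Countable → (∀ a ∈ A, (supp a).card ≤ n) →
      ∃ a ∈ A, ∃ b ∈ A, a ≠ b ∧ ∀ i ∈ supp a, i ∈ supp b → st a i = st b i := by
  classical
  induction n with
  | zero =>
    intro A supp hA h
    obtain ⟨a, ha, b, hb, hab⟩ : A.Nontrivial := by
      by_contra h'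
      exact hA (not_nontrivial_iff.1 h').countable
    refine ⟨a, ha, b, hb, hab, fun i hi => ?_⟩
    rw [Finset.card_eq_zero.1 (Nat.le_zero.1 (h a ha))] at hi
    simp at hi
  | succ n ih =>
    intro A supp hA h
    by_cases h1 : ∃ i, ¬ {a ∈ A | i ∈ supp a}.Countable
    · obtain ⟨i, hi⟩ := h1
      obtain ⟨s, hs⟩ : ∃ s, ¬ {a ∈ A | i ∈ supp a ∧ st a i = s}.Countable := by
        by_contra h'
        push Not at h'
        refine hi ((countable_iUnion h').mono fun a ha => ?_)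
        exact mem_iUnion.2 ⟨_, ha.1, ha.2, rfl⟩
      obtain ⟨a, ha, b, hb, hab, H⟩ := ih _ (fun a => (supp a).erase i) hs (fun a ha => by
        have := h a ha.1
        rw [Finset.card_erase_of_mem ha.2.1]
        omega)
      refine ⟨a, ha.1, b, hb.1, hab, fun j hj hj' => ?_⟩
      by_cases hji : j = i
      · rw [hji, ha.2.2, hb.2.2]
      · exact H j (Finset.mem_erase.2 ⟨hji, hj⟩) (Finset.mem_erase.2 ⟨hji, hj'⟩)
    · push Not at h1
      obtain ⟨a, ha⟩ : A.Nonempty := by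
        by_contra h'
        exact hA (not_nonempty_iff_eq_empty.1 h' ▸ countable_empty)
      have h2 : (insert a (⋃ i ∈ supp a, {b ∈ A | i ∈ supp b})).Countable :=
        ((supp a).countable_toSet.biUnion fun i _ => h1 i).insert _
      obtain ⟨b, hb, hb'⟩ : ∃ b ∈ A, b ∉ insert a (⋃ i ∈ supp a, {b ∈ A | i ∈ supp b}) := by
        by_contra h'
        push Not at h'
        exact hA (h2.mono h')
      refine ⟨a, ha, b, hb, fun e => hb' (Or.inl e.symm), fun i hi hi' => (hb' (Or.inr ?_)).elim⟩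
      exact mem_iUnion₂.2 ⟨i, hi, hb, hi'⟩

theorem delta {γ I S : Type} [Countable S] (st : γ → I → S) (A : Set γ) (supp : γ → Finset I)
    (hA : ¬ A.Countable) :
    ∃ a ∈ A, ∃ b ∈ A, a ≠ b ∧ ∀ i ∈ supp a, i ∈ supp b → st a i = st b i := by
  obtain ⟨n, hn⟩ : ∃ n, ¬ {a ∈ A | (supp a).card ≤ n}.Countable := by
    by_contra h'
    push Not at h'
    refine hA ((countable_iUnion h').mono fun a ha => ?_)
    exact mem_iUnion.2 ⟨(supp a).card, ha, le_rfl⟩
  obtain ⟨a, ha, b, hb, H⟩ := delta_aux st n _ supp hn (fun a ha => ha.2)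
  exact ⟨a, ha.1, b, hb.1, H⟩

end Pool.Agent.MP_02ff8e_lc
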