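import Pool.Agent.MP_02ff8e_lc.Indep

namespace Pool.Agent.MP_02ff8e_lc

open Set Cardinal Ordinal

theorem exists_bd {Y : Type} [LinearOrder Y] {κ : Cardinal} (hκ : ℵ₀ ≤ κ) (hY : κ < #Y)
    (h : ∀ x : Y, #(Iio x) ≤ κ) {s : Set Y} (hs : s.Countable) : ∃ b, ∀ x ∈ s, x < b := by
  by_contra h'
  push Not at h'
  have h₂ : (⋃ x : s, Iic x.1) = Set.univ := by
    refine eq_univ_of_forall fun b => ?_
    obtain ⟨x, hx, hb⟩ := h' b
    exact mem_iUnion.2 ⟨⟨x, hx⟩, hb⟩
  have h₁ : #(⋃ x : s, Iic x.1) ≤ κ := by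
    refine mk_iUnion_le_sum_mk.trans ((sum_le_sum _ (fun _ => κ) fun x => ?_).trans ?_)
    · rw [← Iio_insert]
      exact mk_insert_le.trans ((add_le_add (h _) (one_le_aleph0.trans hκ)).trans
        (add_eq_self hκ).le)
    · rw [sum_const']
      exact (mul_le_mul_left (hs.le_aleph0.trans hκ) _).trans (mul_eq_self hκ).le
  rw [h₂, mk_univ] at h₁
  exact hY.not_ge h₁

theorem succ_pow {κ : Cardinal.{0}} (hκ : ℵ₀ ≤ κ) (h : κ ^ ℵ₀ ≤ κ) :
    Order.succ κ ^ ℵ₀ ≤ Order.succ κ := by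
  let Y := (Order.succ κ).ord.ToType
  have h1 : ∀ x : Y, #(Iio x) ≤ κ := fun x =>
    Order.lt_succ_iff.1 (by simpa [Y] using mk_Iio_lt x (by simp [Y]))
  have h2 : #Y = Order.succ κ := mk_ord_toType _
  have h3 : (⋃ b : Y, {f : ℕ → Y | ∀ n, f n < b}) = Set.univ := by
    refine eq_univ_of_forall fun f => ?_
    obtain ⟨b, hb⟩ := exists_bd hκ (h2 ▸ Order.lt_succ κ) h1 (countable_range f)
    exact mem_iUnion.2 ⟨b, fun n => hb _ ⟨n, rfl⟩⟩
  have h4 : #(ℕ → Y) = Order.succ κ ^ ℵ₀ := by rw [← h2, ← mk_nat, power_def]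
  rw [← h4, ← mk_univ, ← h3]
  have hs := hκ.trans (Order.le_succ κ)
  refine mk_iUnion_le_sum_mk.trans ((sum_le_sum _ (fun _ => Order.succ κ) fun b => ?_).trans ?_)
  · refine le_trans (b := #(ℕ → Iio b)) (mk_le_of_injective
      (f := fun f n => ⟨f.1 n, f.2 n⟩) fun f f' e => Subtype.ext (funext fun n =>
        congrArg Subtype.val (congrFun e n))) ?_
    rw [← power_def, mk_nat]
    exact ((power_le_power_right (h1 b)).trans h).trans (Order.le_succ κ)
  · rw [sum_const', h2, mul_eq_self hs]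

noncomputable abbrev lam : Cardinal.{0} := Order.succ (Order.succ 𝔠)

theorem c_le_lam : 𝔠 ≤ lam := (Order.le_succ _).trans (Order.le_succ _)

theorem aleph0_le_lam : ℵ₀ ≤ lam := aleph0_le_continuum.trans c_le_lam

theorem lam_pow : lam ^ ℵ₀ ≤ lam :=
  succ_pow (aleph0_le_continuum.trans (Order.le_succ _))
    (succ_pow aleph0_le_continuum continuum_power_aleph0.le)

abbrev X3 : Type := lam.ord.ToType

theorem mk_X3 : #X3 = lam := mk_ord_toType _

noncomputable def ty (x : X3) : Ordinal.{0} := typein (α := X3) (· < ·) x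

theorem card_ty (x : X3) : (ty x).card = #(Iio x) := rfl

theorem ty_lt {x y : X3} : ty x < ty y ↔ x < y := typein_lt_typein _

theorem exists_ty {o : Ordinal.{0}} (h : o.card ≤ Order.succ 𝔠) : ∃ x, ty x = o :=
  typein_surj _ (by rw [type_toType, lt_ord]; exact h.trans_lt (Order.lt_succ _))

theorem mk_Iio_le (x : X3) : #(Iio x) ≤ Order.succ 𝔠 :=
  Order.lt_succ_iff.1 (by simpa using mk_Iio_lt x (by simp))

theorem exists_w {κ : Cardinal.{0}} (h : κ ≤ Order.succ 𝔠) :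
    ∃ w : X3, ty w = κ.ord ∧ #(Iio w) = κ ∧ ∀ y, y < w ↔ #(Iio y) < κ := by
  obtain ⟨w, hw⟩ := exists_ty (o := κ.ord) (by simpa using h)
  exact ⟨w, hw, by rw [← card_ty, hw, card_ord], fun y => by rw [← ty_lt, hw, lt_ord, card_ty]⟩

theorem h0 : ℵ₀ ≤ Order.succ 𝔠 := aleph0_le_continuum.trans (Order.le_succ _)

theorem h1 : Order.succ ℵ₀ ≤ Order.succ 𝔠 := Order.succ_le_succ aleph0_le_continuum

noncomputable def w0 : X3 := (exists_w h0).choose
noncomputable def w1 : X3 := (exists_w h1).choose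
noncomputable def w2 : X3 := (exists_w le_rfl).choose

theorem mk_w0 : #(Iio w0) = ℵ₀ := (exists_w h0).choose_spec.2.1
theorem mk_w1 : #(Iio w1) = Order.succ ℵ₀ := (exists_w h1).choose_spec.2.1
theorem mk_w2 : #(Iio w2) = Order.succ 𝔠 := (exists_w le_rfl).choose_spec.2.1

theorem lt_w1 {y : X3} : y < w1 ↔ #(Iio y) ≤ ℵ₀ :=
  ((exists_w h1).choose_spec.2.2 y).trans Order.lt_succ_iff

theorem lt_w2 {y : X3} : y < w2 ↔ #(Iio y) ≤ 𝔠 :=
  ((exists_w le_rfl).choose_spec.2.2 y).trans Order.lt_succ_iff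

theorem w0_lt : w0 < w1 := lt_w1.2 mk_w0.le

theorem mk_w1_le : #(Iio w1) ≤ 𝔠 := mk_w1 ▸ Order.succ_le_of_lt aleph0_lt_continuum

theorem w1_lt : w1 < w2 := lt_w2.2 mk_w1_le

theorem ct_of_lt {y : X3} (h : y < w1) : (Iio y).Countable :=
  le_aleph0_iff_set_countable.1 (lt_w1.1 h)

theorem exists_new {s : Set X3} (hs : s.Countable) : ∃ x < w1, x ∉ s := by
  by_contra h
  push Not at h
  exact lt_irrefl _ (lt_w1.2 (hs.mono h).le_aleph0)

theorem exists_emb : ∃ e : ℕ → X3, (∀ y, y < w0 ↔ ∃ n, e n = y) ∧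
    ∀ n y, y < e n ↔ ∃ m < n, e m = y := by
  have : ∀ n : ℕ, ∃ x, ty x = n := fun n =>
    exists_ty (by simpa using (natCast_lt_aleph0 (n := n)).le.trans h0)
  choose e he using this
  have inj : Function.Injective ty := typein_injective _
  have hw : ty w0 = ω := by rw [← ord_aleph0]; exact (exists_w h0).choose_spec.1
  have H : ∀ y, y < w0 ↔ ∃ n, e n = y := fun y => by
    rw [← ty_lt, hw, lt_omega0]
    exact exists_congr fun n => by rw [← he, inj.eq_iff, eq_comm]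
  refine ⟨e, H, fun n y => ⟨fun h => ?_, ?_⟩⟩
  · obtain ⟨m, rfl⟩ := (H y).1 (h.trans ((H _).2 ⟨n, rfl⟩))
    rw [← ty_lt, he, he] at h
    exact ⟨m, by exact_mod_cast h, rfl⟩
  · rintro ⟨m, h, rfl⟩
    rw [← ty_lt, he, he]
    exact_mod_cast h

abbrev J2 : Type := Iio w2

theorem J2_bd {s : Set J2} (hs : s.Countable) : ∃ b, ∀ x ∈ s, x < b := by
  refine exists_bd aleph0_le_continuum (mk_w2 ▸ Order.lt_succ _) (fun x => ?_) hs
  exact (mk_le_of_injective (f := fun y : Iio x => (⟨y.1.1, y.2⟩ : Iio x.1))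
    fun a b e => Subtype.ext (Subtype.ext (Subtype.mk.inj e))).trans (lt_w2.1 x.2)

theorem mk_meas {α : Type} (h : #α ≤ lam) : #{B : Set (Set α) // MeasurableSet B} ≤ lam := by
  rw [setMS_eq]
  refine (MeasurableSpace.cardinal_measurableSet_le _).trans (le_trans ?_ lam_pow)
  exact power_le_power_right (max_le (mk_range_le.trans h)
    ((natCast_lt_aleph0 (n := 2)).le.trans aleph0_le_lam))

theorem exists_enum_seq {α : Type} (h : #α ≤ lam) : ∃ β : X3 → ℕ → Set (Set α),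
    (∀ ξ n, MeasurableSet (β ξ n)) ∧ ∀ B, (∀ n, MeasurableSet (B n)) → ∃ ξ, β ξ = B := by
  have : #(ℕ → {B : Set (Set α) // MeasurableSet B}) ≤ #X3 := by
    rw [← power_def, mk_nat, mk_X3]
    exact (power_le_power_right (mk_meas h)).trans lam_pow
  obtain ⟨f⟩ := this
  have : Nonempty (ℕ → {B : Set (Set α) // MeasurableSet B}) := ⟨fun _ => ⟨∅, MeasurableSet.empty⟩⟩
  refine ⟨fun ξ n => (Function.invFun f ξ n).1, fun ξ n => (Function.invFun f ξ n).2,
    fun B hB => ⟨f fun n => ⟨B n, hB n⟩, ?_⟩⟩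
  funext n
  simp only
  rw [Function.leftInverse_invFun f.injective]

theorem exists_enum_fun {α : Type} (h : #α ≤ lam) : ∃ ν : X3 → Set α → ℝ,
    (∀ ξ, Measurable (ν ξ)) ∧ ∀ x, Measurable x → ∃ ξ, ν ξ = x := by
  have : #{x : Set α → ℝ // Measurable x} ≤ #X3 := by
    refine (mk_le_of_injective (β := ℚ → {B : Set (Set α) // MeasurableSet B})
      (f := fun x q => ⟨{c | x.1 c < (q : ℝ)}, x.2 measurableSet_Iio⟩) fun x y e => ?_).trans ?_
    · refine Subtype.ext (funext fun c => eq_of_forall_lt_rat_iff_lt fun q => ?_)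
      exact Set.ext_iff.1 (congrArg Subtype.val (congrFun e q)) c
    · rw [← power_def, mk_eq_aleph0 ℚ, mk_X3]
      exact (power_le_power_right (mk_meas h)).trans lam_pow
  obtain ⟨f⟩ := this
  have : Nonempty {x : Set α → ℝ // Measurable x} := ⟨⟨fun _ => 0, measurable_const⟩⟩
  refine ⟨fun ξ => (Function.invFun f ξ).1, fun ξ => (Function.invFun f ξ).2,
    fun x hx => ⟨f ⟨x, hx⟩, ?_⟩⟩
  simp only
  rw [Function.leftInverse_invFun f.injective]

/-- The ground model data. -/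
structure Data where
  α : Type
  V : Set (Finset α)
  emp : ∅ ∈ V
  ccc : CCC V
  S : J2 → Set α → Set ℝ
  sig : ∀ j, ∃ W, W.Countable ∧ Sig W (S j)
  add : ∀ j c, ∀ x ∈ S j c, ∀ y ∈ S j c, x + y ∈ S j c
  ne : ∀ j, ∃ x, Measurable x ∧ Frc V ∅ {c | x c ∈ S j c}
  disj : ∀ i j, i ≠ j → Frc V ∅ {c | Disjoint (S i c) (S j c)}
  cover : ∀ x : Set α → ℝ, Measurable x → ∀ p ∈ V, ∃ q ∈ V, p ⊆ q ∧
    ∃ j, Frc V q {c | x c ∈ S j c}
  r : X3 → Set α → ℝ
  r_meas : ∀ i, Measurable (r i)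
  r_ne : ∀ i j, i ≠ j → Frc V ∅ {c | r i c ≠ r j c}
  β : X3 → ℕ → Set (Set α)
  β_meas : ∀ ξ n, MeasurableSet (β ξ n)
  β_surj : ∀ B, (∀ n, MeasurableSet (B n)) → ∃ ξ, β ξ = B

abbrev II : Type := X3 ⊕ₗ J2

instance : WellFoundedLT II := ⟨Sum.lex_wf wellFounded_lt wellFounded_lt⟩

theorem ind_map {ι κ : Type} [LinearOrder ι] [LinearOrder κ] (f : ι ↪o κ) {k : κ → Set ℝ}
    {F : Finset ι} (h : Ind k (F.map f.toEmbedding)) : Ind (fun i => k (f i)) F := by
  intro i hi x hx hx'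
  refine h (f i) (Finset.mem_map_of_mem _ hi) x hx (Submodule.span_mono ?_ hx')
  refine iUnion₂_subset fun j hj => subset_biUnion_of_mem (u := k) ?_
  have := Finset.mem_filter.1 hj
  exact Finset.mem_filter.2 ⟨Finset.mem_map_of_mem _ this.1, f.lt_iff_lt.2 this.2⟩

theorem exists_data : Nonempty Data := by
  classical
  have hα : #(At II X3) ≤ lam := by
    have a1 : #II ≤ lam := by
      refine le_trans (b := #X3 + #J2) (by simp [II, Lex]) ?_
      rw [mk_X3]
      exact (add_le_add le_rfl (mk_w2.le.trans (Order.le_succ _))).trans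
        (add_eq_self aleph0_le_lam).le
    have a2 : #(St ⊕ X3) ≤ lam := by
      refine le_trans (b := #St + #X3) (by simp) ?_
      rw [mk_X3]
      exact (add_le_add (mk_le_aleph0.trans aleph0_le_lam) le_rfl).trans
        (add_eq_self aleph0_le_lam).le
    refine le_trans (b := #II * #(St ⊕ X3)) (by simp [At]) ?_
    exact (mul_le_mul' a1 a2).trans (mul_eq_self aleph0_le_lam).le
  obtain ⟨ν, hν, hν'⟩ := exists_enum_fun hα
  obtain ⟨β, hβ, hβ'⟩ := exists_enum_seq hα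
  let f : J2 ↪o II := OrderEmbedding.ofStrictMono (fun j => toLex (Sum.inr j))
    fun _ _ h => Sum.Lex.inr_lt_inr_iff.2 h
  have : Infinite J2 := infinite_iff.2 (mk_w2 ▸ h0)
  obtain ⟨e⟩ : Nonempty (J2 ≃ (J2 →₀ SignType)) := by
    rw [← Cardinal.eq, mk_finsupp_of_infinite, max_eq_left]
    exact mk_le_aleph0.trans (aleph0_le_mk _)
  have hT : ∀ s : Set II, s.Countable → ∃ b ∈ range f, ∀ i ∈ s, i < b := by
    intro s hs
    obtain ⟨b, hb⟩ := J2_bd (hs.preimage f.injective)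
    refine ⟨f b, ⟨b, rfl⟩, fun i hi => ?_⟩
    rcases i with i | i
    · exact Sum.Lex.inl_lt_inr _ _
    · exact f.lt_iff_lt.2 (hb i hi)
  let V := VV ν (range f) (Set.univ : Set II)
  have hsig : ∀ e : J2 →₀ SignType, Sig (WW X3 (e.support.map f.toEmbedding))
      (fun c => piece (fun i => KK (f i) c) e) := fun e =>
    sig_piece fun i hi => sig_KK' (Finset.mem_map_of_mem _ hi)
  refine ⟨⟨At II X3, V, empty_mem_VV, ccc_VV, fun j c => piece (fun i => KK (f i) c) (e j),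
    fun j => ⟨_, WW_countable _, hsig _⟩, fun j c x hx y hy => piece_add hx hy,
    fun j => ⟨fun c => ∑ i ∈ (e j).support, ((e j) i : ℝ) * rr (f i) c, ?_,
      Frc.of_forall fun c hc _ => piece_mem (r := fun i => rr (f i) c)
        fun i _ => rr_mem_KK hc _⟩, fun i j hij => ?_, fun x hx p hp => ?_,
    fun i => rr (toLex (Sum.inl i)), fun _ => rr_meas _,
    fun i j h => frc_rr_ne (by simpa using h), β, hβ, hβ'⟩⟩
  · exact Finset.measurable_sum _ fun i _ => (rr_meas _).const_mul _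
  · refine (frc_indep hν (F := ((e i).support ∪ (e j).support).map f.toEmbedding)
      fun k hk => ?_).mono subset_rfl fun c hc => ?_
    · obtain ⟨a, -, rfl⟩ := Finset.mem_map.1 hk
      exact ⟨a, rfl⟩
    · exact Set.disjoint_left.2 fun x h1 h2 => hij (e.injective (piece_disj (ind_map f hc) h1 h2))
  · obtain ⟨ξ, rfl⟩ := hν' x hx
    obtain ⟨q, hq, hpq, F, hF, h⟩ := frc_cover hν hT ξ p hp
    let F' : Finset J2 := F.preimage f f.injective.injOn
    have h' : Frc V q (⋃ s : {s : J2 →₀ SignType // s.support ⊆ F'},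
        {c | ν ξ c ∈ piece (fun i => KK (f i) c) s.1}) := by
      refine h.mono subset_rfl fun c hc => ?_
      obtain ⟨s, h1, h2⟩ := piece_cover (k := fun i => KK (f i) c) (F := F') (x := ν ξ c)
        (Submodule.span_mono (iUnion₂_subset fun j hj => by
          obtain ⟨a, rfl⟩ := hF j hj
          exact subset_biUnion_of_mem (u := fun i => KK (f i) c) (Finset.mem_preimage.2 hj)) hc)
      exact mem_iUnion.2 ⟨⟨s, h1⟩, h2⟩
    have : Countable {s : J2 →₀ SignType // s.support ⊆ F'} := by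
      refine Function.Injective.countable (f := fun s (i : F') => s.1 i) fun s t h => ?_
      refine Subtype.ext (Finsupp.ext fun i => ?_)
      by_cases hi : i ∈ F'
      · exact congrFun h ⟨i, hi⟩
      · rw [Finsupp.notMem_support_iff.1 fun h => hi (s.2 h),
          Finsupp.notMem_support_iff.1 fun h => hi (t.2 h)]
    obtain ⟨r, hr, hqr, s, hs⟩ := Frc.exists_of_iUnion ccc_VV hq
      (fun s : {s : J2 →₀ SignType // s.support ⊆ F'} =>
        (hsig s.1).meas (WW_countable _) (hν ξ)) h'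
    exact ⟨r, hr, hpq.trans hqr, e.symm s.1, by simpa using hs⟩

end Pool.Agent.MP_02ff8e_lc
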