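import Pool.Agent.MP_c6cf52_lc.Defs

namespace Pool.Agent.MP_02ff8e_lc

open Pool.Agent.MP_c6cf52_lc

universe u

variable {M : Type u} (E : M → M → Prop)

/-- `w` is the first infinite ordinal: a nonzero limit ordinal all of whose nonzero members have a
largest member. -/
def IsOmega (w : M) : Prop :=
  IsOrd E w ∧ (∃ x, E x w) ∧ (∀ x, E x w → ∃ y, E y w ∧ E x y) ∧
    ∀ x, E x w → (∃ y, E y x) → ∃ y, E y x ∧ ∀ z, E z x → ¬ E y z

/-- `l` is the least cardinal above `k`. -/
def IsSucc (k l : M) : Prop := IsCard E l ∧ E k l ∧ ∀ m, IsCard E m → E k m → ¬ E m l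

/-- `f` is a bijection from `X` onto `Y`. -/
def IsBij (f X Y : M) : Prop := IsInj E f X Y ∧ ∀ b, E b Y → ∃ a, App E f a b

/-- `f` sends the pair `(a, b)` to `c`. -/
def App2 (f a b c : M) : Prop := ∃ p, IsPair E p a b ∧ App E f p c

/-- `(R, add, mul, lt)` is a Dedekind complete ordered field. -/
def IsReals (R add mul lt : M) : Prop :=
  ∃ (_ : Field {x // E x R}) (_ : LinearOrder {x // E x R}), IsStrictOrderedRing {x // E x R} ∧
    (∀ x y z : {x // E x R}, App2 E add x.1 y.1 z.1 ↔ x + y = z) ∧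
    (∀ x y z : {x // E x R}, App2 E mul x.1 y.1 z.1 ↔ x * y = z) ∧
    (∀ x y : {x // E x R}, App E lt x.1 y.1 ↔ x < y) ∧
    ∀ S : M, (∃ x : {x // E x R}, E x.1 S) → BddAbove {x : {x // E x R} | E x.1 S} →
      ∃ s, IsLUB {x : {x // E x R} | E x.1 S} s

/-- `c` is a closed subset of `R` for the order topology. -/
def IsClosedIn (R lt c : M) : Prop :=
  (∀ x, E x c → E x R) ∧ ∀ x, E x R → ¬ E x c → ∃ a b, E a R ∧ E b R ∧ App E lt a x ∧
    App E lt x b ∧ ∀ y, E y c → ¬ (App E lt a y ∧ App E lt y b)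

/-- `A` is the union of a sequence (indexed by `w`) of closed subsets of `R`. -/
def IsFsigma (w R lt A : M) : Prop :=
  ∃ f C, IsFun E f w C ∧ (∀ n c, App E f n c → IsClosedIn E R lt c) ∧
    ∀ x, E x A ↔ ∃ n c, App E f n c ∧ E x c

/-- `A` is nonempty and closed under addition. -/
def IsSemigroup (add A : M) : Prop :=
  (∃ x, E x A) ∧ ∀ x y z, E x A → E y A → App2 E add x y z → E z A

end Pool.Agent.MP_02ff8e_lc
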