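import Pool.Agent.MP_02ff8e_lc.Sem

namespace Pool.Agent.MP_02ff8e_lc

open Set Pointwise Topology

variable {α : Type}

/-- Compact valued maps that are upper semicontinuous for finite information. -/
def Gam (W : Set α) (C : Set α → Set ℝ) : Prop :=
  (∀ c, IsCompact (C c)) ∧ ∀ c O, IsOpen O → C c ⊆ O →
    ∃ p : Finset α, ↑p ⊆ c ∩ W ∧ ∀ c', ↑p ⊆ c' → C c' ⊆ O

def Sig (W : Set α) (S : Set α → Set ℝ) : Prop :=
  ∃ C : ℕ → Set α → Set ℝ, (∀ n, Gam W (C n)) ∧ ∀ c, S c = ⋃ n, C n c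

variable {W : Set α} {C C' S S' : Set α → Set ℝ}

theorem Gam.const {L : Set ℝ} (hL : IsCompact L) : Gam W (fun _ => L) :=
  ⟨fun _ => hL, fun _ _ _ h => ⟨∅, by simp, fun _ _ => h⟩⟩

theorem Gam.image (h : Gam W C) {f : ℝ → ℝ} (hf : Continuous f) : Gam W (fun c => f '' C c) := by
  refine ⟨fun c => (h.1 c).image hf, fun c O hO hc => ?_⟩
  obtain ⟨p, h1, h2⟩ := h.2 c (f ⁻¹' O) (hO.preimage hf) (image_subset_iff.1 hc)
  exact ⟨p, h1, fun c' hc' => image_subset_iff.2 (h2 c' hc')⟩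

theorem Gam.inter (h : Gam W C) {Z : Set ℝ} (hZ : IsClosed Z) : Gam W (fun c => C c ∩ Z) := by
  refine ⟨fun c => (h.1 c).inter_right hZ, fun c O hO hc => ?_⟩
  obtain ⟨p, h1, h2⟩ := h.2 c (O ∪ Zᶜ) (hO.union hZ.isOpen_compl) (fun x hx => by
    by_cases hz : x ∈ Z
    · exact Or.inl (hc ⟨hx, hz⟩)
    · exact Or.inr hz)
  exact ⟨p, h1, fun c' hc' x hx => (h2 c' hc' hx.1).resolve_right (fun h => h hx.2)⟩

theorem Gam.add (h : Gam W C) (h' : Gam W C') : Gam W (fun c => C c + C' c) := by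
  classical
  refine ⟨fun c => (h.1 c).add (h'.1 c), fun c O hO hc => ?_⟩
  obtain ⟨V, hV, hVO⟩ := compact_open_separated_add_right ((h.1 c).add (h'.1 c)) hO hc
  obtain ⟨U, hU, hU0, hUV⟩ := exists_open_nhds_zero_add_subset hV
  obtain ⟨p, h1, h2⟩ := h.2 c (C c + U) hU.add_left (subset_add_left _ hU0)
  obtain ⟨p', h1', h2'⟩ := h'.2 c (C' c + U) hU.add_left (subset_add_left _ hU0)
  refine ⟨p ∪ p', by rw [Finset.coe_union]; exact union_subset h1 h1', fun c' hc' => ?_⟩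
  rw [Finset.coe_union, union_subset_iff] at hc'
  refine (add_subset_add (h2 c' hc'.1) (h2' c' hc'.2)).trans (Subset.trans ?_ hVO)
  rw [add_add_add_comm]
  exact add_subset_add_left hUV

theorem Gam.meas_subset (h : Gam W C) (hW : W.Countable) {O : Set ℝ} (hO : IsOpen O) :
    MeasurableSet {c | C c ⊆ O} := by
  have : {c | C c ⊆ O} = ⋃ p ∈ {p : Finset α | ↑p ⊆ W ∧ ∀ c', ↑p ⊆ c' → C c' ⊆ O},
      {c : Set α | ↑p ⊆ c} := by
    ext c
    simp only [mem_ofPred_eq, mem_iUnion, exists_prop]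
    constructor
    · intro hc
      obtain ⟨p, h1, h2⟩ := h.2 c O hO hc
      exact ⟨p, ⟨h1.trans inter_subset_right, h2⟩, h1.trans inter_subset_left⟩
    · rintro ⟨p, h1, h2⟩
      exact h1.2 c h2
  rw [this]
  refine MeasurableSet.biUnion ?_ fun p _ => measurableSet_supset p
  refine ((countable_setOf_finite_subset hW).preimage_of_injOn
    (f := fun p : Finset α => (↑p : Set α)) Finset.coe_injective.injOn).mono fun p hp => ?_
  exact ⟨p.finite_toSet, hp.1⟩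

theorem exists_rat_nbhd {L : Set ℝ} (hL : IsClosed L) {t : ℝ} (ht : t ∉ L) :
    ∃ a b : ℚ, (a : ℝ) < t ∧ t < b ∧ L ⊆ (Icc (a : ℝ) b)ᶜ := by
  obtain ⟨l, u, hlu, hsub⟩ := mem_nhds_iff_exists_Ioo_subset.1 (hL.isOpen_compl.mem_nhds ht)
  obtain ⟨a, h1, h2⟩ := exists_rat_btwn hlu.1
  obtain ⟨b, h3, h4⟩ := exists_rat_btwn hlu.2
  exact ⟨a, b, h2, h3, fun x hx hx' => hsub ⟨h1.trans_le hx'.1, hx'.2.trans_lt h4⟩ hx⟩

theorem Gam.compl_eq (h : Gam W C) (x : Set α → ℝ) : {c | x c ∈ C c}ᶜ =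
    ⋃ ab : ℚ × ℚ, {c | (ab.1 : ℝ) < x c ∧ x c < ab.2 ∧ C c ⊆ (Icc (ab.1 : ℝ) ab.2)ᶜ} := by
  ext c
  simp only [mem_compl_iff, mem_ofPred_eq, mem_iUnion]
  constructor
  · intro hc
    obtain ⟨a, b, h1⟩ := exists_rat_nbhd (h.1 c).isClosed hc
    exact ⟨(a, b), h1⟩
  · rintro ⟨ab, h1, h2, h3⟩ hc
    exact h3 hc ⟨h1.le, h2.le⟩

theorem Gam.meas_piece (h : Gam W C) (hW : W.Countable) {x : Set α → ℝ} (hx : Measurable x)
    (ab : ℚ × ℚ) :
    MeasurableSet {c | (ab.1 : ℝ) < x c ∧ x c < ab.2 ∧ C c ⊆ (Icc (ab.1 : ℝ) ab.2)ᶜ} :=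
  (measurableSet_lt measurable_const hx).inter ((measurableSet_lt hx measurable_const).inter
    (h.meas_subset hW isClosed_Icc.isOpen_compl))

theorem Gam.meas (h : Gam W C) (hW : W.Countable) {x : Set α → ℝ} (hx : Measurable x) :
    MeasurableSet {c | x c ∈ C c} := by
  rw [← MeasurableSet.compl_iff, h.compl_eq]
  exact MeasurableSet.iUnion (h.meas_piece hW hx)

theorem Sig.iUnion {J : Type*} [Countable J] {S : J → Set α → Set ℝ} (h : ∀ j, Sig W (S j)) :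
    Sig W (fun c => ⋃ j, S j c) := by
  rcases isEmpty_or_nonempty J with hJ | hJ
  · exact ⟨fun _ _ => ∅, fun _ => Gam.const isCompact_empty, fun c => by simp⟩
  obtain ⟨e, he⟩ := exists_surjective_nat (J × ℕ)
  choose C h1 h2 using h
  refine ⟨fun n => C (e n).1 (e n).2, fun n => h1 _ _, fun c => ?_⟩
  ext x
  simp only [h2, mem_iUnion]
  constructor
  · rintro ⟨j, n, hx⟩
    obtain ⟨m, hm⟩ := he (j, n)
    exact ⟨m, by rw [hm]; exact hx⟩
  · rintro ⟨m, hm⟩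
    exact ⟨_, _, hm⟩

theorem Gam.sig (h : Gam W C) : Sig W C := ⟨fun _ => C, fun _ => h, fun _ => (iUnion_const _).symm⟩

theorem Sig.congr (h : Sig W S) (e : ∀ c, S c = S' c) : Sig W S' := by
  rwa [show S' = S from funext fun c => (e c).symm]

theorem Sig.image (h : Sig W S) {f : ℝ → ℝ} (hf : Continuous f) : Sig W (fun c => f '' S c) := by
  obtain ⟨C, h1, h2⟩ := h
  exact ⟨fun n c => f '' C n c, fun n => (h1 n).image hf, fun c => by simp only [h2, image_iUnion]⟩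

theorem Sig.inter (h : Sig W S) {Z : Set ℝ} (hZ : IsClosed Z) : Sig W (fun c => S c ∩ Z) := by
  obtain ⟨C, h1, h2⟩ := h
  exact ⟨fun n c => C n c ∩ Z, fun n => (h1 n).inter hZ, fun c => by simp only [h2, iUnion_inter]⟩

theorem Sig.add (h : Sig W S) (h' : Sig W S') : Sig W (fun c => S c + S' c) := by
  obtain ⟨C, h1, h2⟩ := h
  obtain ⟨C', h1', h2'⟩ := h'
  refine (Sig.iUnion fun z : ℕ × ℕ => ((h1 z.1).add (h1' z.2)).sig).congr fun c => ?_
  rw [h2, h2']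
  ext x
  simp only [mem_iUnion, mem_add]
  constructor
  · rintro ⟨z, a, ha, b, hb, e⟩
    exact ⟨a, ⟨_, ha⟩, b, ⟨_, hb⟩, e⟩
  · rintro ⟨a, ⟨n, ha⟩, b, ⟨m, hb⟩, e⟩
    exact ⟨(n, m), a, ha, b, hb, e⟩

theorem Sig.union (h : Sig W S) (h' : Sig W S') : Sig W (fun c => S c ∪ S' c) :=
  (Sig.iUnion (S := fun b : Bool => cond b S S') fun b => by cases b <;> assumption).congr
    fun c => by
      ext x
      simp [or_comm]

theorem Sig.meas (h : Sig W S) (hW : W.Countable) {x : Set α → ℝ} (hx : Measurable x) :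
    MeasurableSet {c | x c ∈ S c} := by
  obtain ⟨C, h1, h2⟩ := h
  have : {c | x c ∈ S c} = ⋃ n, {c | x c ∈ C n c} := by
    ext c; simp [h2]
  rw [this]
  exact MeasurableSet.iUnion fun n => (h1 n).meas hW hx

/-- Sums of rational multiples. -/
def sumList : List ℚ → Set ℝ → Set ℝ
  | [], _ => {0}
  | q :: l, L => (fun t => q • t) '' L + sumList l L

theorem span_eq_sumList (L : Set ℝ) :
    (Submodule.span ℚ L : Set ℝ) = ⋃ l : List ℚ, sumList l L := by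
  apply Subset.antisymm
  · intro x hx
    induction hx using Submodule.span_induction with
    | mem t ht => exact mem_iUnion.2 ⟨[1], t, ⟨t, ht, by simp⟩, 0, rfl, by simp⟩
    | zero => exact mem_iUnion.2 ⟨[], rfl⟩
    | add x y hx' _ hx hy =>
      obtain ⟨l, hl⟩ := mem_iUnion.1 hx
      obtain ⟨l', hl'⟩ := mem_iUnion.1 hy
      refine mem_iUnion.2 ⟨l ++ l', ?_⟩
      clear hx hx'
      induction l generalizing x with
      | nil => rw [show x = 0 from hl, zero_add]; exact hl'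
      | cons q l ih =>
        obtain ⟨a, ha, b, hb, rfl⟩ := hl
        exact ⟨a, ha, b + y, ih b hb, (add_assoc _ _ _).symm⟩
    | smul r x hx' hx =>
      obtain ⟨l, hl⟩ := mem_iUnion.1 hx
      refine mem_iUnion.2 ⟨l.map (r * ·), ?_⟩
      clear hx hx'
      induction l generalizing x with
      | nil => rw [show x = 0 from hl, smul_zero]; rfl
      | cons q l ih =>
        obtain ⟨_, ⟨a, ha, rfl⟩, b, hb, rfl⟩ := hl
        exact ⟨_, ⟨a, ha, rfl⟩, r • b, ih b hb, by simp only [smul_add, mul_smul]⟩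
  · refine iUnion_subset fun l => ?_
    induction l with
    | nil => rintro _ rfl; exact Submodule.zero_mem _
    | cons q l ih =>
      rintro _ ⟨_, ⟨a, ha, rfl⟩, b, hb, rfl⟩
      exact Submodule.add_mem _ (Submodule.smul_mem _ _ (Submodule.subset_span ha)) (ih hb)

theorem Sig.span (h : Sig W S) : Sig W (fun c => (Submodule.span ℚ (S c) : Set ℝ)) := by
  refine (Sig.iUnion (S := fun (l : List ℚ) c => sumList l (S c)) fun l => ?_).congr
    fun c => (span_eq_sumList _).symm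
  induction l with
  | nil => exact (Gam.const isCompact_singleton).sig
  | cons q l ih => exact (h.image (continuous_const_smul q)).add ih

/-- Combinations of elements of `K` with positive leading coefficient. -/
def Pos (K : Set ℝ) : Set ℝ :=
  {x | ∃ q : ℚ, 0 < q ∧ ∃ t ∈ K, ∃ w ∈ Submodule.span ℚ (K ∩ Iio t), x = q • t + w}

theorem span_inter_Iio {K : Set ℝ} {t w : ℝ} (hw : w ∈ Submodule.span ℚ (K ∩ Iio t)) :
    ∃ a : ℚ, (a : ℝ) < t ∧ w ∈ Submodule.span ℚ (K ∩ Iic (a : ℝ)) := by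
  have mono : ∀ a b : ℚ, a ≤ b → Submodule.span ℚ (K ∩ Iic (a : ℝ)) ≤
      Submodule.span ℚ (K ∩ Iic (b : ℝ)) := fun a b h =>
    Submodule.span_mono (inter_subset_inter_right _ (Iic_subset_Iic.2 (by exact_mod_cast h)))
  induction hw using Submodule.span_induction with
  | mem s hs =>
    obtain ⟨a, h1, h2⟩ := exists_rat_btwn (show s < t from hs.2)
    exact ⟨a, h2, Submodule.subset_span ⟨hs.1, h1.le⟩⟩
  | zero =>
    obtain ⟨a, ha⟩ := exists_rat_lt t
    exact ⟨a, ha, Submodule.zero_mem _⟩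
  | add x y _ _ hx hy =>
    obtain ⟨a, ha, hx⟩ := hx
    obtain ⟨b, hb, hy⟩ := hy
    refine ⟨max a b, by push_cast; exact max_lt ha hb, Submodule.add_mem _
      (mono _ _ (le_max_left _ _) hx) (mono _ _ (le_max_right _ _) hy)⟩
  | smul r x _ hx =>
    obtain ⟨a, ha, hx⟩ := hx
    exact ⟨a, ha, Submodule.smul_mem _ _ hx⟩

theorem Sig.pos (h : Sig W S) : Sig W (fun c => Pos (S c)) := by
  refine (Sig.iUnion (S := fun (z : {z : ℚ × ℚ × ℚ // 0 < z.1 ∧ z.2.1 < z.2.2}) c =>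
    (fun t => z.1.1 • t) '' (S c ∩ Ici (z.1.2.2 : ℝ)) +
      (Submodule.span ℚ (S c ∩ Iic (z.1.2.1 : ℝ)) : Set ℝ)) fun z =>
      ((h.inter isClosed_Ici).image (continuous_const_smul _)).add
        (h.inter isClosed_Iic).span).congr fun c => ?_
  ext x
  simp only [mem_iUnion]
  constructor
  · rintro ⟨⟨⟨q, a, b⟩, h1, h2⟩, _, ⟨t, ht, rfl⟩, w, hw, rfl⟩
    refine ⟨q, h1, t, ht.1, w, Submodule.span_mono (inter_subset_inter_right _ ?_) hw, rfl⟩
    intro s hs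
    have : (a : ℝ) < b := by exact_mod_cast h2
    exact lt_of_le_of_lt hs (this.trans_le ht.2)
  · rintro ⟨q, h1, t, ht, w, hw, rfl⟩
    obtain ⟨a, ha, hw⟩ := span_inter_Iio hw
    obtain ⟨b, h2, h3⟩ := exists_rat_btwn ha
    exact ⟨⟨(q, a, b), h1, by exact_mod_cast h2⟩, _, ⟨t, ⟨ht, h3.le⟩, rfl⟩, w, hw, rfl⟩

theorem sig_const_iff {L : Set ℝ} :
    Sig W (fun _ => L) ↔ ∃ C : ℕ → Set ℝ, (∀ n, IsCompact (C n)) ∧ L = ⋃ n, C n :=
  ⟨fun ⟨C, h1, h2⟩ => ⟨fun n => C n ∅, fun n => (h1 n).1 _, h2 ∅⟩,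
    fun ⟨C, h1, h2⟩ => ⟨fun n _ => C n, fun n => Gam.const (h1 n), fun _ => h2⟩⟩

end Pool.Agent.MP_02ff8e_lc
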