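import Pool.Agent.MP_02ff8e_lc.Iter

namespace Pool.Agent.MP_02ff8e_lc

open Set Pointwise Topology Submodule

variable {I Ξ : Type} [LinearOrder I] [LinearOrder Ξ] [WellFoundedLT I]
  {ν : Ξ → Set (At I Ξ) → ℝ} {T S : Set I}

theorem free_image {W : Submodule ℚ ℝ} (x : Ξ → ℝ) (A : Finset Ξ)
    (h : ∀ ξ ∈ A, x ξ ∉ W ⊔ span ℚ (x '' ↑(A.filter (· < ξ)))) : Free W (x '' A) := by
  induction A using Finset.induction_on_max with
  | empty => simp [Free]
  | insert a A ha ih =>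
    rw [Finset.coe_insert, image_insert_eq]
    refine Free.insert (ih fun ξ hξ hm => h ξ (Finset.mem_insert_of_mem hξ) ?_) ?_
    · refine sup_le_sup_left (span_mono (image_mono ?_)) W hm
      exact Finset.coe_subset.2 (Finset.filter_subset_filter _ (Finset.subset_insert _ _))
    · have := h a (Finset.mem_insert_self _ _)
      rwa [filter_insert_max ha] at this

theorem exists_UU {E : Set ℝ} (hE : E.Finite) {s : ℝ} (hs : s ∉ E) :
    ∃ d, E ⊆ interior (UU d) ∧ s ∉ UU d := by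
  classical
  have : ∀ e : E, ∃ ab : ℚ × ℚ, e.1 ∈ Ioo (ab.1 : ℝ) ab.2 ∧ s ∉ Icc (ab.1 : ℝ) ab.2 := by
    intro e
    obtain ⟨a, b, h1, h2, h3⟩ := exists_rat_nbhd (isClosed_singleton (x := s)) (t := e.1)
      (fun h => hs ((show e.1 = s from h) ▸ e.2))
    exact ⟨(a, b), ⟨h1, h2⟩, h3 rfl⟩
  choose f h1 h2 using this
  have := hE.fintype
  refine ⟨Finset.univ.image f, fun e he => ?_, fun h => ?_⟩
  · refine interior_mono (subset_biUnion_of_mem (u := fun ab : ℚ × ℚ => Icc (ab.1 : ℝ) ab.2)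
      (Finset.mem_image_of_mem f (Finset.mem_univ ⟨e, he⟩))) ?_
    rw [interior_Icc]
    exact h1 ⟨e, he⟩
  · obtain ⟨ab, hab, h3⟩ := mem_iUnion₂.1 h
    obtain ⟨e, -, rfl⟩ := Finset.mem_image.1 hab
    exact h2 e h3

theorem Pos.mono {K K' : Set ℝ} (h : K ⊆ K') : Pos K ⊆ Pos K' := by
  rintro _ ⟨q, hq, t, ht, w, hw, rfl⟩
  exact ⟨q, hq, t, h ht, w, span_mono (inter_subset_inter_left _ h) hw, rfl⟩

theorem frc_indep_step (hν : ∀ ξ, Measurable (ν ξ)) {β : I} (hβ : β ∈ S) (hS : Iio β ⊆ S)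
    {F : Finset I} (hF : ∀ j ∈ F, j ∈ T ∧ j < β)
    (ih : Frc (VS ν T β) ∅ {c | Ind (fun i => KK i c) F}) :
    Frc (VV ν T S) ∅ {c | ∀ x ∈ Pos (KK β c), x ∉ span ℚ (⋃ j ∈ F, KK j c)} := by
  classical
  obtain ⟨C, hC1, hC2⟩ : Sig univ (fun c : Set (At I Ξ) =>
      Pos (KK β c) + (span ℚ (⋃ j ∈ F, KK j c) : Set ℝ)) :=
    (sig_KK fun _ => mem_univ _).pos.add (sig_UF fun _ _ => sig_KK fun _ => mem_univ _).span
  suffices H : ∀ n, Frc (VV ν T S) ∅ {c | (0 : ℝ) ∉ C n c} by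
    refine (Frc.all H).mono subset_rfl fun c hc x hx hx' => ?_
    have : (0 : ℝ) ∈ ⋃ n, C n c := by
      rw [← hC2]
      exact ⟨x, hx, -x, neg_mem hx', by simp⟩
    obtain ⟨n, hn⟩ := mem_iUnion.1 this
    exact hc n hn
  intro n
  refine Frc.reg ccc_VV fun q hq _ => ?_
  have hq0 := res_mem hq β
  let A : Finset Ξ := q.preimage (aA β) (fun a _ b _ h => by simpa using h)
  have hA : ∀ ξ, ξ ∈ A ↔ aA β ξ ∈ q := fun ξ => Finset.mem_preimage
  have f1 : Frc (VS ν T β) (res β q) {c | ∀ ξ : A, ν ξ.1 c ∉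
      span ℚ ((⋃ j ∈ F, KK j c) ∪ (fun η => ν η c) '' ↑(A.filter (· < ξ.1)))} :=
    Frc.all fun ξ => ((hq.1 β).2.2 ξ.1 ((hA _).1 ξ.2)).2.2 F _ hF fun η hη =>
      ⟨(Finset.mem_filter.1 hη).2, ((hq.1 β).2.2 η ((hA _).1 (Finset.mem_filter.1 hη).1)).1⟩
  have f2 : Frc (VS ν T β) (res β q) {c | ∀ z : A × ℚ × ℚ,
      c ∈ {c | ν z.1.1 c ∈ Ioo (z.2.1 : ℝ) z.2.2} → ∃ r ∈ VS ν T β, ↑r ⊆ c ∧
        Frc (VS ν T β) r {c | ν z.1.1 c ∈ Ioo (z.2.1 : ℝ) z.2.2}} :=
    Frc.all fun z => frc_truth (ccc_VS β) (hν _ measurableSet_Ioo) _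
  obtain ⟨c, hc, hqc, ⟨g0, g1⟩, g2⟩ :=
    (((ih.mono (Finset.empty_subset _) subset_rfl).inter f1).inter f2).exists_point hq0
  have hcl : ∀ a ∈ c, a.1 < β := fun a ha => by
    obtain ⟨r, hr, h1, -⟩ := hc {a} (by simpa using ha)
    exact VS_lt hr a (h1 (by simp))
  have hfin : ((fun η => ν η c) '' ↑A).Finite := A.finite_toSet.image _
  have hne := span_union_finite_ne_top
    (SC.of_closed (isClosed_biUnion_finset fun i _ => KK_closed i c))
    (Ind.span_ne_top (fun i => KK_closed i c) g0) hfin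
  obtain ⟨t, ht, hts⟩ : ∃ t ∈ Jo q β,
      t ∉ span ℚ ((⋃ j ∈ F, KK j c) ∪ (fun η => ν η c) '' ↑A) := by
    by_contra h
    push Not at h
    obtain ⟨t, ht⟩ := (hq.1 β).1
    obtain ⟨l, u, h1, h2⟩ := mem_nhds_iff_exists_Ioo_subset.1 ((Jo_open q β).mem_nhds ht)
    exact hne (eq_top_of_Ioo (h1.1.trans h1.2) fun s hs => h s (h2 hs))
  have hfree : Free (span ℚ (⋃ j ∈ F, KK j c)) (insert t ((fun η => ν η c) '' ↑A)) := by
    refine Free.insert (free_image _ _ fun ξ hξ => ?_) (by rwa [← span_union])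
    rw [← span_union]
    exact g1 ⟨ξ, hξ⟩
  set E := insert t ((fun η => ν η c) '' ↑A) with hE
  let c' : Set (At I Ξ) := c ∪ uA β '' {d | E ⊆ interior (UU d)}
  have hK1 : KK β c' ⊆ E := by
    intro s hs
    by_contra h
    obtain ⟨d, h1, h2⟩ := exists_UU (hfin.insert t) h
    exact h2 (hs d (Or.inr ⟨d, h1, rfl⟩))
  have hK2 : (⋃ j ∈ F, KK j c') ⊆ ⋃ j ∈ F, KK j c :=
    iUnion₂_mono fun j _ s hs d hd => hs d (Or.inl hd)
  obtain ⟨p', hp1, hp2⟩ := (hC1 n).2 c' {0}ᶜ isOpen_compl_singleton (by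
    intro x hx h0
    have : x ∈ ⋃ n, C n c' := mem_iUnion.2 ⟨n, hx⟩
    rw [← hC2] at this
    obtain ⟨a, ha, b, hb, e⟩ := this
    refine hfree.pos a (Pos.mono hK1 ha) ?_
    have e' : a + b = 0 := e.trans h0
    rw [eq_neg_of_add_eq_zero_left e']
    exact neg_mem (span_mono hK2 hb))
  let Dn : Finset (Finset (ℚ × ℚ)) := p'.preimage (uA β) (fun a _ b _ h => by simpa using h)
  have hDn : ∀ d ∈ Dn, E ⊆ interior (UU d) := by
    intro d hd
    rcases (hp1 (Finset.mem_preimage.1 hd)).1 with h | ⟨d', h, e⟩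
    · exact absurd (hcl _ h) (lt_irrefl _)
    · obtain rfl : d' = d := by simpa using e
      exact h
  have hO : ∀ e ∈ E, ∃ a b : ℚ, (a : ℝ) < e ∧ e < b ∧ ∀ d ∈ Dn, Icc (a : ℝ) b ⊆ UU d := by
    intro e he
    obtain ⟨a, b, h1, h2, h3⟩ := exists_rat_nbhd (L := (⋂ d ∈ Dn, interior (UU d))ᶜ) (t := e)
      (isOpen_biInter_finset fun _ _ => isOpen_interior).isClosed_compl
      (fun h => h (mem_iInter₂.2 fun d hd => hDn d hd he))
    exact ⟨a, b, h1, h2, fun d hd s hs => interior_subset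
      (mem_iInter₂.1 (compl_subset_compl.1 h3 hs) d hd)⟩
  have hr : ∀ ξ : A, ∃ r : Finset (At I Ξ), ↑r ⊆ c ∧
      ∀ d ∈ Dn, Frc (VS ν T β) r {c | ν ξ.1 c ∈ UU d} := by
    intro ξ
    obtain ⟨a, b, h1, h2, h3⟩ := hO _ (Or.inr ⟨ξ.1, ξ.2, rfl⟩)
    obtain ⟨r, -, h4, h5⟩ := g2 (ξ, a, b) ⟨h1, h2⟩
    exact ⟨r, h4, fun d hd => h5.mono subset_rfl fun c hc => h3 d hd (Ioo_subset_Icc_self hc)⟩
  choose rξ hr1 hr2 using hr
  obtain ⟨r, hr, h1, -⟩ := hc (res β q ∪ res β p' ∪ Finset.univ.biUnion rξ) (by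
    intro a ha
    simp only [Finset.coe_union, Finset.coe_biUnion, mem_union, mem_iUnion] at ha
    rcases ha with (ha | ha) | ⟨ξ, -, ha⟩
    · exact hqc ha
    · rcases (hp1 (mem_res.1 ha).1).1 with h | ⟨d', -, e⟩
      · exact h
      · exact absurd (mem_res.1 ha).2 (by rw [← e]; exact lt_irrefl _)
    · exact hr1 ξ ha)
  obtain ⟨a, b, h2, h3, h4⟩ := hO t (mem_insert _ _)
  have hw0 := amalg hS hq hr ((Finset.subset_union_left.trans Finset.subset_union_left).trans h1)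
  have hrβ : ∀ s, (β, s) ∉ r := fun s h => lt_irrefl _ (VS_lt hr _ h)
  have hw := add_rA hw0 hβ (t := t) ⟨ht.1, fun ab h => ht.2 ab (by simpa [hrβ] using h)⟩
    (ab := (a, b)) ⟨h2, h3⟩
  set w := r ∪ q ∪ {rA β (a, b)} with hwdef
  have hrw : r ⊆ res β (w ∪ Dn.image (uA β)) := fun x hx =>
    mem_res.2 ⟨by simp [hwdef, hx], VS_lt hr x hx⟩
  have hw2 : w ∪ Dn.image (uA β) ∈ VV ν T S := by
    refine extend hw hβ (by simp) ⟨?_, fun d hd => ?_, fun ξ hξ => ?_⟩
    · obtain ⟨s, h5, h6⟩ := (hw.1 β).1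
      exact ⟨s, h5, fun ab h => h6 ab (by simpa using h)⟩
    · rcases Finset.mem_union.1 hd with hd | hd
      · refine Subset.trans (fun s hs => ?_) ((hw.1 β).2.1 d hd)
        exact ⟨hs.1, fun ab h => hs.2 _ (Finset.mem_union_left _ h)⟩
      · exact fun s hs => h4 d (by simpa using hd) (hs.2 (a, b) (by simp [hwdef]))
    · have hξw : aA β ξ ∈ w := by simpa using hξ
      obtain ⟨h5, h6, h7⟩ := (hw.1 β).2.2 ξ hξw
      have h8 : res β w ⊆ res β (w ∪ Dn.image (uA β)) :=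
        Finset.filter_subset_filter _ Finset.subset_union_left
      refine ⟨h5, fun d hd => ?_, h7.mono h8⟩
      rcases Finset.mem_union.1 hd with hd | hd
      · exact (h6 d hd).mono h8 subset_rfl
      · have hξA : ξ ∈ A := (hA ξ).2 (by simpa [hwdef, hrβ] using hξw)
        refine (hr2 ⟨ξ, hξA⟩ d (by simpa using hd)).mono (Subset.trans ?_ hrw) subset_rfl
        exact (Finset.subset_biUnion_of_mem rξ (Finset.mem_univ _)).trans
          (Finset.subset_union_right.trans h1)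
  refine ⟨_, hw2, fun x hx => by simp [hwdef, hx], Frc.of_forall fun c'' _ hc'' h0 =>
    hp2 c'' (fun x hx => hc'' ?_) h0 rfl⟩
  rcases (hp1 hx).1 with h | ⟨d, -, rfl⟩
  · have : x ∈ r := h1 (by simp [mem_res, Finset.mem_coe.1 hx, hcl x h])
    simp [hwdef, this]
  · exact Finset.mem_union_right _ (Finset.mem_image_of_mem _ (Finset.mem_preimage.2 hx))

theorem frc_indep_at (hν : ∀ ξ, Measurable (ν ξ)) (β : I) : ∀ S : Set I, β ∈ S → Iio β ⊆ S →
    ∀ F : Finset I, (∀ j ∈ F, j ∈ T ∧ j < β) →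
      Frc (VV ν T S) ∅ {c | ∀ x ∈ Pos (KK β c), x ∉ span ℚ (⋃ j ∈ F, KK j c)} := by
  induction β using WellFoundedLT.induction with
  | ind β ih =>
    intro S h1 h2 F hF
    refine frc_indep_step hν h1 h2 hF ?_
    rw [VS_eq_VV]
    refine (Frc.all (J := F) fun i => ih i.1 (hF _ i.2).2 (Iio β) (hF _ i.2).2
      (Iio_subset_Iio (hF _ i.2).2.le) (F.filter (· < i.1)) fun j hj =>
        ⟨(hF j (Finset.mem_filter.1 hj).1).1, (Finset.mem_filter.1 hj).2⟩).mono subset_rfl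
      fun c hc i hi => hc ⟨i, hi⟩

theorem frc_indep (hν : ∀ ξ, Measurable (ν ξ)) {F : Finset I} (hF : ∀ j ∈ F, j ∈ T) :
    Frc (VV ν T univ) ∅ {c | Ind (fun i => KK i c) F} :=
  (Frc.all (J := F) fun i => frc_indep_at hν i.1 univ trivial (subset_univ _)
    (F.filter (· < i.1)) fun j hj =>
      ⟨hF j (Finset.mem_filter.1 hj).1, (Finset.mem_filter.1 hj).2⟩).mono subset_rfl
    fun _ hc i hi => hc ⟨i, hi⟩

theorem frc_cover [WellFoundedLT Ξ] (hν : ∀ ξ, Measurable (ν ξ))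
    (hT : ∀ s : Set I, s.Countable → ∃ β ∈ T, ∀ i ∈ s, i < β) (ξ : Ξ) :
    ∀ p ∈ VV ν T univ, ∃ q ∈ VV ν T univ, p ⊆ q ∧ ∃ F : Finset I, (∀ j ∈ F, j ∈ T) ∧
      Frc (VV ν T univ) q {c | ν ξ c ∈ span ℚ (⋃ j ∈ F, KK j c)} := by
  classical
  induction ξ using WellFoundedLT.induction with
  | ind ξ ih =>
    intro p hp
    obtain ⟨W, hW, hW'⟩ := exists_countable_support_fun (hν ξ)
    obtain ⟨β, hβ, hb⟩ := hT (Prod.fst '' (W ∪ ↑p)) ((hW.union p.countable_toSet).image _)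
    have hdep : Dep β (ν ξ) := fun c => hW' _ _ (by
      rw [inter_assoc, inter_eq_self_of_subset_right (s := Lo Ξ β)
        fun a ha => hb _ ⟨a, Or.inl ha, rfl⟩])
    have hpl : ∀ a ∈ p, a.1 < β := fun a ha => hb _ ⟨a, Or.inr ha, rfl⟩
    have hpβ : ∀ s, (β, s) ∉ p := fun s h => lt_irrefl _ (hpl _ h)
    by_cases hreq : Req ν T β (VS ν T β) p ξ
    · have hq : p ∪ {aA β ξ} ∈ VV ν T univ := by
        refine extend hp (mem_univ β) (by simp) ⟨⟨1 / 2, by norm_num, by simp [hpβ]⟩,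
          by simp [hpβ], fun η hη => ?_⟩
        obtain rfl : η = ξ := by simpa [hpβ] using hη
        exact ⟨hdep, by simp [hpβ], hreq.mono fun a ha => mem_res.2 ⟨by simp [ha], hpl a ha⟩⟩
      refine ⟨_, hq, Finset.subset_union_left, {β}, by simpa using hβ,
        (frc_side (i := β) (subset_univ _) (ξ := ξ) (by simp)).mono subset_rfl fun c hc => ?_⟩
      exact subset_span (by simpa using hc)
    · unfold Req at hreq
      push Not at hreq
      obtain ⟨F, Y, hF, hY, hn⟩ := hreq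
      obtain ⟨q1, hq1, hpq1, h1⟩ := (dec_of_meas (ccc_VS β)
        (meas_span F Y hν (hν ξ)).compl).not_frc (ccc_VS β) hn
      rw [compl_compl] at h1
      have h2 := coh (subset_univ _) (VS_lt hq1) h1
      have hq1' : q1 ∈ VV ν T univ := ⟨((VS_eq_VV (ν := ν) (T := T) β) ▸ hq1).1, by simp⟩
      have key : ∀ Y' : Finset Ξ, (∀ η ∈ Y', η < ξ) → ∃ q ∈ VV ν T univ, q1 ⊆ q ∧
          ∃ F' : Finset I, (∀ j ∈ F', j ∈ T) ∧ ∀ η ∈ Y',
            Frc (VV ν T univ) q {c | ν η c ∈ span ℚ (⋃ j ∈ F', KK j c)} := by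
        intro Y'
        induction Y' using Finset.induction_on with
        | empty => exact fun _ => ⟨q1, hq1', subset_rfl, ∅, by simp, by simp⟩
        | insert η Y' _ ih' =>
          intro h
          obtain ⟨q, hq, h3, F', h4, h5⟩ := ih' fun η' h' => h η' (Finset.mem_insert_of_mem h')
          obtain ⟨q', hq', h6, F'', h7, h8⟩ := ih η (h η (Finset.mem_insert_self _ _)) q hq
          refine ⟨q', hq', h3.trans h6, F' ∪ F'', fun j hj =>
            (Finset.mem_union.1 hj).elim (h4 j) (h7 j), fun η' hη' => ?_⟩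
          rcases Finset.mem_insert.1 hη' with rfl | hη'
          · exact h8.mono subset_rfl fun c hc => span_mono
              (biUnion_subset_biUnion_left Finset.subset_union_right) hc
          · exact (h5 η' hη').mono h6 fun c hc => span_mono
              (biUnion_subset_biUnion_left Finset.subset_union_left) hc
      obtain ⟨q, hq, h3, F', h4, h5⟩ := key Y fun η h => (hY η h).1
      refine ⟨q, hq, hpq1.trans h3, F ∪ F', fun j hj =>
        (Finset.mem_union.1 hj).elim (fun h => (hF j h).1) (h4 j),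
        ((h2.mono h3 subset_rfl).inter (Frc.all (J := Y) fun η => h5 η.1 η.2)).mono subset_rfl
          fun c hc => ?_⟩
      have h6 := hc.1
      simp only [mem_ofPred_eq] at h6 ⊢
      rw [hdep c] at h6
      refine span_le.2 (union_subset ?_ ?_) h6
      · refine iUnion₂_subset fun j hj => ?_
        rw [KK_lo (hF j hj).2]
        exact (subset_biUnion_of_mem (u := fun j => KK j c)
          (Finset.mem_union_left _ hj)).trans subset_span
      · rintro _ ⟨η, hη, rfl⟩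
        simp only [(hY η hη).2 c]
        exact span_mono (biUnion_subset_biUnion_left Finset.subset_union_right) (hc.2 ⟨η, hη⟩)

end Pool.Agent.MP_02ff8e_lc
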