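import Pool.Agent.MP_02ff8e_lc.Alg

namespace Pool.Agent.MP_02ff8e_lc

open Set Pointwise Topology Submodule

abbrev St : Type := Finset (ℚ × ℚ) ⊕ ℚ × ℚ

/-- Atoms of information. -/
abbrev At (I Ξ : Type) : Type := I × (St ⊕ Ξ)

variable {I Ξ : Type}

abbrev uA (i : I) (d : Finset (ℚ × ℚ)) : At I Ξ := (i, .inl (.inl d))
abbrev rA (i : I) (ab : ℚ × ℚ) : At I Ξ := (i, .inl (.inr ab))
abbrev aA (i : I) (ξ : Ξ) : At I Ξ := (i, .inr ξ)

def UU (d : Finset (ℚ × ℚ)) : Set ℝ := ⋃ ab ∈ d, Icc (ab.1 : ℝ) ab.2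

theorem UU_closed (d : Finset (ℚ × ℚ)) : IsClosed (UU d) :=
  isClosed_biUnion_finset fun _ _ => isClosed_Icc

def KK (i : I) (c : Set (At I Ξ)) : Set ℝ := {t | ∀ d, uA i d ∈ c → t ∈ UU d}

theorem KK_closed (i : I) (c : Set (At I Ξ)) : IsClosed (KK i c) := by
  unfold KK
  simp only [ofPred_forall]
  exact isClosed_iInter fun d => isClosed_iInter fun _ => UU_closed d

open Classical in
noncomputable def rr (i : I) (c : Set (At I Ξ)) : ℝ :=
  ⨆ ab : ℚ × ℚ, if rA i ab ∈ c then max 0 (min (ab.1 : ℝ) 1) else 0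

theorem rr_meas (i : I) : Measurable (rr i : Set (At I Ξ) → ℝ) :=
  Measurable.iSup fun _ => Measurable.ite (measurableSet_mem _) measurable_const measurable_const

def Jo (p : Finset (At I Ξ)) (i : I) : Set ℝ :=
  {t | t ∈ Ioo (0 : ℝ) 1 ∧ ∀ ab, rA i ab ∈ p → t ∈ Ioo (ab.1 : ℝ) ab.2}

def Jc (p : Finset (At I Ξ)) (i : I) : Set ℝ :=
  {t | t ∈ Icc (0 : ℝ) 1 ∧ ∀ ab, rA i ab ∈ p → t ∈ Icc (ab.1 : ℝ) ab.2}

theorem Jo_open (p : Finset (At I Ξ)) (i : I) : IsOpen (Jo p i) := by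
  have hf : {ab | rA i ab ∈ p}.Finite :=
    p.finite_toSet.preimage (f := fun ab => (rA i ab : At I Ξ)) (fun a _ b _ h => by simpa using h)
  have : Jo p i = Ioo (0 : ℝ) 1 ∩ ⋂ ab ∈ {ab | rA i ab ∈ p}, Ioo (ab.1 : ℝ) ab.2 := by
    ext t; simp [Jo]
  rw [this]
  exact isOpen_Ioo.inter (hf.isOpen_biInter fun _ _ => isOpen_Ioo)

theorem sig_KK {W : Set (At I Ξ)} {i : I} (hW : ∀ d, uA i d ∈ W) : Sig W (KK i) := by
  classical
  refine (Sig.iUnion (S := fun (n : ℕ) c => KK i c ∩ Icc (-(n : ℝ)) n) fun n => Gam.sig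
    ⟨fun c => isCompact_Icc.inter_left (KK_closed i c), fun c O hO hc => ?_⟩).congr fun c => ?_
  · obtain ⟨u, hu⟩ := (isCompact_Icc (a := -(n : ℝ)) (b := n)).diff hO
      |>.elim_finite_subfamily_closed (fun d : {d // uA i d ∈ c} => UU d.1)
        (fun d => UU_closed _) (by
          refine eq_empty_of_forall_notMem fun t ht => ht.1.2 (hc ⟨fun d hd => ?_, ht.1.1⟩)
          exact mem_iInter.1 ht.2 ⟨d, hd⟩)
    refine ⟨u.image fun d => uA i d.1, ?_, fun c' hc' t ht => ?_⟩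
    · intro a ha
      obtain ⟨d, -, rfl⟩ := Finset.mem_image.1 ha
      exact ⟨d.2, hW _⟩
    · by_contra h
      refine (eq_empty_iff_forall_notMem.1 hu) t ⟨⟨ht.2, h⟩, mem_iInter₂.2 fun d hd => ?_⟩
      exact ht.1 _ (hc' (Finset.mem_image_of_mem _ hd))
  · ext x
    simp only [mem_iUnion, mem_inter_iff]
    refine ⟨fun ⟨_, h⟩ => h.1, fun hx => ?_⟩
    obtain ⟨n, hn⟩ := exists_nat_ge |x|
    exact ⟨n, hx, abs_le.1 hn⟩

def WW (Ξ : Type) (F : Finset I) : Set (At I Ξ) := ⋃ i ∈ F, range (uA i)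

theorem WW_countable (F : Finset I) : (WW Ξ F).Countable :=
  F.countable_toSet.biUnion fun _ _ => countable_range _

theorem sig_KK' {F : Finset I} {i : I} (h : i ∈ F) : Sig (WW Ξ F) (KK i) :=
  sig_KK fun d => mem_iUnion₂.2 ⟨i, h, d, rfl⟩

theorem sig_UF {W : Set (At I Ξ)} {F : Finset I} (h : ∀ i ∈ F, Sig W (KK i)) :
    Sig W (fun c => ⋃ j ∈ F, KK j c) :=
  (Sig.iUnion (S := fun j : F => KK j.1) fun j => h j.1 j.2).congr fun c => by
    ext; simp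

theorem meas_span (F : Finset I) {γ : Type} (Y : Finset γ) {y : γ → Set (At I Ξ) → ℝ}
    (hy : ∀ η, Measurable (y η)) : ∀ {x : Set (At I Ξ) → ℝ}, Measurable x →
    MeasurableSet {c | x c ∈ span ℚ ((⋃ j ∈ F, KK j c) ∪ (fun η => y η c) '' Y)} := by
  classical
  induction Y using Finset.induction_on with
  | empty =>
    intro x hx
    simpa using (sig_UF fun i hi => sig_KK' hi).span.meas (WW_countable F) hx
  | insert a Y _ ih =>
    intro x hx
    have : {c | x c ∈ span ℚ ((⋃ j ∈ F, KK j c) ∪ (fun η => y η c) '' ↑(insert a Y))} =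
        ⋃ q : ℚ, {c | x c - (q : ℝ) * y a c ∈
          span ℚ ((⋃ j ∈ F, KK j c) ∪ (fun η => y η c) '' Y)} := by
      ext c
      simp only [Finset.coe_insert, image_insert_eq, union_insert, mem_ofPred_eq, mem_span_insert,
        mem_iUnion]
      refine exists_congr fun q => ⟨?_, fun h => ⟨_, h, by simp [Rat.smul_def]⟩⟩
      rintro ⟨z, hz, e⟩
      rw [e, Rat.smul_def]
      simpa using hz
    rw [this]
    exact MeasurableSet.iUnion fun q => ih (hx.sub ((hy a).const_mul _))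

variable [LinearOrder I] [LinearOrder Ξ]

def Lo (Ξ : Type) (i : I) : Set (At I Ξ) := {a | a.1 < i}

def Dep (i : I) (x : Set (At I Ξ) → ℝ) : Prop := ∀ c, x (c ∩ Lo Ξ i) = x c

def res (i : I) (p : Finset (At I Ξ)) : Finset (At I Ξ) := p.filter (·.1 < i)

omit [LinearOrder Ξ] in
theorem mem_res {i : I} {p : Finset (At I Ξ)} {a : At I Ξ} : a ∈ res i p ↔ a ∈ p ∧ a.1 < i :=
  Finset.mem_filter

omit [LinearOrder Ξ] in
theorem KK_lo {i j : I} (h : j < i) (c : Set (At I Ξ)) : KK j (c ∩ Lo Ξ i) = KK j c := by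
  ext t; simp [KK, Lo, h]

variable (ν : Ξ → Set (At I Ξ) → ℝ) (T : Set I)

def Req (i : I) (V : Set (Finset (At I Ξ))) (p : Finset (At I Ξ)) (ξ : Ξ) : Prop :=
  ∀ (F : Finset I) (Y : Finset Ξ), (∀ j ∈ F, j ∈ T ∧ j < i) →
    (∀ η ∈ Y, η < ξ ∧ Dep i (ν η)) →
      Frc V p {c | ν ξ c ∉ span ℚ ((⋃ j ∈ F, KK j c) ∪ (fun η => ν η c) '' Y)}

def OK (i : I) (V : Set (Finset (At I Ξ))) (p : Finset (At I Ξ)) : Prop :=
  (Jo p i).Nonempty ∧ (∀ d, uA i d ∈ p → Jc p i ⊆ UU d) ∧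
    ∀ ξ, aA i ξ ∈ p → Dep i (ν ξ) ∧
      (∀ d, uA i d ∈ p → Frc V (res i p) {c | ν ξ c ∈ UU d}) ∧ Req ν T i V (res i p) ξ

variable [WellFoundedLT I]

noncomputable def VS : I → Set (Finset (At I Ξ)) :=
  (wellFounded_lt (α := I)).fix fun i rec =>
    {p | (∀ a ∈ p, a.1 < i) ∧ ∀ j (h : j < i), OK ν T j (rec j h) p}

theorem VS_eq (i : I) :
    VS ν T i = {p | (∀ a ∈ p, a.1 < i) ∧ ∀ j < i, OK ν T j (VS ν T j) p} := by
  unfold VS
  rw [WellFounded.fix_eq]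

def VV (S : Set I) : Set (Finset (At I Ξ)) :=
  {p | (∀ j, OK ν T j (VS ν T j) p) ∧ ∀ a ∈ p, a.1 ∈ S}

variable {ν T}

omit [WellFoundedLT I] in
theorem OK.of_none {j : I} {V : Set (Finset (At I Ξ))} {p : Finset (At I Ξ)}
    (h : ∀ a ∈ p, a.1 ≠ j) : OK ν T j V p :=
  ⟨⟨1 / 2, by norm_num, fun _ h' => (h _ h' rfl).elim⟩, fun _ h' => (h _ h' rfl).elim,
    fun _ h' => (h _ h' rfl).elim⟩

theorem VS_eq_VV (i : I) : VS ν T i = VV ν T (Iio i) := by
  rw [VS_eq]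
  ext p
  refine ⟨fun h => ⟨fun j => ?_, h.1⟩, fun h => ⟨h.2, fun j _ => h.1 j⟩⟩
  rcases lt_or_ge j i with hj | hj
  · exact h.2 j hj
  · exact OK.of_none fun a ha => ((h.1 a ha).trans_le hj).ne

omit [WellFoundedLT I] in
theorem Req.mono {i : I} {V : Set (Finset (At I Ξ))} {p q : Finset (At I Ξ)} {ξ : Ξ}
    (h : Req ν T i V p ξ) (hpq : p ⊆ q) : Req ν T i V q ξ :=
  fun F Y h1 h2 => (h F Y h1 h2).mono hpq subset_rfl

omit [WellFoundedLT I] in
theorem OK.of {j : I} {V : Set (Finset (At I Ξ))} {w p : Finset (At I Ξ)} (hp : OK ν T j V p)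
    (hs : ∀ s, (j, Sum.inl s) ∈ w ↔ (j, Sum.inl s) ∈ p)
    (ha : ∀ ξ, aA j ξ ∈ w → ∃ p', OK ν T j V p' ∧ aA j ξ ∈ p' ∧ res j p' ⊆ w ∧
      ∀ d, uA j d ∈ w → uA j d ∈ p') : OK ν T j V w := by
  have e1 : Jo w j = Jo p j := by ext t; simp only [Jo, hs]
  have e2 : Jc w j = Jc p j := by ext t; simp only [Jc, hs]
  refine ⟨e1 ▸ hp.1, fun d hd => e2 ▸ hp.2.1 d ((hs _).1 hd), fun ξ hξ => ?_⟩
  obtain ⟨p', h1, h2, h3, h4⟩ := ha ξ hξ
  obtain ⟨h5, h6, h7⟩ := h1.2.2 ξ h2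
  have h8 : res j p' ⊆ res j w := fun a ha => mem_res.2 ⟨h3 ha, (mem_res.1 ha).2⟩
  exact ⟨h5, fun d hd => (h6 d (h4 d hd)).mono h8 subset_rfl, h7.mono h8⟩

omit [WellFoundedLT I] in
theorem OK.of' {j : I} {V : Set (Finset (At I Ξ))} {w p : Finset (At I Ξ)} (hp : OK ν T j V p)
    (hs : ∀ s, (j, s) ∈ w ↔ (j, s) ∈ p) (h : res j p ⊆ w) : OK ν T j V w :=
  hp.of (fun _ => hs _) fun _ hξ => ⟨p, hp, (hs _).1 hξ, h, fun _ hd => (hs _).1 hd⟩

variable {S : Set I}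

theorem empty_mem_VV : (∅ : Finset (At I Ξ)) ∈ VV ν T S :=
  ⟨fun _ => OK.of_none (by simp), by simp⟩

theorem res_mem {q : Finset (At I Ξ)} (hq : q ∈ VV ν T S) (i : I) : res i q ∈ VS ν T i := by
  rw [VS_eq]
  refine ⟨fun a ha => (mem_res.1 ha).2, fun j hj => (hq.1 j).of' (fun s => ?_) fun a ha => ?_⟩
  · simp [mem_res, hj]
  · exact mem_res.2 ⟨(mem_res.1 ha).1, (mem_res.1 ha).2.trans hj⟩

open Classical in
theorem amalg {q r : Finset (At I Ξ)} {i : I} (hS : Iio i ⊆ S) (hq : q ∈ VV ν T S)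
    (hr : r ∈ VS ν T i) (h : res i q ⊆ r) : r ∪ q ∈ VV ν T S := by
  rw [VS_eq_VV] at hr
  refine ⟨fun j => ?_, fun a ha => ?_⟩
  · rcases lt_or_ge j i with hj | hj
    · refine (hr.1 j).of' (fun s => ?_)
        ((Finset.filter_subset _ _).trans Finset.subset_union_left)
      rw [Finset.mem_union]
      exact ⟨fun h' => h'.elim id fun h' => h (mem_res.2 ⟨h', hj⟩), Or.inl⟩
    · refine (hq.1 j).of' (fun s => ?_)
        ((Finset.filter_subset _ _).trans Finset.subset_union_right)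
      rw [Finset.mem_union]
      exact ⟨fun h' => h'.elim (fun h' => absurd (hr.2 _ h') (not_lt.2 hj)) id, Or.inr⟩
  · rcases Finset.mem_union.1 ha with ha | ha
    exacts [hS (hr.2 a ha), hq.2 a ha]

open Classical in
theorem extend {w Z : Finset (At I Ξ)} {β : I} (hw : w ∈ VV ν T S) (hβ : β ∈ S)
    (hZ : ∀ a ∈ Z, a.1 = β) (h : OK ν T β (VS ν T β) (w ∪ Z)) : w ∪ Z ∈ VV ν T S := by
  refine ⟨fun j => ?_, fun a ha => ?_⟩
  · by_cases hj : j = β
    · exact hj ▸ h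
    · refine (hw.1 j).of' (fun s => ?_)
        ((Finset.filter_subset _ _).trans Finset.subset_union_left)
      rw [Finset.mem_union]
      exact ⟨fun h' => h'.elim id fun h' => absurd (hZ _ h') hj, Or.inl⟩
  · rcases Finset.mem_union.1 ha with ha | ha
    exacts [hw.2 a ha, hZ a ha ▸ hβ]

theorem ccc_VV : CCC (VV ν T S) := by
  classical
  intro A hA hpw
  by_contra hc
  obtain ⟨p, hp, q, hq, hpq, H⟩ := delta (S := Finset St)
    (fun (p : Finset (At I Ξ)) i => p.preimage (fun s => (i, Sum.inl s))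
      (fun a _ b _ h => by simpa using h)) A (fun p => p.image Prod.fst) hc
  refine hpw hp hq hpq ⟨p ∪ q, ⟨fun j => ?_, fun a ha => ?_⟩, Finset.subset_union_left,
    Finset.subset_union_right⟩
  · have h1 := (hA hp).1 j
    have h2 := (hA hq).1 j
    by_cases hjp : j ∈ p.image Prod.fst
    · by_cases hjq : j ∈ q.image Prod.fst
      · have h3 : ∀ s, (j, Sum.inl s) ∈ p ↔ (j, Sum.inl s) ∈ q := fun s => by
          simpa using Finset.ext_iff.1 (H j hjp hjq) s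
        refine h1.of (fun s => by simp [h3]) fun ξ hξ => ?_
        rcases Finset.mem_union.1 hξ with h | h
        · exact ⟨p, h1, h, (Finset.filter_subset _ _).trans Finset.subset_union_left,
            fun d hd => by simpa [h3] using hd⟩
        · exact ⟨q, h2, h, (Finset.filter_subset _ _).trans Finset.subset_union_right,
            fun d hd => by simpa [h3] using hd⟩
      · refine h1.of' (fun s => ?_) ((Finset.filter_subset _ _).trans Finset.subset_union_left)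
        rw [Finset.mem_union]
        exact ⟨fun h' => h'.elim id fun h' => absurd (Finset.mem_image_of_mem _ h') hjq, Or.inl⟩
    · refine h2.of' (fun s => ?_) ((Finset.filter_subset _ _).trans Finset.subset_union_right)
      rw [Finset.mem_union]
      exact ⟨fun h' => h'.elim (fun h' => absurd (Finset.mem_image_of_mem _ h') hjp) id, Or.inr⟩
  · rcases Finset.mem_union.1 ha with ha | ha
    exacts [(hA hp).2 a ha, (hA hq).2 a ha]

theorem ccc_VS (i : I) : CCC (VS ν T i) := VS_eq_VV (ν := ν) (T := T) i ▸ ccc_VV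

theorem VS_lt {i : I} {p : Finset (At I Ξ)} (hp : p ∈ VS ν T i) : ∀ a ∈ p, a.1 < i :=
  (VS_eq ν T i ▸ hp).1

theorem coh {i : I} (hS : Iio i ⊆ S) {r : Finset (At I Ξ)} (hr : ∀ a ∈ r, a.1 < i)
    {B : Set (Set (At I Ξ))} (h : Frc (VS ν T i) r B) :
    Frc (VV ν T S) r {c | c ∩ Lo Ξ i ∈ B} := by
  classical
  obtain ⟨DD, h1, h2, h3⟩ := h
  refine ⟨(fun D => {q | ∃ r' ∈ VS ν T i, r' ∈ D ∧ r' ⊆ q}) '' DD, h1.image _, ?_,
    fun c hc hrc hD => h3 _ ?_ ?_ fun D hD' => ?_⟩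
  · rintro _ ⟨D, hD, rfl⟩ q hq
    obtain ⟨r', hr', h4, h5⟩ := h2 D hD _ (res_mem hq i)
    exact ⟨r' ∪ q, amalg hS hq hr' h4, Finset.subset_union_right, r', hr', h5,
      Finset.subset_union_left⟩
  · intro t ht
    obtain ⟨q, hq, h4, h5⟩ := hc t (ht.trans inter_subset_left)
    exact ⟨res i q, res_mem hq i, fun a ha => mem_res.2 ⟨h4 ha, (ht ha).2⟩,
      fun a ha => ⟨h5 (mem_res.1 ha).1, (mem_res.1 ha).2⟩⟩
  · exact fun a ha => ⟨hrc ha, hr a ha⟩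
  · obtain ⟨q, -, ⟨r', hr', h4, h5⟩, h6⟩ := hD _ ⟨D, hD', rfl⟩
    exact ⟨r', hr', h4, fun a ha => ⟨h6 (h5 ha), VS_lt hr' a ha⟩⟩

theorem frc_side {i : I} (hS : Iio i ⊆ S) {p : Finset (At I Ξ)} {ξ : Ξ} (hξ : aA i ξ ∈ p) :
    Frc (VV ν T S) p {c | ν ξ c ∈ KK i c} := by
  classical
  refine Frc.all (B := fun d c => uA i d ∈ c → ν ξ c ∈ UU d) fun d => Frc.reg ccc_VV
    fun q hq hpq => ?_
  by_cases h : ∃ q' ∈ VV ν T S, q ⊆ q' ∧ uA i d ∈ q'
  · obtain ⟨q', hq', h1, h2⟩ := h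
    obtain ⟨h3, h4, -⟩ := (hq'.1 i).2.2 ξ (h1 (hpq hξ))
    refine ⟨q', hq', h1, (coh hS (fun a ha => (mem_res.1 ha).2) (h4 d h2)).mono
      (Finset.filter_subset _ _) fun c hc _ => ?_⟩
    rwa [← h3 c]
  · refine ⟨q, hq, subset_rfl, Frc.of_forall fun c hc hqc hd => (h ?_).elim⟩
    obtain ⟨q', hq', h1, -⟩ := hc (insert (uA i d) q)
      (by rw [Finset.coe_insert]; exact insert_subset hd hqc)
    exact ⟨q', hq', (Finset.subset_insert _ _).trans h1, h1 (Finset.mem_insert_self _ _)⟩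

omit [LinearOrder I] [LinearOrder Ξ] [WellFoundedLT I] in
open Classical in
theorem rr_bdd (i : I) (c : Set (At I Ξ)) (ab : ℚ × ℚ) :
    (if rA i ab ∈ c then max 0 (min (ab.1 : ℝ) 1) else 0) ≤ 1 := by
  split_ifs
  · exact max_le zero_le_one (min_le_right _ _)
  · exact zero_le_one

theorem rr_mem_Jc {c : Set (At I Ξ)} (hc : Gd (VV ν T S) c) (i : I) {q : Finset (At I Ξ)}
    (hqc : ↑q ⊆ c) : rr i c ∈ Jc q i := by
  classical
  have hb : BddAbove (range fun ab : ℚ × ℚ =>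
      if rA i ab ∈ c then max 0 (min (ab.1 : ℝ) 1) else 0) :=
    ⟨1, by rintro _ ⟨ab, rfl⟩; exact rr_bdd i c ab⟩
  have h2 : ∀ ab ab', rA i ab ∈ c → rA i ab' ∈ c →
      (ab.1 : ℝ) < 1 ∧ (0 : ℝ) < ab'.2 ∧ (ab.1 : ℝ) < ab'.2 := by
    intro ab ab' h h'
    obtain ⟨w, hw, h3, -⟩ := hc {rA i ab, rA i ab'} (by
      rw [Finset.coe_pair]; exact pair_subset h h')
    obtain ⟨t, h4, h5⟩ := (hw.1 i).1
    have h6 := h5 ab (h3 (by simp))
    have h7 := h5 ab' (h3 (by simp))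
    exact ⟨h6.1.trans h4.2, h4.1.trans h7.2, h6.1.trans h7.2⟩
  refine ⟨⟨?_, ciSup_le (rr_bdd i c)⟩, fun ab hab => ⟨?_, ciSup_le fun ab' => ?_⟩⟩
  · refine le_trans ?_ (le_ciSup hb (0, 0))
    split_ifs
    · exact le_max_left _ _
    · exact le_rfl
  · refine le_trans ?_ (le_ciSup hb ab)
    rw [if_pos (hqc hab), min_eq_left (h2 ab ab (hqc hab) (hqc hab)).1.le]
    exact le_max_right _ _
  · split_ifs with h
    · exact max_le (h2 ab' ab h (hqc hab)).2.1.le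
        ((min_le_left _ _).trans (h2 ab' ab h (hqc hab)).2.2.le)
    · exact (h2 ab ab (hqc hab) (hqc hab)).2.1.le

theorem rr_mem_KK {c : Set (At I Ξ)} (hc : Gd (VV ν T S) c) (i : I) : rr i c ∈ KK i c := by
  intro d hd
  obtain ⟨q, hq, h1, h2⟩ := hc {uA i d} (by simpa using hd)
  exact (hq.1 i).2.1 d (h1 (by simp)) (rr_mem_Jc hc i h2)

open Classical in
theorem add_rA {w : Finset (At I Ξ)} (hw : w ∈ VV ν T S) {i : I} (hi : i ∈ S) {t : ℝ}
    (ht : t ∈ Jo w i) {ab : ℚ × ℚ} (hab : t ∈ Ioo (ab.1 : ℝ) ab.2) :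
    w ∪ {rA i ab} ∈ VV ν T S := by
  refine extend hw hi (by simp) ⟨⟨t, ht.1, fun ab' h => ?_⟩, fun d hd => ?_, fun ξ hξ => ?_⟩
  · rcases Finset.mem_union.1 h with h | h
    · exact ht.2 _ h
    · obtain rfl : ab' = ab := by simpa using h
      exact hab
  · refine Subset.trans (fun s hs => ?_) ((hw.1 i).2.1 d (by simpa using hd))
    exact ⟨hs.1, fun ab' h => hs.2 _ (Finset.mem_union_left _ h)⟩
  · obtain ⟨h1, h2, h3⟩ := (hw.1 i).2.2 ξ (by simpa using hξ)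
    have h4 : res i w ⊆ res i (w ∪ {rA i ab}) :=
      Finset.filter_subset_filter _ Finset.subset_union_left
    exact ⟨h1, fun d hd => (h2 d (by simpa using hd)).mono h4 subset_rfl, h3.mono h4⟩

theorem frc_rr_ne {i j : I} (hij : i ≠ j) :
    Frc (VV ν T univ) ∅ {c | rr i c ≠ rr j c} := by
  classical
  have key : ∀ i j : I, i ≠ j → ∀ q ∈ VV ν T univ, ∀ s ∈ Jo q i, ∀ t ∈ Jo q j, s < t →
      ∃ r ∈ VV ν T univ, q ⊆ r ∧ Frc (VV ν T univ) r {c | rr i c ≠ rr j c} := by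
    intro i j hij q hq s hs t ht hst
    obtain ⟨a, h1, h2⟩ := exists_rat_btwn hst
    obtain ⟨b, h3, h4⟩ := exists_rat_btwn h2
    have h5 := add_rA hq (mem_univ i) hs (ab := (0, a)) ⟨by simpa using hs.1.1, h1⟩
    have h6 := add_rA h5 (mem_univ j) (t := t) ⟨ht.1, fun ab h => ht.2 ab
      (by simpa [hij.symm] using h)⟩ (ab := (b, 1)) ⟨h4, by simpa using ht.1.2⟩
    refine ⟨_, h6, Finset.subset_union_left.trans Finset.subset_union_left,
      Frc.of_forall fun c hc hqc => ?_⟩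
    have h7 := ((rr_mem_Jc hc i hqc).2 (0, a) (by simp)).2
    have h8 := ((rr_mem_Jc hc j hqc).2 (b, 1) (by simp)).1
    exact (h7.trans_lt (h3.trans_le h8)).ne
  refine Frc.reg ccc_VV fun q hq _ => ?_
  obtain ⟨s, hs⟩ := (hq.1 i).1
  obtain ⟨t, ht, hts⟩ : ∃ t ∈ Jo q j, t ≠ s := by
    obtain ⟨t, ht⟩ := (hq.1 j).1
    have := infinite_of_mem_nhds t ((Jo_open q j).mem_nhds ht)
    obtain ⟨u, hu, hus⟩ := this.exists_notMem_finite (finite_singleton s)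
    exact ⟨u, hu, hus⟩
  rcases lt_or_gt_of_ne hts with h | h
  · obtain ⟨r, h1, h2, h3⟩ := key j i hij.symm q hq t ht s hs h
    exact ⟨r, h1, h2, h3.mono subset_rfl fun c hc => Ne.symm hc⟩
  · exact key i j hij q hq s hs t ht h

end Pool.Agent.MP_02ff8e_lc
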