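import Pool.Agent.MP_02ff8e_lc.Struct

namespace Pool.Agent.MP_02ff8e_lc

open Set Filter Cardinal Pool.Agent.MP_c6cf52_lc Name Gen

variable {D : Data} {g : Gen (Q D)}

theorem wfX : WellFounded (fun a b : X3 => a < b) := wellFounded_lt

theorem triX (a b : X3) : a < b ∨ a = b ∨ b < a := lt_trichotomy a b

noncomputable def o (x : X3) : Name (Q D) := ordN wfX x

noncomputable def oS (s : Set X3) : Name (Q D) := setN wfX s

theorem o_eq (x : X3) : (o x : Name (Q D)) = oS (Iio x) := ordN_eq wfX x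

theorem E_oS {s : Set X3} (h : oS s ∈ g.N) {x : g.M} :
    g.E x (g.v (oS s)) ↔ ∃ y ∈ s, o y ∈ g.N ∧ g.v (o y) = x := E_setN wfX h

theorem E_oS' {s : Set X3} (h : oS s ∈ g.N) (x : g.M) :
    g.E x (g.v (oS s)) ↔ ∃ y : s, o y.1 ∈ g.N ∧ g.v (o y.1) = x :=
  (E_oS h).trans ⟨fun ⟨y, h1, h2⟩ => ⟨⟨y, h1⟩, h2⟩, fun ⟨y, h2⟩ => ⟨y.1, y.2, h2⟩⟩

theorem E_o {a : X3} (h : o a ∈ g.N) {x : g.M} :
    g.E x (g.v (o a)) ↔ ∃ y, y < a ∧ o y ∈ g.N ∧ g.v (o y) = x := E_ordN wfX h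

theorem o_lt {a b : X3} (ha : o a ∈ g.N) (hb : o b ∈ g.N) :
    g.E (g.v (o a)) (g.v (o b)) ↔ a < b := ord_lt_iff wfX triX ha hb

theorem o_mem_oS {a : X3} {s : Set X3} (ha : o a ∈ g.N) (hs : oS s ∈ g.N) :
    g.E (g.v (o a)) (g.v (oS s)) ↔ a ∈ s := ord_mem_setN_iff wfX triX ha hs

theorem o_inj {a b : X3} (ha : o a ∈ g.N) (hb : o b ∈ g.N) (h : g.v (o a) = g.v (o b)) : a = b :=
  ord_inj wfX triX ha hb h

theorem o_inj' {s : Set X3} (a b : s) (ha : o a.1 ∈ g.N) (hb : o b.1 ∈ g.N)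
    (h : g.v (o a.1) = g.v (o b.1)) : a = b := Subtype.ext (o_inj ha hb h)

theorem isOrd_oS {s : Set X3} (h : oS s ∈ g.N) (hs : IsLowerSet s) : IsOrd g.E (g.v (oS s)) :=
  isOrd_setN wfX triX h fun _ _ h₁ h₂ => hs h₁.le h₂

theorem o_w0 (h : o w0 ∈ g.N) : g.v (o w0) = g.om := by
  obtain ⟨e, h1, h2⟩ := exists_emb
  have hN : ∀ n, o (e n) ∈ g.N := fun n =>
    ordN_mem wfX h (ct_of_lt w0_lt) ((h1 _).2 ⟨n, rfl⟩)
  have key : ∀ n, g.v (o (e n)) = g.nat n := by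
    intro n
    induction n using Nat.strong_induction_on with
    | _ n ih =>
      refine Gen.ext fun x => ?_
      rw [E_o (hN n), E_nat]
      constructor
      · rintro ⟨y, hy, -, rfl⟩
        obtain ⟨m, hm, rfl⟩ := (h2 n y).1 hy
        exact ⟨m, hm, (ih m hm).symm⟩
      · rintro ⟨m, hm, rfl⟩
        exact ⟨e m, (h2 _ _).2 ⟨m, hm, rfl⟩, hN m, ih m hm⟩
  refine Gen.ext fun x => ?_
  rw [E_o h, E_om]
  constructor
  · rintro ⟨y, hy, -, rfl⟩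
    obtain ⟨m, rfl⟩ := (h1 y).1 hy
    exact ⟨m, (key m).symm⟩
  · rintro ⟨m, rfl⟩
    exact ⟨e m, (h1 _).2 ⟨m, rfl⟩, hN m, key m⟩

theorem isOmega_om : IsOmega g.E g.om := by
  refine ⟨isOrd_setN natWf natTri g.omega_mem fun _ _ _ _ => trivial, ⟨_, nat_om 0⟩,
    fun x hx => ?_, fun x hx ⟨y, hy⟩ => ?_⟩
  · obtain ⟨n, rfl⟩ := E_om.1 hx
    exact ⟨_, nat_om (n + 1), nat_lt.2 n.lt_succ_self⟩
  · obtain ⟨n, rfl⟩ := E_om.1 hx
    obtain ⟨m, hm, rfl⟩ := E_nat.1 hy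
    refine ⟨g.nat (n - 1), nat_lt.2 (by omega), fun z hz h => ?_⟩
    obtain ⟨k, hk, rfl⟩ := E_nat.1 hz
    have := nat_lt.1 h
    omega

/-- No cardinal lies strictly between, when the ground model has injections. -/
theorem no_card_ground {k : X3} {s : Set X3} (hk : o k ∈ g.N) (hs : oS s ∈ g.N)
    (h : ∀ y ∈ s, #(Iio y) ≤ #(Iio k)) (m : g.M) (hm : IsCard g.E m)
    (hkm : g.E (g.v (o k)) m) : ¬ g.E m (g.v (oS s)) := by
  intro h'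
  obtain ⟨x, hxs, hx, rfl⟩ := (E_oS hs).1 h'
  refine hm.2 _ hkm ?_
  obtain ⟨e⟩ := h x hxs
  refine dens_one (Ψ := fun _ E w => ∃ f, IsInj E f (w 0) (w 1)) (UDef.ex (UDef.isInj _ _ _))
    (l2 hx hk) {relN (fun y : Iio x => o y.1) (fun y => o (e y).1) fun _ => ⊤}
    (countable_singleton _) fun g' hC hl => ?_
  have h1 := hC rfl
  have h2 : o x ∈ g'.N := hl _ (by simp)
  have h3 : o k ∈ g'.N := hl _ (by simp)
  refine ⟨_, isFun_relN h1 o_inj' (X := g'.v (o x)) (fun a => ?_)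
    fun i hi => (o_lt hi h3).2 (e i).2, fun a a' b h4 h5 => ?_⟩
  · rw [o_eq] at h2 ⊢
    exact E_oS' h2 a
  · obtain ⟨i, -, -, h6, rfl, rfl⟩ := (app_relN h1).1 h4
    obtain ⟨j, -, -, h7, rfl, e'⟩ := (app_relN h1).1 h5
    rw [e.injective (o_inj' _ _ h6 h7 e')]

noncomputable def injN {x : X3} (e : Iio x ↪ ℝ) : Name (Q D) :=
  relN (fun z : {z : Iio x × X3 × Q D // (e z.1, z.2.1) ∈ z.2.2.c.g} => o z.1.1.1)
    (fun z => o z.1.2.1) (fun z => z.1.2.2)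

theorem app_injN {x : X3} {e : Iio x ↪ ℝ} (h : injN e ∈ g.N) {s t : g.M} :
    App g.E (g.v (injN e)) s t ↔ ∃ j y p, p ∈ g.G ∧ (e j, y) ∈ p.c.g ∧ o j.1 ∈ g.N ∧ o y ∈ g.N ∧
      s = g.v (o j.1) ∧ t = g.v (o y) := by
  unfold injN at h ⊢
  rw [app_relN h]
  exact ⟨fun ⟨⟨⟨j, x, p⟩, h₀⟩, h₁, h₂⟩ => ⟨j, x, p, h₁, h₀, h₂⟩,
    fun ⟨j, x, p, h₁, h₀, h₂⟩ => ⟨⟨⟨j, x, p⟩, h₀⟩, h₁, h₂⟩⟩

theorem g_compat {p q : Q D} (hp : p ∈ g.G) (hq : q ∈ g.G) : p.c.CC q.c := by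
  obtain ⟨r, -, h₁, h₂⟩ := g.dir hp hq
  exact Col.CC.of_le h₁.1 h₂.1

theorem isInj_injN {x : X3} {e : Iio x ↪ ℝ} (h : injN e ∈ g.N) (hA : o x ∈ g.N)
    (hk : o w1 ∈ g.N) : IsInj g.E (g.v (injN e)) (g.v (o x)) (g.v (o w1)) := by
  refine ⟨⟨fun p hp => ?_, fun a ha => ?_⟩, fun a a' b h₁ h₂ => ?_⟩
  · obtain ⟨⟨⟨j, y, q⟩, h₀⟩, -, h₂, h₃, rfl⟩ := (E_relN h).1 hp
    exact ⟨_, _, (o_lt h₂ hA).2 j.2, (o_lt h₃ hk).2 (q.c.lt _ h₀), isPair_pr _ _⟩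
  · obtain ⟨j, hjx, hj, rfl⟩ := (E_o hA).1 ha
    have : ∃ b, App g.E (g.v (injN e)) (g.v (o j)) b := by
      refine dens (Ψ := fun _ E w => ∃ b, App E (w 0) (w 1) b) (UDef.ex (UDef.app _ _ _))
        (l2 h hj) fun p _ => ?_
      obtain ⟨c, hc, y, hy⟩ := p.c.add_dom (e ⟨j, hjx⟩)
      refine ⟨⟨c, p.p, p.hp⟩, ⟨hc, subset_rfl⟩, {o y}, countable_singleton _,
        fun g' hq' hC hl => ?_⟩
      exact ⟨_, (app_injN (hl _ (by simp))).2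
        ⟨⟨j, hjx⟩, y, _, hq', hy, hl _ (by simp), hC rfl, rfl, rfl⟩⟩
    obtain ⟨b, hb⟩ := this
    refine ⟨b, hb, fun b' hb' => ?_⟩
    obtain ⟨i, y, p, hp, hy, hi, -, e₁, rfl⟩ := (app_injN h).1 hb
    obtain ⟨i', y', p', hp', hy', hi', -, e₂, rfl⟩ := (app_injN h).1 hb'
    obtain rfl := o_inj' _ _ hi hi' (e₁.symm.trans e₂)
    rw [show y = y' from (g_compat hp hp' _ hy _ hy').1 rfl]
  · obtain ⟨i, y, p, hp, hy, -, ho, rfl, rfl⟩ := (app_injN h).1 h₁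
    obtain ⟨i', y', p', hp', hy', -, ho', rfl, e₂⟩ := (app_injN h).1 h₂
    rw [e.injective ((g_compat hp hp' _ hy _ hy').2 (o_inj ho ho' e₂))]

theorem no_card_col (hk : o w1 ∈ g.N) (hl : o w2 ∈ g.N) (m : g.M) (hm : IsCard g.E m)
    (hkm : g.E (g.v (o w1)) m) : ¬ g.E m (g.v (o w2)) := by
  intro h
  obtain ⟨x, hx2, hx, rfl⟩ := (E_o hl).1 h
  refine hm.2 _ hkm ?_
  obtain ⟨e⟩ : #(Iio x) ≤ #ℝ := mk_real ▸ lt_w2.1 hx2
  exact dens_one (Ψ := fun _ E w => ∃ f, IsInj E f (w 0) (w 1)) (UDef.ex (UDef.isInj _ _ _))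
    (l2 hx hk) {injN e} (countable_singleton _) fun g' hC hl =>
      ⟨_, isInj_injN (hC rfl) (hl _ (by simp)) (hl _ (by simp))⟩

theorem isCard_w1 (hk : o w1 ∈ g.N) : IsCard g.E (g.v (o w1)) := by
  refine ⟨o_eq (D := D) w1 ▸ isOrd_oS (o_eq (D := D) w1 ▸ hk) (isLowerSet_Iio _),
    fun a ha ⟨f, hf⟩ => ?_⟩
  obtain ⟨y, hy, hyN, rfl⟩ := (E_o hk).1 ha
  obtain ⟨σ, hσ, rfl⟩ := exists_v f
  obtain ⟨p, -, H⟩ := transfer (UDef.isInj 0 1 2) (l3 hσ hk hyN) hf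
  have := (ct_of_lt hy).to_subtype
  obtain ⟨c, hc, A, hA⟩ := easton (D := D) (fun (j : Iio y) r => ∃ k : X3, ∀ g : Gen (Q D),
    r ∈ g.G → σ ∈ g.N → o k ∈ g.N → o j.1 ∈ g.N →
      App g.E (g.v σ) (g.v (o k)) (g.v (o j.1))) p.c
  choose k hk' using fun j (a : A j) => ((hA j).2.1 a.1 a.2).1
  have := fun j => (hA j).1.to_subtype
  obtain ⟨x, hx, hx'⟩ := exists_new (countable_range fun z : Σ j, A j => k z.1 z.2)
  obtain ⟨g', hq, hC⟩ := exists_gen (⟨c, p.p, p.hp⟩ : Q D) {σ, o w1, o y, o x}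
    (toFinite _).countable
  have h₁ : σ ∈ g'.N := hC (by simp)
  have h₂ : o w1 ∈ g'.N := hC (by simp)
  have h₃ : o y ∈ g'.N := hC (by simp)
  have h₄ : o x ∈ g'.N := hC (by simp)
  have hf : IsInj g'.E (g'.v σ) (g'.v (o w1)) (g'.v (o y)) :=
    H g' (g'.up hq ⟨hc, subset_rfl⟩) (l3 h₁ h₂ h₃)
  obtain ⟨b, hb, hab⟩ := fun_ex hf.1 ((o_lt h₄ h₂).2 hx)
  obtain ⟨z, hz, hzN, rfl⟩ := (E_o h₃).1 hb
  obtain ⟨r', hr', H'⟩ := transfer_app h₁ h₄ hzN hab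
  obtain ⟨r, -, h₅, h₆⟩ := g'.dir hr' hq
  obtain ⟨a, ha, s, hs, h₇, h₈⟩ := (hA ⟨z, hz⟩).2.2 r ⟨x, fun g'' h => H' g'' (g''.up h h₅)⟩ h₆.1
  obtain ⟨g'', ht, hC⟩ := exists_gen (⟨r.c, s, hs⟩ : Q D)
    {σ, o w1, o y, o x, o z, o (k _ ⟨a, ha⟩)} (toFinite _).countable
  have hr : r ∈ g''.G := g''.up ht ⟨le_rfl, h₇⟩
  have hf : IsInj g''.E (g''.v σ) (g''.v (o w1)) (g''.v (o y)) :=
    H g'' (g''.up hr (h₆.trans ⟨hc, subset_rfl⟩))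
      (l3 (hC (by simp)) (hC (by simp)) (hC (by simp)))
  have a₁ := H' g'' (g''.up hr h₅) (hC (by simp)) (hC (by simp)) (hC (by simp))
  have a₂ := hk' _ ⟨a, ha⟩ g'' (g''.up ht ⟨h₆.1.trans ((hA _).2.1 a ha).2, h₈⟩)
    (hC (by simp)) (hC (by simp)) (hC (by simp))
  exact hx' ⟨⟨_, a, ha⟩, o_inj (hC (by simp)) (hC (by simp)) (hf.2 _ _ _ a₂ a₁)⟩

theorem isCard_oS {s : Set X3} (hl : oS s ∈ g.N) (hs : IsLowerSet s) {κ : Cardinal}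
    (hκ : 𝔠 ≤ κ) (h1 : κ < #s) (h2 : ∀ y ∈ s, #(Iio y) ≤ κ) : IsCard g.E (g.v (oS s)) := by
  refine ⟨isOrd_oS hl hs, fun a ha ⟨f, hf⟩ => ?_⟩
  obtain ⟨y, hy, hyN, rfl⟩ := (E_oS hl).1 ha
  obtain ⟨σ, hσ, rfl⟩ := exists_v f
  obtain ⟨p, -, H⟩ := transfer (UDef.isInj 0 1 2) (l3 hσ hl hyN) hf
  have key : ∀ β : s, ∃ q ≤ p, ∃ γ : Iio y, ∀ g' : Gen (Q D), q ∈ g'.G → σ ∈ g'.N →
      o β.1 ∈ g'.N → o γ.1 ∈ g'.N → App g'.E (g'.v σ) (g'.v (o β.1)) (g'.v (o γ.1)) := by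
    intro β
    obtain ⟨g', hp', hC⟩ := exists_gen p {σ, oS s, o y, o β.1} (Set.toFinite _).countable
    have h₁ : σ ∈ g'.N := hC (by simp)
    have h₂ : oS s ∈ g'.N := hC (by simp)
    have h₃ : o y ∈ g'.N := hC (by simp)
    have h₄ : o β.1 ∈ g'.N := hC (by simp)
    have hf : IsInj g'.E (g'.v σ) (g'.v (oS s)) (g'.v (o y)) := H g' hp' (l3 h₁ h₂ h₃)
    obtain ⟨b, hb, hab⟩ := fun_ex hf.1 ((o_mem_oS h₄ h₂).2 β.2)
    obtain ⟨z, hz, hzN, rfl⟩ := (E_o h₃).1 hb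
    obtain ⟨r, hr, H'⟩ := transfer_app h₁ h₄ hzN hab
    obtain ⟨s, -, h₅, h₆⟩ := g'.dir hr hp'
    exact ⟨s, h₆, ⟨z, hz⟩, fun g'' hs => H' g'' (g''.up hs h₅)⟩
  choose q hq γ hγ using key
  obtain ⟨β, β', hne, e, r, h₁, h₂⟩ := cc hκ (h2 y hy) h1 q γ
  obtain ⟨g', hr, hC⟩ := exists_gen r {σ, oS s, o y, o β.1, o β'.1, o (γ β).1}
    (Set.toFinite _).countable
  have hf : IsInj g'.E (g'.v σ) (g'.v (oS s)) (g'.v (o y)) :=
    H g' (g'.up hr (h₁.trans (hq β))) (l3 (hC (by simp)) (hC (by simp)) (hC (by simp)))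
  have a₁ := hγ β g' (g'.up hr h₁) (hC (by simp)) (hC (by simp)) (hC (by simp))
  have a₂ := hγ β' g' (g'.up hr h₂) (hC (by simp)) (hC (by simp)) (hC (by simp [e]))
  rw [← e] at a₂
  exact hne (o_inj' _ _ (hC (by simp)) (hC (by simp)) (hf.2 _ _ _ a₁ a₂))

/-- The Cantor-Bernstein theorem inside the model. -/
theorem csb {A B F G : g.M} (hF : IsInj g.E F A B) (hG : IsInj g.E G B A) :
    ∃ b, IsBij g.E b A B := by
  classical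
  let f := ev g.M g.M F
  let k := ev g.M g.M G
  have hf : g.Tm f := by fun_prop
  have hk : g.Tm k := by fun_prop
  have f1 : ∀ x, g.E x A → g.E (f x) B := fun x hx => (fun_mem hF.1 (app_ev hF.1 hx)).2
  have k1 : ∀ x, g.E x B → g.E (k x) A := fun x hx => (fun_mem hG.1 (app_ev hG.1 hx)).2
  have f2 : ∀ x y, g.E x A → g.E y A → f x = f y → x = y := fun x y hx hy e =>
    hF.2 _ _ _ (app_ev hF.1 hx) (by have := app_ev hF.1 hy; rwa [show ev _ _ F y = _ from e.symm] at this)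
  have k2 : ∀ x y, g.E x B → g.E y B → k x = k y → x = y := fun x y hx hy e =>
    hG.2 _ _ _ (app_ev hG.1 hx) (by have := app_ev hG.1 hy; rwa [show ev _ _ G y = _ from e.symm] at this)
  let S : g.M → Prop := fun a => ∃ (n : ℕ) (a₀ : g.M), g.E a₀ A ∧ (¬ ∃ b, g.E b B ∧ k b = a₀) ∧
    a = (fun x => k (f x))^[n] a₀
  have hS : g.Tm S := by fun_prop
  have S1 : ∀ a, S a → g.E a A := by
    rintro _ ⟨n, a, h1, -, rfl⟩
    induction n with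
    | zero => exact h1
    | succ n ih => rw [Function.iterate_succ_apply']; exact k1 _ (f1 _ ih)
  have S2 : ∀ a, S a → S (k (f a)) := by
    rintro _ ⟨n, a, h1, h2, rfl⟩
    exact ⟨n + 1, a, h1, h2, (Function.iterate_succ_apply' (fun x => k (f x)) _ _).symm⟩
  have S3 : ∀ b, g.E b B → S (k b) → ∃ a, S a ∧ f a = b := by
    rintro b hb ⟨n, a, h1, h2, e⟩
    cases n with
    | zero => exact (h2 ⟨b, hb, e⟩).elim
    | succ n =>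
      rw [Function.iterate_succ_apply'] at e
      exact ⟨_, ⟨n, a, h1, h2, rfl⟩, (k2 _ _ hb (f1 _ (S1 _ ⟨n, a, h1, h2, rfl⟩)) e).symm⟩
  obtain ⟨h, hh, H⟩ := tm_choice (Γ := g.Elt A) (Q := fun a (b : g.M) => g.E b B ∧
      ((S a.1 ∧ b = f a.1) ∨ (¬ S a.1 ∧ k b = a.1))) (by fun_prop) fun a => by
    by_cases h : S a.1
    · exact ⟨_, f1 _ a.2, Or.inl ⟨h, rfl⟩⟩
    · by_contra h'
      exact h ⟨0, a.1, a.2, fun ⟨b, h1, h2⟩ => h' ⟨b, h1, Or.inr ⟨h, h2⟩⟩, rfl⟩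
  obtain ⟨b, hb⟩ := tm_image (Γ := g.Elt A) (Q := fun _ => True) (f := fun x => pr x.1 (h x))
    (by fun_prop) (by fun_prop)
  let h' : g.M → g.M := fun x => if hx : g.E x A then h ⟨x, hx⟩ else x
  have e' : ∀ x hx, h' x = h ⟨x, hx⟩ := fun x hx => dif_pos hx
  refine ⟨b, isInj_of_graph (f := h') (fun p => (hb p).trans ⟨fun ⟨x, _, e⟩ =>
    ⟨x.1, x.2, by rw [e' _ x.2]; exact e⟩, fun ⟨x, hx, e⟩ => ⟨⟨x, hx⟩, trivial,
      by rw [e' _ hx] at e; exact e⟩⟩) (fun x hx => e' x hx ▸ (H _).1) fun x y hx hy e => ?_,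
    fun y hy => ?_⟩
  · rw [e' x hx, e' y hy] at e
    rcases (H ⟨x, hx⟩).2 with ⟨h1, h2⟩ | ⟨h1, h2⟩ <;> rcases (H ⟨y, hy⟩).2 with ⟨h3, h4⟩ | ⟨h3, h4⟩
    · exact f2 x y hx hy (h2.symm.trans (e.trans h4))
    · exact (h3 (by rw [← h4, ← e, h2]; exact S2 _ h1)).elim
    · exact (h1 (by rw [← h2, e, h4]; exact S2 _ h3)).elim
    · exact h2.symm.trans (e ▸ h4)
  · have : ∃ a : g.Elt A, h a = y := by
      by_cases hs : S (k y)
      · obtain ⟨a, h1, rfl⟩ := S3 y hy hs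
        exact ⟨⟨a, S1 a h1⟩, ((H ⟨a, S1 a h1⟩).2.resolve_right fun h => h.1 h1).2⟩
      · exact ⟨⟨k y, k1 y hy⟩, k2 _ _ (H _).1 hy
          ((H ⟨k y, k1 y hy⟩).2.resolve_left fun h => hs h.1).2⟩
    obtain ⟨a, rfl⟩ := this
    exact ⟨a.1, app_iff.2 ((hb _).2 ⟨a, trivial, rfl⟩)⟩

noncomputable def subN (B : ℕ → Set (Set D.α)) : Name (Q D) := setB fun n p => Frc D.V p.p (B n)

noncomputable def rN (D : Data) : Name (Q D) :=
  relN (fun i : (Set.univ : Set X3) => o i.1) (fun i => cutN (D.r i.1)) fun _ => ⊤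

noncomputable def bN (D : Data) : Name (Q D) :=
  relN (fun i : X3 => o i) (fun i => subN (D.β i)) fun _ => ⊤

theorem exists_bij (hl : oS Set.univ ∈ g.N) (hr : rN D ∈ g.N) (hb : bN D ∈ g.N) {P : g.M}
    (hP : ∀ x, g.E x P ↔ ∀ y, g.E y x → g.E y g.om) : ∃ b, IsBij g.E b (g.v (oS Set.univ)) P := by
  have h1 : IsInj g.E (g.v (rN D)) (g.v (oS Set.univ)) P := by
    refine ⟨isFun_relN hr o_inj' (E_oS' hl) fun i hi => (hP _).2 (cut_sub hi),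
      fun a a' b h4 h5 => ?_⟩
    obtain ⟨i, -, -, h6, rfl, rfl⟩ := (app_relN hr).1 h4
    obtain ⟨j, -, -, h7, rfl, e'⟩ := (app_relN hr).1 h5
    by_contra h
    obtain ⟨c, h8, h9⟩ := Filter.nonempty_of_mem (inter_mem (eq_of_v_eq (D.r_meas _) h6
      (D.r_meas _) h7 e') (FG_of_emp (D.r_ne i.1 j.1 fun e => h (by rw [e]))))
    exact h9 h8
  have h2 : ∀ a : g.Elt P, ∃ s, App g.E (g.v (bN D)) s a.1 := by
    rintro ⟨a, ha⟩
    obtain ⟨σ, hσ, rfl⟩ := exists_v a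
    refine dens (Ψ := fun _ E w => (∀ y, E y (w 0) → E y (w 1)) → ∃ s, App E (w 2) s (w 0))
      ((UDef.all ((UDef.mem _ _).imp (UDef.mem _ _))).imp (UDef.ex (UDef.app _ _ _)))
      (l3 hσ omN_mem hb) (fun p _ => ?_) ((hP _).1 ha)
    obtain ⟨q, hq, B, hB, H⟩ := exists_sub σ p
    obtain ⟨ξ, rfl⟩ := D.β_surj B hB
    refine ⟨q, hq, {o ξ, subN (D.β ξ)}, (toFinite _).countable, fun g' hq' hC hl h => ?_⟩
    have a1 : subN (D.β ξ) ∈ g'.N := hC (by simp)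
    refine ⟨_, (app_relN (hl (bN D) (by simp))).2 ⟨ξ, g'.top, hC (by simp), a1, rfl,
      Gen.ext fun y => ⟨fun hy => ?_, fun hy => ?_⟩⟩⟩
    · obtain ⟨n, rfl⟩ := E_om.1 (h y hy)
      exact (E_setB a1).2 ⟨n, rfl, (H g' hq' (hl _ (by simp)) n).1 hy⟩
    · obtain ⟨n, rfl, h'⟩ := (E_setB a1).1 hy
      exact (H g' hq' (hl _ (by simp)) n).2 h'
  obtain ⟨f, hf, H⟩ := tm_choice (Q := fun (a : g.Elt P) s => App g.E (g.v (bN D)) s a.1)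
    (by fun_prop) h2
  have : Nonempty (g.Elt P) := ⟨⟨g.om, (hP _).2 fun _ h => h⟩⟩
  have e : ∀ x hx, un (g.Elt P) x = ⟨x, hx⟩ := fun x hx => un_ι (α := g.Elt P) ⟨x, hx⟩
  obtain ⟨F, hF⟩ := exists_isInj (A := P) (B := g.v (oS Set.univ))
    (f := fun x => f (un (g.Elt P) x)) (by fun_prop) (fun x hx => by
      obtain ⟨i, -, h3, -, e, -⟩ := (app_relN hb).1 (H (un (g.Elt P) x))
      rw [e]
      exact (o_mem_oS h3 hl).2 trivial) fun x y hx hy h => by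
      rw [e x hx, e y hy] at h
      obtain ⟨i, -, h3, -, e1, e2⟩ := (app_relN hb).1 (H ⟨x, hx⟩)
      obtain ⟨j, -, h4, -, e3, e4⟩ := (app_relN hb).1 (H ⟨y, hy⟩)
      obtain rfl := o_inj h3 h4 (e1.symm.trans (h.trans e3))
      exact e2.trans e4.symm
  exact csb h1 hF

theorem main : ∃ (M : Type 1) (E : M → M → Prop), IsZFC E ∧
    ∃ w w1 w2 w3 P b R add mul lt F Y : M,
      IsOmega E w ∧ IsSucc E w w1 ∧ IsSucc E w1 w2 ∧ IsSucc E w2 w3 ∧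
      (∀ x, E x P ↔ ∀ y, E y x → E y w) ∧ IsBij E b w3 P ∧
      IsReals E R add mul lt ∧ IsFun E F w2 Y ∧
      (∀ i A, App E F i A → IsSemigroup E add A ∧ IsFsigma E w R lt A) ∧
      (∀ i j A B, App E F i A → App E F j B → i ≠ j → ∀ x, ¬ (E x A ∧ E x B)) ∧
      ∀ x, E x R → ∃ i A, App E F i A ∧ E x A := by
  obtain ⟨D⟩ := exists_data
  choose W hW C hC hS using D.sig
  let famN : Name (Q D) := relN (fun j : J2 => o j.1) (fun j => memN (D.S j)) fun _ => ⊤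
  let famS : Name (Q D) := relN (fun j : J2 => o j.1) (fun j => seqN (C j)) fun _ => ⊤
  obtain ⟨g, -, hN⟩ := exists_gen (⊤ : Q D) {o w0, o w1, o w2, oS Set.univ, rN D, bN D, RN,
    opN (fun z => z.1 + z.2), opN (fun z => z.1 * z.2), opN (fun z => -z.1),
    opN (fun z => z.1⁻¹), cutN (fun _ => 0), cutN (fun _ => 1), famN, famS}
    (Set.toFinite _).countable
  have h0 : o w0 ∈ g.N := hN (by simp)
  have h1 : o w1 ∈ g.N := hN (by simp)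
  have h2 : o w2 ∈ g.N := hN (by simp)
  have h3 : oS Set.univ ∈ g.N := hN (by simp)
  have hR : RN ∈ g.N := hN (by simp)
  have ha : opN (fun z => z.1 + z.2) ∈ g.N := hN (by simp)
  have hF : famN ∈ g.N := hN (by simp)
  have hF' : famS ∈ g.N := hN (by simp)
  obtain ⟨P, hP⟩ := exists_power g.om
  obtain ⟨b, hb⟩ := exists_bij h3 (hN (by simp)) (hN (by simp)) hP
  obtain ⟨lt, hlt⟩ := exists_lt hR
  obtain ⟨Y, hY⟩ := exists_power (g.v RN)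
  have h1' := o_eq (D := D) w1 ▸ h1
  have h2' := o_eq (D := D) w2 ▸ h2
  refine ⟨g.M, g.E, g.isZFC, g.om, g.v (o w1), g.v (o w2), g.v (oS Set.univ), P, b, g.v RN,
    g.v (opN fun z => z.1 + z.2), g.v (opN fun z => z.1 * z.2), lt, g.v famN, Y, isOmega_om,
    ⟨isCard_w1 h1, ?_, ?_⟩, ⟨?_, (o_lt h1 h2).2 w1_lt, no_card_col h1 h2⟩,
    ⟨isCard_oS h3 isLowerSet_univ (Order.le_succ _) (by simp) fun y _ => mk_Iio_le y,
      (o_mem_oS h2 h3).2 trivial, no_card_ground h2 h3 fun y _ => mk_w2 ▸ mk_Iio_le y⟩, hP, hb,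
    isReals hR ha (hN (by simp)) (hN (by simp)) (hN (by simp)) (hN (by simp)) (hN (by simp)) hlt,
    isFun_relN hF o_inj' (fun a => ?_) fun j hj => (hY _).2 (memN_sub hR hj),
    fun i A h => ?_, fun i j A B h h' hij => ?_, fun x hx => ?_⟩
  · rw [← o_w0 h0]
    exact (o_lt h0 h1).2 w0_lt
  · rw [← o_w0 h0, o_eq w1]
    exact no_card_ground h0 h1' fun y hy => mk_w0 ▸ lt_w1.1 hy
  · rw [o_eq]
    exact isCard_oS h2' (isLowerSet_Iio _) le_rfl (mk_w2 ▸ Order.lt_succ _) fun y hy => lt_w2.1 hy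
  · rw [o_eq]
    exact E_oS' h2' a
  · obtain ⟨j, -, h4, h5, -, rfl⟩ := (app_relN hF).1 h
    exact ⟨semigroup_memN ha j h5, fsigma_memN hR hlt (hW j) (hC j) (hS j) h5
      (relN_get hF' o_inj' h4)⟩
  · obtain ⟨i, -, -, h5, rfl, rfl⟩ := (app_relN hF).1 h
    obtain ⟨j, -, -, h6, rfl, rfl⟩ := (app_relN hF).1 h'
    exact disj_memN (fun e => hij (by rw [e])) h5 h6
  · obtain ⟨y, hy, h4, rfl⟩ := (E_R hR).1 hx
    refine dens (Ψ := fun _ E w => ∃ i A, App E (w 1) i A ∧ E (w 0) A)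
      (UDef.ex (UDef.ex ((UDef.app _ _ _).and (UDef.mem _ _)))) (l2 h4 hF) fun p _ => ?_
    obtain ⟨q, hq, hpq, j, h5⟩ := D.cover y hy p.p p.hp
    refine ⟨⟨p.c, q, hq⟩, ⟨le_rfl, hpq⟩, {o j.1, memN (D.S j)}, (toFinite _).countable,
      fun g' hq' hC hl => ?_⟩
    exact ⟨_, _, (app_relN (hl _ (by simp [famN]))).2 ⟨j, g'.top, hC (by simp), hC (by simp),
      rfl, rfl⟩, (mem_memN (hC (by simp)) hy (hl _ (by simp))).2 ⟨_, hq', h5⟩⟩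

end Pool.Agent.MP_02ff8e_lc
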