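import Pool.Agent.MP_02ff8e_lc.Card
import Pool.Agent.MP_c6cf52_lc.Auto

namespace Pool.Agent.MP_02ff8e_lc

open Set Cardinal

/-- Countable partial injections from the reals to the countable ordinals. -/
@[ext] structure Col where
  g : Set (ℝ × X3)
  ct : g.Countable
  lt : ∀ a ∈ g, a.2 < w1
  fn : ∀ a ∈ g, ∀ b ∈ g, a.1 = b.1 ↔ a.2 = b.2

instance : Preorder Col where
  le a b := b.g ⊆ a.g
  le_refl _ := subset_rfl
  le_trans _ _ _ h h' := Subset.trans h' h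

def Col.CC (a b : Col) : Prop := ∀ x ∈ a.g, ∀ y ∈ b.g, x.1 = y.1 ↔ x.2 = y.2

theorem Col.CC.of_le {a b c : Col} (h : c ≤ a) (h' : c ≤ b) : a.CC b :=
  fun x hx y hy => c.fn x (h hx) y (h' hy)

theorem Col.exists_lb {J : Type*} [Countable J] (s : J → Col) (h : ∀ i j, (s i).CC (s j)) :
    ∃ c, ∀ j, c ≤ s j := by
  refine ⟨⟨⋃ j, (s j).g, countable_iUnion fun j => (s j).ct, fun a ha => ?_,
    fun a ha b hb => ?_⟩, fun j => subset_iUnion (fun j => (s j).g) j⟩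
  · obtain ⟨j, hj⟩ := mem_iUnion.1 ha
    exact (s j).lt a hj
  · obtain ⟨i, hi⟩ := mem_iUnion.1 ha
    obtain ⟨j, hj⟩ := mem_iUnion.1 hb
    exact h i j a hi b hj

theorem Col.closed (s : ℕ → Col) (hs : Antitone s) : ∃ q, ∀ n, q ≤ s n :=
  Col.exists_lb s fun i j => Col.CC.of_le (hs (le_max_left i j)) (hs (le_max_right i j))

theorem Col.add_dom (c : Col) (t : ℝ) : ∃ c' ≤ c, ∃ x, (t, x) ∈ c'.g := by
  by_cases h : ∃ x, (t, x) ∈ c.g
  · exact ⟨c, le_rfl, h⟩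
  obtain ⟨x, hx, hx'⟩ := exists_new (c.ct.image Prod.snd)
  refine ⟨⟨insert (t, x) c.g, c.ct.insert _, ?_, ?_⟩, subset_insert _ _, x, mem_insert _ _⟩
  · rintro a (rfl | ha)
    exacts [hx, c.lt a ha]
  · rintro a (rfl | ha) b (rfl | hb)
    · simp
    · exact ⟨fun e => (h ⟨b.2, by rw [show t = b.1 from e]; exact hb⟩).elim,
        fun e => (hx' ⟨b, hb, e.symm⟩).elim⟩
    · exact ⟨fun e => (h ⟨a.2, by rw [show t = a.1 from e.symm]; exact ha⟩).elim,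
        fun e => (hx' ⟨a, ha, e⟩).elim⟩
    · exact c.fn a ha b hb

theorem mk_Col : #Col ≤ 𝔠 := by
  refine (mk_le_of_injective
    (β := {t : Set (ℝ × X3) | t ⊆ (Set.univ ×ˢ Iio w1 : Set (ℝ × X3)) ∧ t.Countable})
    (f := fun c => ⟨c.g, fun a ha => ⟨trivial, c.lt a ha⟩, c.ct⟩)
    fun a b e => Col.ext (congrArg Subtype.val e)).trans ?_
  exact MP_c6cf52_lc.mk_ct_subsets _ (MP_c6cf52_lc.mk_prod_le_c (by simp [mk_real]) mk_w1_le)

/-- The forcing notion. -/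
structure Q (D : Data) where
  c : Col
  p : Finset D.α
  hp : p ∈ D.V

variable {D : Data}

instance : Preorder (Q D) where
  le a b := a.c ≤ b.c ∧ b.p ⊆ a.p
  le_refl _ := ⟨le_rfl, subset_rfl⟩
  le_trans _ _ _ h h' := ⟨h.1.trans h'.1, h'.2.trans h.2⟩

instance : OrderTop (Q D) where
  top := ⟨⟨∅, countable_empty, by simp, by simp⟩, ∅, D.emp⟩
  le_top _ := ⟨empty_subset _, Finset.empty_subset _⟩

theorem easton_one (O : Q D → Prop) (c₀ : Col) :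
    ∃ c ≤ c₀, ∃ A : Set (Q D), A.Countable ∧ (∀ a ∈ A, O a ∧ c ≤ a.c) ∧
      ∀ r, O r → r.c ≤ c → ∃ a ∈ A, Cmp D.V r.p a.p := by
  obtain ⟨A, hA⟩ := zorn_subset {A : Set (Q D) | (∀ a ∈ A, O a ∧ a.c ≤ c₀) ∧
      A.Pairwise (fun a b => ¬ Cmp D.V a.p b.p ∧ a.c.CC b.c)} (by
    intro C hC hch
    refine ⟨⋃₀ C, ⟨fun a ⟨A, hA, ha⟩ => (hC hA).1 a ha, ?_⟩, fun A hA => subset_sUnion_of_mem hA⟩
    rintro a ⟨A, hA, ha⟩ b ⟨B, hB, hb⟩ hab
    rcases hch.total hA hB with h | h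
    · exact (hC hB).2 (h ha) hb hab
    · exact (hC hA).2 ha (h hb) hab)
  have inj : InjOn Q.p A := fun a ha b hb e => by
    by_contra h
    exact (hA.prop.2 ha hb h).1 ⟨a.p, a.hp, subset_rfl, e.ge⟩
  have hc : A.Countable := by
    refine countable_of_injective_of_countable_image inj (D.ccc _ ?_ ?_)
    · rintro _ ⟨a, -, rfl⟩
      exact a.hp
    · rintro _ ⟨a, ha, rfl⟩ _ ⟨b, hb, rfl⟩ h
      exact (hA.prop.2 ha hb fun e => h (e ▸ rfl)).1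
  have := hc.to_subtype
  obtain ⟨c, hc'⟩ := Col.exists_lb (fun o : Option A => o.elim c₀ fun a => a.1.c) (by
    rintro (_ | a) (_ | b)
    · exact Col.CC.of_le le_rfl le_rfl
    · exact Col.CC.of_le (hA.prop.1 _ b.2).2 le_rfl
    · exact Col.CC.of_le le_rfl (hA.prop.1 _ a.2).2
    · by_cases h : a.1 = b.1
      · exact Col.CC.of_le le_rfl (by simp [h])
      · exact (hA.prop.2 a.2 b.2 h).2)
  refine ⟨c, hc' none, A, hc, fun a ha => ⟨(hA.prop.1 a ha).1, hc' (some ⟨a, ha⟩)⟩,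
    fun r hr hrc => ?_⟩
  by_contra h
  push Not at h
  have : insert r A ∈ {A : Set (Q D) | (∀ a ∈ A, O a ∧ a.c ≤ c₀) ∧
      A.Pairwise (fun a b => ¬ Cmp D.V a.p b.p ∧ a.c.CC b.c)} := by
    constructor
    · rintro a (rfl | ha)
      exacts [⟨hr, hrc.trans (hc' none)⟩, hA.prop.1 a ha]
    · rw [pairwise_insert]
      refine ⟨hA.prop.2, fun b hb _ => ?_⟩
      have h1 : r.c ≤ b.c := hrc.trans (hc' (some ⟨b, hb⟩))
      exact ⟨⟨h b hb, Col.CC.of_le le_rfl h1⟩, fun hh => h b hb hh.symm, Col.CC.of_le h1 le_rfl⟩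
  exact h r (hA.2 this (subset_insert _ _) (mem_insert _ _)) ⟨r.p, r.hp, subset_rfl, subset_rfl⟩

theorem easton {J : Type} [Countable J] (O : J → Q D → Prop) (c₀ : Col) :
    ∃ c ≤ c₀, ∃ A : J → Set (Q D), ∀ j, (A j).Countable ∧ (∀ a ∈ A j, O j a ∧ c ≤ a.c) ∧
      ∀ r, O j r → r.c ≤ c → ∃ a ∈ A j, Cmp D.V r.p a.p := by
  obtain ⟨c, hc, H⟩ := MP_c6cf52_lc.baire Col.closed (fun j c => ∃ A : Set (Q D), A.Countable ∧
    (∀ a ∈ A, O j a ∧ c ≤ a.c) ∧ ∀ r, O j r → r.c ≤ c → ∃ a ∈ A, Cmp D.V r.p a.p)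
    (fun j c => easton_one (O j) c)
    (fun j p q h ⟨A, h1, h2, h3⟩ => ⟨A, h1, fun a ha => ⟨(h2 a ha).1, h.trans (h2 a ha).2⟩,
      fun r hr hrc => h3 r hr (hrc.trans h)⟩) c₀
  choose A hA using H
  exact ⟨c, hc, A, hA⟩

theorem cc {B Γ : Type} {κ : Cardinal} (hκ : 𝔠 ≤ κ) (hΓ : #Γ ≤ κ) (hB : κ < #B) (q : B → Q D)
    (γ : B → Γ) : ∃ b b', b ≠ b' ∧ γ b = γ b' ∧ ∃ r, r ≤ q b ∧ r ≤ q b' := by
  by_contra h
  push Not at h
  have hκ' := aleph0_le_continuum.trans hκ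
  have h1 : ∀ z : Γ × Col, {b | γ b = z.1 ∧ (q b).c = z.2}.Countable := by
    intro z
    have key : ∀ a b, γ a = z.1 ∧ (q a).c = z.2 → γ b = z.1 ∧ (q b).c = z.2 → a ≠ b →
        ¬ Cmp D.V (q a).p (q b).p := fun a b ha hb hab ⟨r, hr, h1, h2⟩ =>
      h a b hab (ha.1.trans hb.1.symm) ⟨z.2, r, hr⟩ ⟨ha.2.ge, h1⟩ ⟨hb.2.ge, h2⟩
    refine countable_of_injective_of_countable_image (f := fun b => (q b).p)
      (fun a ha b hb e => ?_) (D.ccc _ ?_ ?_)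
    · by_contra hab
      exact key a b ha hb hab ⟨_, (q a).hp, subset_rfl, e.ge⟩
    · rintro _ ⟨a, -, rfl⟩
      exact (q a).hp
    · rintro _ ⟨a, ha, rfl⟩ _ ⟨b, hb, rfl⟩ h
      exact key a b ha hb fun e => h (e ▸ rfl)
  have h2 : (⋃ z : Γ × Col, {b | γ b = z.1 ∧ (q b).c = z.2}) = Set.univ :=
    eq_univ_of_forall fun b => mem_iUnion.2 ⟨(γ b, (q b).c), rfl, rfl⟩
  refine hB.not_ge ?_
  rw [← mk_univ, ← h2]
  refine mk_iUnion_le_sum_mk.trans ((sum_le_sum _ (fun _ => κ)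
    fun z => (h1 z).le_aleph0.trans hκ').trans ?_)
  rw [sum_const']
  refine (mul_le_mul_left (le_trans (b := #Γ * #Col) (by simp) ?_) _).trans (mul_eq_self hκ').le
  exact (mul_le_mul' hΓ (mk_Col.trans hκ)).trans (mul_eq_self hκ').le

end Pool.Agent.MP_02ff8e_lc
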