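import Pool.Agent.MP_02ff8e_lc.Prod
import Pool.Agent.MP_02ff8e_lc.Defs

namespace Pool.Agent.MP_02ff8e_lc

open Set Filter Topology Pool.Agent.MP_c6cf52_lc Name Gen

variable {D : Data}

/-- The filter of sets forced by a condition of the generic filter. -/
def FG (g : Gen (Q D)) : Filter (Set D.α) where
  sets := {B | ∃ p ∈ g.G, Frc D.V p.p B}
  univ_sets := ⟨⊤, g.top, Frc.of_forall fun _ _ _ => trivial⟩
  sets_of_superset := fun ⟨p, hp, h⟩ hB => ⟨p, hp, h.mono subset_rfl hB⟩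
  inter_sets := fun ⟨_, hp, h⟩ ⟨_, hq, h'⟩ => by
    obtain ⟨r, hr, h1, h2⟩ := g.dir hp hq
    exact ⟨r, hr, (h.mono h1.2 subset_rfl).inter (h'.mono h2.2 subset_rfl)⟩

variable {g : Gen (Q D)}

theorem mem_FG {B : Set (Set D.α)} : B ∈ FG g ↔ ∃ p ∈ g.G, Frc D.V p.p B := Iff.rfl

instance : (FG g).NeBot :=
  forall_mem_nonempty_iff_neBot.1 fun _ ⟨p, _, h⟩ => h.nonempty p.hp

theorem FG_of_emp {B : Set (Set D.α)} (h : Frc D.V ∅ B) : B ∈ FG g := ⟨⊤, g.top, h⟩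

theorem frc_of_gen (p : Q D) {C : Set (Name (Q D))} (hC : C.Countable) {B : Set (Set D.α)}
    (hB : MeasurableSet B) (h : ∀ g : Gen (Q D), p ∈ g.G → C ⊆ g.N → Bᶜ ∉ FG g) :
    Frc D.V p.p B := by
  by_contra h'
  obtain ⟨s, hs, h1, h2⟩ := (dec_of_meas D.ccc hB).not_frc D.ccc h'
  obtain ⟨g, h3, h4⟩ := exists_gen (⟨p.c, s, hs⟩ : Q D) C hC
  exact h g (g.up h3 ⟨le_rfl, h1⟩) h4 ⟨_, h3, h2⟩

theorem mem_FG_of {Ψ : ∀ (M : Type 1), (M → M → Prop) → (ℕ → M) → Prop} (hU : UDef Ψ)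
    {l : List (Name (Q D))} (hl : ∀ x ∈ l, x ∈ g.N) (hΨ : Ψ g.M g.E (g.w l))
    {B : Set (Set D.α)} (hB : MeasurableSet B)
    (h : ∀ g : Gen (Q D), (∀ x ∈ l, x ∈ g.N) → Ψ g.M g.E (g.w l) → Bᶜ ∉ FG g) : B ∈ FG g := by
  obtain ⟨p, hp, H⟩ := transfer hU hl hΨ
  exact ⟨p, hp, frc_of_gen p (List.finite_toSet l).countable hB
    fun g' hp' hl' => h g' hl' (H g' hp' hl')⟩

theorem dens_FG {Ψ : ∀ (M : Type 1), (M → M → Prop) → (ℕ → M) → Prop} (hU : UDef Ψ)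
    {l : List (Name (Q D))} (hl : ∀ x ∈ l, x ∈ g.N) {J : Type} [Countable J]
    {B : J → Set (Set D.α)} (hB : ∀ j, MeasurableSet (B j)) (hJ : (⋃ j, B j) ∈ FG g)
    (h : ∀ j, ∃ C : Set (Name (Q D)), C.Countable ∧ ∀ g : Gen (Q D), C ⊆ g.N →
      (∀ x ∈ l, x ∈ g.N) → B j ∈ FG g → Ψ g.M g.E (g.w l)) : Ψ g.M g.E (g.w l) := by
  obtain ⟨p₀, hp₀, h₀⟩ := hJ
  refine dens hU hl fun p hp => ?_
  obtain ⟨r, -, h1, h2⟩ := g.dir hp hp₀
  obtain ⟨s, hs, h3, j, h4⟩ := Frc.exists_of_iUnion D.ccc r.hp hB (h₀.mono h2.2 subset_rfl)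
  obtain ⟨C, hC, H⟩ := h j
  exact ⟨⟨r.c, s, hs⟩, le_trans (b := r) ⟨le_rfl, h3⟩ h1, C, hC,
    fun g' h5 h6 h7 => H g' h6 h7 ⟨_, h5, h4⟩⟩

theorem dens_one {Ψ : ∀ (M : Type 1), (M → M → Prop) → (ℕ → M) → Prop} (hU : UDef Ψ)
    {l : List (Name (Q D))} (hl : ∀ x ∈ l, x ∈ g.N) (C : Set (Name (Q D))) (hC : C.Countable)
    (h : ∀ g : Gen (Q D), C ⊆ g.N → (∀ x ∈ l, x ∈ g.N) → Ψ g.M g.E (g.w l)) :
    Ψ g.M g.E (g.w l) :=
  dens hU hl fun p _ => ⟨p, le_rfl, C, hC, fun g' _ => h g'⟩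

noncomputable def nN (k : ℕ) : Name (Q D) := ordN natWf ⟨k⟩

noncomputable def omN : Name (Q D) := setN natWf Set.univ

theorem nN_mem (k : ℕ) : nN k ∈ g.N := nat_mem _

theorem omN_mem : omN ∈ g.N := g.omega_mem

noncomputable def setB (B : ℕ → Q D → Prop) : Name (Q D) :=
  Name.mk {z : ℕ × Q D // B z.1 z.2} (fun z => nN z.1.1) (fun z => z.1.2)

theorem E_setB {B : ℕ → Q D → Prop} (h : setB B ∈ g.N) {x : g.M} :
    g.E x (g.v (setB B)) ↔ ∃ n, g.nat n = x ∧ ∃ p ∈ g.G, B n p := by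
  rw [E_v h]
  exact ⟨fun ⟨⟨⟨n, p⟩, h0⟩, h1, _, h2⟩ => ⟨n, h2, p, h1, h0⟩,
    fun ⟨n, h2, p, h1, h0⟩ => ⟨⟨⟨n, p⟩, h0⟩, h1, nN_mem _, h2⟩⟩

noncomputable def qq (n : ℕ) : ℝ := ((Denumerable.eqv ℚ).symm n : ℚ)

theorem exists_qq {a b : ℝ} (h : a < b) : ∃ n, a < qq n ∧ qq n < b := by
  obtain ⟨q, hq⟩ := exists_rat_btwn h
  exact ⟨Denumerable.eqv ℚ q, by simpa [qq] using hq⟩

noncomputable def cutN (x : Set D.α → ℝ) : Name (Q D) :=
  setB fun n p => ∃ m, qq n < qq m ∧ Frc D.V p.p {c | qq m < x c}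

def IsCut (g : Gen (Q D)) (a : g.M) (r : ℝ) : Prop :=
  (∀ y, g.E y a → g.E y g.om) ∧ ∀ n, g.E (g.nat n) a ↔ qq n < r

theorem IsCut.le_iff {a b : g.M} {r s : ℝ} (h : IsCut g a r) (h' : IsCut g b s) :
    r ≤ s ↔ ∀ y, g.E y a → g.E y b := by
  constructor
  · intro hrs y hy
    obtain ⟨n, rfl⟩ := E_om.1 (h.1 y hy)
    exact (h'.2 n).2 (((h.2 n).1 hy).trans_le hrs)
  · intro H
    by_contra hrs
    obtain ⟨n, h1, h2⟩ := exists_qq (not_le.1 hrs)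
    exact h1.not_gt ((h'.2 n).1 (H _ ((h.2 n).2 h2)))

theorem IsCut.eq_iff {a b : g.M} {r s : ℝ} (h : IsCut g a r) (h' : IsCut g b s) :
    r = s ↔ a = b :=
  ⟨fun e => Gen.ext fun y => ⟨(h.le_iff h').1 e.le y, (h'.le_iff h).1 e.ge y⟩, fun e =>
    le_antisymm ((h.le_iff h').2 fun _ hy => e ▸ hy) ((h'.le_iff h).2 fun _ hy => e ▸ hy)⟩

noncomputable def rho (g : Gen (Q D)) (a : g.M) : ℝ := Classical.epsilon (IsCut g a)

theorem IsCut.rho_eq {a : g.M} {r : ℝ} (h : IsCut g a r) : rho g a = r :=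
  (IsCut.eq_iff (Classical.epsilon_spec (p := IsCut g a) ⟨r, h⟩) h).2 rfl

variable {x y : Set D.α → ℝ}

theorem E_cut' (h : cutN x ∈ g.N) {n : ℕ} :
    g.E (g.nat n) (g.v (cutN x)) ↔ ∃ m, qq n < qq m ∧ {c | qq m < x c} ∈ FG g := by
  unfold cutN at h ⊢
  rw [E_setB h]
  constructor
  · rintro ⟨k, e, p, hp, m, h1, h2⟩
    obtain rfl := nat_inj e
    exact ⟨m, h1, p, hp, h2⟩
  · rintro ⟨m, h1, p, hp, h2⟩
    exact ⟨n, rfl, p, hp, m, h1, h2⟩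

theorem cut_sub (h : cutN x ∈ g.N) (y : g.M) (hy : g.E y (g.v (cutN x))) : g.E y g.om := by
  obtain ⟨n, rfl, -⟩ := (E_setB h).1 hy
  exact nat_om n

theorem E_cut (hx : Measurable x) (h : cutN x ∈ g.N) {n : ℕ} :
    g.E (g.nat n) (g.v (cutN x)) ↔ {c | qq n < x c} ∈ FG g := by
  constructor
  · intro h'
    obtain ⟨m, h1, h2⟩ := (E_cut' h).1 h'
    exact mem_of_superset h2 fun c hc => h1.trans hc
  · intro h'
    refine dens_FG (UDef.mem 0 1) (l2 (nN_mem n) h)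
      (B := fun m : {m // qq n < qq m} => {c | qq m.1 < x c})
      (fun m => measurableSet_lt measurable_const hx) (mem_of_superset h' fun c hc => ?_)
      fun m => ⟨∅, countable_empty, fun g' _ hl hB =>
        (E_cut' (hl _ (by simp))).2 ⟨m.1, m.2, hB⟩⟩
    obtain ⟨m, h1, h2⟩ := exists_qq (show qq n < x c from hc)
    exact mem_iUnion.2 ⟨⟨m, h1⟩, h2⟩

theorem not_E_cut (hx : Measurable x) (h : cutN x ∈ g.N) {n : ℕ}
    (h' : ¬ g.E (g.nat n) (g.v (cutN x))) : {c | x c ≤ qq n} ∈ FG g :=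
  mem_FG_of (UDef.mem 0 1).not (l2 (nN_mem n) h) h' (measurableSet_le hx measurable_const)
    fun g' hl hΨ hB => hΨ ((E_cut hx (hl _ (by simp))).2
      (mem_of_superset hB fun c hc => not_le.1 (show ¬ x c ≤ qq n from hc)))

theorem exists_cut (hx : Measurable x) (h : cutN x ∈ g.N) :
    ∃ r, IsCut g (g.v (cutN x)) r ∧ Tendsto x (FG g) (𝓝 r) := by
  have h1 : ∃ y, g.E y (g.v (cutN x)) := by
    refine dens_FG (Ψ := fun _ E w => ∃ y, E y (w 0)) (UDef.ex (UDef.mem _ _)) (l1 h)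
      (B := fun n : ℕ => {c | qq n < x c}) (fun m => measurableSet_lt measurable_const hx)
      (univ_mem' fun c => ?_) fun m => ⟨∅, countable_empty, fun g' _ hl hB =>
        ⟨_, (E_cut hx (hl _ (by simp))).2 hB⟩⟩
    obtain ⟨m, -, h2⟩ := exists_qq (sub_one_lt (x c))
    exact mem_iUnion.2 ⟨m, h2⟩
  have h2 : ∃ y, g.E y g.om ∧ ¬ g.E y (g.v (cutN x)) := by
    refine dens_FG (Ψ := fun _ E w => ∃ y, E y (w 1) ∧ ¬ E y (w 0))
      (UDef.ex ((UDef.mem _ _).and (UDef.mem _ _).not)) (l2 h omN_mem)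
      (B := fun n : ℕ => {c | x c < qq n}) (fun m => measurableSet_lt hx measurable_const)
      (univ_mem' fun c => ?_) fun m => ⟨∅, countable_empty, fun g' _ hl hB =>
        ⟨_, nat_om m, fun h' => ?_⟩⟩
    · obtain ⟨m, h2, -⟩ := exists_qq (lt_add_one (x c))
      exact mem_iUnion.2 ⟨m, h2⟩
    · obtain ⟨c, h3, h4⟩ := Filter.nonempty_of_mem
        (inter_mem hB ((E_cut hx (hl _ (by simp))).1 h'))
      exact lt_asymm (show x c < qq m from h3) h4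
  obtain ⟨_, h1⟩ := h1
  obtain ⟨n₀, rfl⟩ := E_om.1 (cut_sub h _ h1)
  obtain ⟨_, h2, h3⟩ := h2
  obtain ⟨n₁, rfl⟩ := E_om.1 h2
  let L : Set ℝ := qq '' {n | g.E (g.nat n) (g.v (cutN x))}
  have down : ∀ n m, qq n ≤ qq m → g.E (g.nat m) (g.v (cutN x)) →
      g.E (g.nat n) (g.v (cutN x)) := fun n m h1 h2 =>
    (E_cut hx h).2 (mem_of_superset ((E_cut hx h).1 h2) fun c hc => h1.trans_lt hc)
  have hb : BddAbove L := ⟨qq n₁, by
    rintro _ ⟨m, hm, rfl⟩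
    exact le_of_not_ge fun h' => h3 (down _ _ h' hm)⟩
  have hne : L.Nonempty := ⟨_, n₀, h1, rfl⟩
  have key : ∀ n, g.E (g.nat n) (g.v (cutN x)) ↔ qq n < sSup L := fun n => by
    constructor
    · intro h'
      obtain ⟨m, h4, h5⟩ := (E_cut' h).1 h'
      exact h4.trans_le (le_csSup hb ⟨m, (E_cut hx h).2 h5, rfl⟩)
    · intro h'
      obtain ⟨_, ⟨m, hm, rfl⟩, h4⟩ := exists_lt_of_lt_csSup hne h'
      exact down _ _ h4.le hm
  refine ⟨sSup L, ⟨cut_sub h, key⟩, tendsto_order.2 ⟨fun a ha => ?_, fun b hb => ?_⟩⟩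
  · obtain ⟨n, h4, h5⟩ := exists_qq ha
    exact mem_of_superset ((E_cut hx h).1 ((key n).2 h5)) fun c hc => h4.trans hc
  · obtain ⟨n, h4, h5⟩ := exists_qq hb
    exact mem_of_superset (not_E_cut hx h fun h' => h4.not_gt ((key n).1 h'))
      fun c hc => lt_of_le_of_lt hc h5

theorem isCut_cut (hx : Measurable x) (h : cutN x ∈ g.N) :
    IsCut g (g.v (cutN x)) (rho g (g.v (cutN x))) := by
  obtain ⟨r, h1, -⟩ := exists_cut hx h
  rwa [h1.rho_eq]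

theorem tendsto_cut (hx : Measurable x) (h : cutN x ∈ g.N) :
    Tendsto x (FG g) (𝓝 (rho g (g.v (cutN x)))) := by
  obtain ⟨r, h1, h2⟩ := exists_cut hx h
  rwa [h1.rho_eq]

theorem rho_lt_iff (hx : Measurable x) (h : cutN x ∈ g.N) (hy : Measurable y)
    (h' : cutN y ∈ g.N) :
    rho g (g.v (cutN x)) < rho g (g.v (cutN y)) ↔ {c | x c < y c} ∈ FG g := by
  refine ⟨(tendsto_cut hx h).eventually_lt (tendsto_cut hy h'), fun H => ?_⟩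
  rw [← not_le, (isCut_cut hy h').le_iff (isCut_cut hx h)]
  refine dens_FG (Ψ := fun _ E w => ¬ ∀ y, E y (w 1) → E y (w 0))
    (UDef.all ((UDef.mem _ _).imp (UDef.mem _ _))).not (l2 h h')
    (B := fun n : ℕ => {c | x c < qq n ∧ qq n < y c})
    (fun m => (measurableSet_lt hx measurable_const).inter (measurableSet_lt measurable_const hy))
    (mem_of_superset H fun c hc => mem_iUnion.2 (exists_qq hc))
    fun m => ⟨∅, countable_empty, fun g' _ hl hB H' => ?_⟩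
  have h1 := (E_cut hx (hl _ (by simp))).1 (H' _ ((E_cut hy (n := m) (hl _ (by simp))).2
    (mem_of_superset hB fun c hc => hc.2)))
  obtain ⟨c, h3, h4⟩ := Filter.nonempty_of_mem (inter_mem hB h1)
  exact lt_asymm h3.1 h4

theorem rho_le (hx : Measurable x) (h : cutN x ∈ g.N) (hy : Measurable y) (h' : cutN y ∈ g.N)
    (H : rho g (g.v (cutN x)) ≤ rho g (g.v (cutN y))) : {c | x c ≤ y c} ∈ FG g := by
  rw [(isCut_cut hx h).le_iff (isCut_cut hy h')] at H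
  refine mem_FG_of (Ψ := fun _ E w => ∀ y, E y (w 0) → E y (w 1))
    (UDef.all ((UDef.mem _ _).imp (UDef.mem _ _))) (l2 h h') H (measurableSet_le hx hy)
    fun g' hl hΨ hB => ?_
  have h1 : cutN x ∈ g'.N := hl _ (by simp)
  have h2 : cutN y ∈ g'.N := hl _ (by simp)
  exact (((isCut_cut hx h1).le_iff (isCut_cut hy h2)).2 hΨ).not_gt
    ((rho_lt_iff hy h2 hx h1).2 (mem_of_superset hB fun c hc => not_le.1 (show ¬ x c ≤ y c from hc)))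

theorem eq_of_v_eq (hx : Measurable x) (h : cutN x ∈ g.N) (hy : Measurable y)
    (h' : cutN y ∈ g.N) (H : g.v (cutN x) = g.v (cutN y)) : {c | x c = y c} ∈ FG g :=
  mem_of_superset (inter_mem (rho_le hx h hy h' (by rw [H])) (rho_le hy h' hx h (by rw [H])))
    fun _ hc => le_antisymm hc.1 hc.2

abbrev Mf (D : Data) : Type := {x : Set D.α → ℝ // Measurable x}

noncomputable def RN : Name (Q D) := fam fun x : Mf D => cutN x.1

theorem E_R (h : RN ∈ g.N) {a : g.M} :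
    g.E a (g.v RN) ↔ ∃ x, Measurable x ∧ cutN x ∈ g.N ∧ g.v (cutN x) = a :=
  (E_fam h).trans ⟨fun ⟨x, h⟩ => ⟨x.1, x.2, h⟩, fun ⟨x, h1, h⟩ => ⟨⟨x, h1⟩, h⟩⟩

theorem isCut_R (h : RN ∈ g.N) {a : g.M} (ha : g.E a (g.v RN)) : IsCut g a (rho g a) := by
  obtain ⟨x, hx, h1, rfl⟩ := (E_R h).1 ha
  exact isCut_cut hx h1

noncomputable def opN (f : ℝ × ℝ → ℝ) : Name (Q D) :=
  relN (fun z : Mf D × Mf D => pairN (cutN z.1.1) (cutN z.2.1))
    (fun z => cutN fun c => f (z.1.1 c, z.2.1 c)) (fun _ => ⊤)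

theorem app2_iff {f a b c : g.M} : App2 g.E f a b c ↔ App g.E f (pr a b) c := by
  simp [App2, isPair_iff]

theorem udef_app2 (i j k m : ℕ) : UDef.{1} (fun _ E w => App2 E (w i) (w j) (w k) (w m)) :=
  UDef.ex ((UDef.isPair _ _ _).and (UDef.app _ _ _))

theorem app_op {f : ℝ × ℝ → ℝ} (h : opN f ∈ g.N) {a b c : g.M} :
    App2 g.E (g.v (opN f)) a b c ↔ ∃ x y : Set D.α → ℝ, Measurable x ∧ Measurable y ∧
      cutN x ∈ g.N ∧ cutN y ∈ g.N ∧ cutN (fun c => f (x c, y c)) ∈ g.N ∧ a = g.v (cutN x) ∧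
      b = g.v (cutN y) ∧ c = g.v (cutN fun c => f (x c, y c)) := by
  unfold opN at h ⊢
  rw [app2_iff, app_relN h]
  constructor
  · rintro ⟨⟨x, y⟩, -, h1, h2, h3, h4⟩
    have h1 := pairN_mem_iff.1 h1
    rw [v_pairN h1.1 h1.2, pr_inj] at h3
    exact ⟨x.1, y.1, x.2, y.2, h1.1, h1.2, h2, h3.1, h3.2, h4⟩
  · rintro ⟨x, y, hx, hy, h1, h2, h3, rfl, rfl, rfl⟩
    exact ⟨(⟨x, hx⟩, ⟨y, hy⟩), g.top, pairN_mem_iff.2 ⟨h1, h2⟩, h3, (v_pairN h1 h2).symm, rfl⟩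

theorem op_val {f : ℝ × ℝ → ℝ} (hf : Measurable f) (h : opN f ∈ g.N) (hR : RN ∈ g.N)
    {a b c : g.M} (H : App2 g.E (g.v (opN f)) a b c) (hc : ContinuousAt f (rho g a, rho g b)) :
    g.E c (g.v RN) ∧ rho g c = f (rho g a, rho g b) := by
  obtain ⟨x, y, hx, hy, h1, h2, h3, rfl, rfl, rfl⟩ := (app_op h).1 H
  have hm : Measurable fun c => f (x c, y c) := hf.comp (hx.prodMk hy)
  exact ⟨(E_R hR).2 ⟨_, hm, h3, rfl⟩, tendsto_nhds_unique (tendsto_cut hm h3)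
    (hc.tendsto.comp ((tendsto_cut hx h1).prodMk_nhds (tendsto_cut hy h2)))⟩

theorem op_ex {f : ℝ × ℝ → ℝ} (h : opN f ∈ g.N) (hR : RN ∈ g.N) {a b : g.M}
    (ha : g.E a (g.v RN)) (hb : g.E b (g.v RN)) : ∃ c, App2 g.E (g.v (opN f)) a b c := by
  obtain ⟨x, hx, h1, rfl⟩ := (E_R hR).1 ha
  obtain ⟨y, hy, h2, rfl⟩ := (E_R hR).1 hb
  refine dens_one (Ψ := fun _ E w => ∃ c, App2 E (w 0) (w 1) (w 2) c)
    (UDef.ex (udef_app2 _ _ _ _)) (l3 h h1 h2) {cutN fun c => f (x c, y c)}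
    (countable_singleton _) fun g' hC hl => ?_
  exact ⟨_, (app_op (hl _ (by simp))).2 ⟨x, y, hx, hy, hl _ (by simp), hl _ (by simp), hC rfl,
    rfl, rfl, rfl⟩⟩

theorem op_iff {f : ℝ × ℝ → ℝ} (hf : Continuous f) (h : opN f ∈ g.N) (hR : RN ∈ g.N)
    {a b c : g.M} (ha : g.E a (g.v RN)) (hb : g.E b (g.v RN)) (hc : g.E c (g.v RN)) :
    App2 g.E (g.v (opN f)) a b c ↔ f (rho g a, rho g b) = rho g c := by
  refine ⟨fun H => (op_val hf.measurable h hR H hf.continuousAt).2.symm, fun H => ?_⟩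
  obtain ⟨c', hc'⟩ := op_ex h hR ha hb
  obtain ⟨h1, h2⟩ := op_val hf.measurable h hR hc' hf.continuousAt
  rwa [← ((isCut_R hR h1).eq_iff (isCut_R hR hc)).1 (h2.trans H)]

noncomputable def memN (C : Set D.α → Set ℝ) : Name (Q D) :=
  Name.mk {z : Mf D × Q D // Frc D.V z.2.p {c | z.1.1 c ∈ C c}} (fun z => cutN z.1.1.1)
    (fun z => z.1.2)

theorem E_memN {C : Set D.α → Set ℝ} (h : memN C ∈ g.N) {a : g.M} : g.E a (g.v (memN C)) ↔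
    ∃ x, Measurable x ∧ cutN x ∈ g.N ∧ g.v (cutN x) = a ∧ {c | x c ∈ C c} ∈ FG g := by
  rw [E_v h]
  exact ⟨fun ⟨⟨⟨x, p⟩, h0⟩, h1, h2, h3⟩ => ⟨x.1, x.2, h2, h3, p, h1, h0⟩,
    fun ⟨x, hx, h2, h3, p, h1, h0⟩ => ⟨⟨⟨⟨x, hx⟩, p⟩, h0⟩, h1, h2, h3⟩⟩

theorem mem_memN {C : Set D.α → Set ℝ} (h : memN C ∈ g.N) (hx : Measurable x)
    (h' : cutN x ∈ g.N) : g.E (g.v (cutN x)) (g.v (memN C)) ↔ {c | x c ∈ C c} ∈ FG g := by
  rw [E_memN h]
  refine ⟨fun ⟨y, hy, h1, h2, h3⟩ => ?_, fun H => ⟨x, hx, h', rfl, H⟩⟩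
  exact mem_of_superset (inter_mem h3 (eq_of_v_eq hy h1 hx h' h2))
    fun c hc => show x c ∈ C c from (show y c = x c from hc.2) ▸ hc.1

/-- Every subset of omega is decided by measurable sets below some condition. -/
theorem exists_sub (σ : Name (Q D)) (p : Q D) : ∃ q ≤ p, ∃ B : ℕ → Set (Set D.α),
    (∀ n, MeasurableSet (B n)) ∧ ∀ g : Gen (Q D), q ∈ g.G → σ ∈ g.N →
      ∀ n, g.E (g.nat n) (g.v σ) ↔ B n ∈ FG g := by
  obtain ⟨c, hc, A, hA⟩ := easton (D := D) (fun (n : ℕ) r => ∀ g : Gen (Q D), r ∈ g.G → σ ∈ g.N →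
    g.E (g.nat n) (g.v σ)) p.c
  refine ⟨⟨c, p.p, p.hp⟩, ⟨hc, subset_rfl⟩, fun n => ⋃ a ∈ A n, {c | ↑a.p ⊆ c},
    fun n => MeasurableSet.biUnion (hA n).1 fun a _ => measurableSet_supset _,
    fun g hq hσ n => ⟨fun h => ?_, fun ⟨p', hp', h⟩ => ?_⟩⟩
  · obtain ⟨p', hp', H⟩ := transfer (UDef.mem 0 1) (l2 (nN_mem n) hσ) h
    obtain ⟨r, hr, h1, h2⟩ := g.dir hp' hq
    refine ⟨r, hr, Frc.reg D.ccc fun s hs hrs => ?_⟩
    obtain ⟨a, ha, t, ht, h3, h4⟩ := (hA n).2.2 ⟨r.c, s, hs⟩ (fun g' h3 h4 =>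
      H g' (g'.up h3 (le_trans (b := r) ⟨le_rfl, hrs⟩ h1)) (l2 (nN_mem n) h4)) h2.1
    exact ⟨t, ht, h3, Frc.of_forall fun c _ hc =>
      mem_biUnion ha ((Finset.coe_subset.2 h4).trans hc)⟩
  · classical
    refine dens (UDef.mem 0 1) (l2 (nN_mem n) hσ) fun p'' hp'' => ?_
    obtain ⟨r', hr', h1, h2⟩ := g.dir hp' hq
    obtain ⟨r, hr, h3, h4⟩ := g.dir hr' hp''
    obtain ⟨c', h5, h6, h7⟩ := (h.mono (h3.trans h1).2 subset_rfl).exists_point r.hp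
    obtain ⟨a, ha, h7⟩ := mem_iUnion₂.1 h7
    obtain ⟨s, hs, h8, -⟩ := h5 (r.p ∪ a.p) (by rw [Finset.coe_union]; exact union_subset h6 h7)
    refine ⟨⟨r.c, s, hs⟩, le_trans (b := r) ⟨le_rfl, Finset.subset_union_left.trans h8⟩ h4, ∅,
      countable_empty, fun g' h9 _ hl => ((hA n).2.1 a ha).1 g' (g'.up h9
        ⟨(h3.trans h2).1.trans ((hA n).2.1 a ha).2, Finset.subset_union_right.trans h8⟩)
        (hl _ (by simp))⟩

end Pool.Agent.MP_02ff8e_lc
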