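import Mathlib

namespace Pool.Agent.MP_02ff8e_lc

open Set

variable {α : Type}

/-- Dense sets of conditions. -/
def Dns (V D : Set (Finset α)) : Prop := ∀ p ∈ V, ∃ q ∈ V, p ⊆ q ∧ q ∈ D

/-- `c` is a directed union of conditions. -/
def Gd (V : Set (Finset α)) (c : Set α) : Prop :=
  ∀ t : Finset α, ↑t ⊆ c → ∃ q ∈ V, t ⊆ q ∧ ↑q ⊆ c

/-- Semantic forcing: every sufficiently generic point above `p` is in `B`. -/
def Frc (V : Set (Finset α)) (p : Finset α) (B : Set (Set α)) : Prop :=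
  ∃ DD : Set (Set (Finset α)), DD.Countable ∧ (∀ D ∈ DD, Dns V D) ∧
    ∀ c, Gd V c → ↑p ⊆ c → (∀ D ∈ DD, ∃ q ∈ V, q ∈ D ∧ ↑q ⊆ c) → c ∈ B

def Cmp (V : Set (Finset α)) (p q : Finset α) : Prop := ∃ r ∈ V, p ⊆ r ∧ q ⊆ r

def CCC (V : Set (Finset α)) : Prop :=
  ∀ A ⊆ V, A.Pairwise (fun p q => ¬ Cmp V p q) → A.Countable

def Dec (V : Set (Finset α)) (B : Set (Set α)) : Prop :=
  ∀ p ∈ V, ∃ q ∈ V, p ⊆ q ∧ (Frc V q B ∨ Frc V q Bᶜ)

variable {V : Set (Finset α)} {p q : Finset α} {B B' : Set (Set α)}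

theorem Cmp.symm (h : Cmp V p q) : Cmp V q p := by
  obtain ⟨r, h1, h2, h3⟩ := h
  exact ⟨r, h1, h3, h2⟩

theorem Frc.mono (h : Frc V p B) (hpq : p ⊆ q) (hB : B ⊆ B') : Frc V q B' := by
  obtain ⟨DD, h1, h2, h3⟩ := h
  exact ⟨DD, h1, h2, fun c hc hq hD => hB (h3 c hc ((Finset.coe_subset.2 hpq).trans hq) hD)⟩

theorem Frc.of_forall (h : ∀ c, Gd V c → ↑p ⊆ c → c ∈ B) : Frc V p B :=
  ⟨∅, countable_empty, by simp, fun c h1 h2 _ => h c h1 h2⟩

theorem Frc.iInter {J : Type*} [Countable J] {B : J → Set (Set α)} (h : ∀ j, Frc V p (B j)) :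
    Frc V p (⋂ j, B j) := by
  choose DD h1 h2 h3 using h
  refine ⟨⋃ j, DD j, countable_iUnion h1, fun D hD => ?_, fun c hc hp hD => ?_⟩
  · obtain ⟨j, hj⟩ := mem_iUnion.1 hD
    exact h2 j D hj
  · exact mem_iInter.2 fun j => h3 j c hc hp fun D hD' => hD D (mem_iUnion.2 ⟨j, hD'⟩)

theorem Frc.all {J : Type*} [Countable J] {B : J → Set α → Prop}
    (h : ∀ j, Frc V p {c | B j c}) : Frc V p {c | ∀ j, B j c} :=
  (Frc.iInter h).mono subset_rfl fun c hc j => mem_iInter.1 hc j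

theorem Frc.inter (h : Frc V p B) (h' : Frc V p B') : Frc V p (B ∩ B') := by
  have := Frc.iInter (V := V) (p := p) (B := fun b : Bool => cond b B B')
    (fun b => by cases b <;> assumption)
  refine this.mono subset_rfl fun c hc => ?_
  exact ⟨mem_iInter.1 hc true, mem_iInter.1 hc false⟩

/-- Strengthen a forced set by the trivial information. -/
theorem Frc.mono' (h : Frc V p B) (hB : ∀ c, Gd V c → ↑p ⊆ c → c ∈ B → c ∈ B') : Frc V p B' :=
  (h.inter (Frc.of_forall (B := {c | Gd V c ∧ ↑p ⊆ c}) fun _ h1 h2 => ⟨h1, h2⟩)).mono subset_rfl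
    fun c hc => hB c hc.2.1 hc.2.2 hc.1

theorem Frc.exists_point (hp : p ∈ V) (h : Frc V p B) : ∃ c, Gd V c ∧ ↑p ⊆ c ∧ c ∈ B := by
  classical
  obtain ⟨DD, h1, h2, h3⟩ := h
  obtain ⟨e, he⟩ : ∃ e : ℕ → Set (Finset α), (∀ n, Dns V (e n)) ∧ ∀ D ∈ DD, ∃ n, e n = D := by
    have hc : (insert univ DD).Countable := h1.insert _
    obtain ⟨e, he⟩ := hc.exists_eq_range (insert_nonempty _ _)
    refine ⟨e, fun n => ?_, fun D hD => ?_⟩
    · have : e n ∈ insert univ DD := he ▸ mem_range_self n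
      rcases this with h | h
      · rw [h]; exact fun p hp => ⟨p, hp, subset_rfl, trivial⟩
      · exact h2 _ h
    · have : D ∈ range e := he ▸ mem_insert_of_mem _ hD
      exact this
  choose f hf1 hf2 hf3 using he.1
  let s : ℕ → V := fun n => Nat.rec ⟨p, hp⟩ (fun n q => ⟨f n q.1 q.2, hf1 n q.1 q.2⟩) n
  have hs : Monotone (fun n => (s n).1) := monotone_nat_of_le_succ fun n => hf2 n _ (s n).2
  have hsub : ∀ n, (↑(s n).1 : Set α) ⊆ ⋃ n, ↑(s n).1 := fun n =>
    subset_iUnion (fun n => (↑(s n).1 : Set α)) n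
  have hgd : Gd V (⋃ n, ↑(s n).1) := by
    intro t ht
    have : ∃ n, t ⊆ (s n).1 := by
      induction t using Finset.induction_on with
      | empty => exact ⟨0, Finset.empty_subset _⟩
      | insert a t _ ih =>
        rw [Finset.coe_insert, insert_subset_iff] at ht
        obtain ⟨n, hn⟩ := ih ht.2
        obtain ⟨m, hm⟩ := mem_iUnion.1 ht.1
        exact ⟨max n m, Finset.insert_subset (hs (le_max_right n m) hm)
          (hn.trans (hs (le_max_left n m)))⟩
    obtain ⟨n, hn⟩ := this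
    exact ⟨_, (s n).2, hn, hsub n⟩
  refine ⟨_, hgd, hsub 0, h3 _ hgd (hsub 0) fun D hD => ?_⟩
  obtain ⟨n, rfl⟩ := he.2 D hD
  exact ⟨_, (s (n + 1)).2, hf3 n _ (s n).2, hsub (n + 1)⟩

theorem Frc.nonempty (hp : p ∈ V) (h : Frc V p B) : B.Nonempty := by
  obtain ⟨c, -, -, hc⟩ := h.exists_point hp
  exact ⟨c, hc⟩

theorem exists_max_antichain (O : Set (Finset α)) (hO : O ⊆ V) :
    ∃ A ⊆ O, A.Pairwise (fun p q => ¬ Cmp V p q) ∧ ∀ q ∈ O, ∃ a ∈ A, Cmp V q a := by
  obtain ⟨A, hA⟩ := zorn_subset {A | A ⊆ O ∧ A.Pairwise (fun p q => ¬ Cmp V p q)} (by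
    intro C hC hch
    refine ⟨⋃₀ C, ⟨sUnion_subset fun A hA => (hC hA).1, ?_⟩, fun A hA => subset_sUnion_of_mem hA⟩
    rintro a ⟨A, hA, ha⟩ b ⟨B, hB, hb⟩ hab
    rcases hch.total hA hB with h | h
    · exact (hC hB).2 (h ha) hb hab
    · exact (hC hA).2 ha (h hb) hab)
  refine ⟨A, hA.prop.1, hA.prop.2, fun q hq => ?_⟩
  by_contra h
  push Not at h
  have : insert q A ∈ {A | A ⊆ O ∧ A.Pairwise (fun p q => ¬ Cmp V p q)} := by
    refine ⟨insert_subset hq hA.prop.1, ?_⟩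
    rw [pairwise_insert]
    exact ⟨hA.prop.2, fun b hb _ => ⟨h b hb, fun hh => h b hb hh.symm⟩⟩
  have h2 := hA.2 this (subset_insert _ _) (mem_insert _ _)
  exact h q h2 ⟨q, hO hq, subset_rfl, subset_rfl⟩

theorem Frc.reg (hV : CCC V) (h : ∀ q ∈ V, p ⊆ q → ∃ r ∈ V, q ⊆ r ∧ Frc V r B) : Frc V p B := by
  classical
  obtain ⟨A, hA1, hA2, hA3⟩ := exists_max_antichain (V := V) {r | r ∈ V ∧ Frc V r B}
    (fun r hr => hr.1)
  have hAc : A.Countable := hV A (fun r hr => (hA1 hr).1) hA2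
  have : ∀ a : A, Frc V a.1 B := fun a => (hA1 a.2).2
  choose DD h1 h2 h3 using this
  have := hAc.to_subtype
  refine ⟨insert {s | ¬ Cmp V s p ∨ ∃ a ∈ A, a ⊆ s} (⋃ a, DD a), (countable_iUnion h1).insert _,
    ?_, fun c hc hp hD => ?_⟩
  · rintro D (rfl | hD)
    · intro s hs
      by_cases hsp : Cmp V s p
      · obtain ⟨q, hq, hsq, hpq⟩ := hsp
        obtain ⟨r, hr, hqr, hrB⟩ := h q hq hpq
        obtain ⟨a, ha, t, ht, hrt, hat⟩ := hA3 r ⟨hr, hrB⟩
        exact ⟨t, ht, hsq.trans (hqr.trans hrt), Or.inr ⟨a, ha, hat⟩⟩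
      · exact ⟨s, hs, subset_rfl, Or.inl hsp⟩
    · obtain ⟨a, ha⟩ := mem_iUnion.1 hD
      exact h2 a D ha
  · obtain ⟨s, hs, hs' | ⟨a, ha, has⟩, hsc⟩ := hD _ (mem_insert _ _)
    · obtain ⟨q, hq, hq', -⟩ := hc (s ∪ p) (by rw [Finset.coe_union]; exact union_subset hsc hp)
      exact (hs' ⟨q, hq, Finset.subset_union_left.trans hq',
        Finset.subset_union_right.trans hq'⟩).elim
    · exact h3 ⟨a, ha⟩ c hc ((Finset.coe_subset.2 has).trans hsc)
        fun D hD' => hD D (mem_insert_of_mem _ (mem_iUnion.2 ⟨_, hD'⟩))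

theorem Dec.not_frc (hV : CCC V) (hB : Dec V B) (h : ¬ Frc V p B) :
    ∃ q ∈ V, p ⊆ q ∧ Frc V q Bᶜ := by
  by_contra h'
  push Not at h'
  refine h (Frc.reg hV fun q hq hpq => ?_)
  obtain ⟨r, hr, hqr, h1 | h1⟩ := hB q hq
  · exact ⟨r, hr, hqr, h1⟩
  · exact (h' r hr (hpq.trans hqr) h1).elim

theorem Dec.compl (hB : Dec V B) : Dec V Bᶜ := by
  intro p hp
  obtain ⟨q, hq, hpq, h⟩ := hB p hp
  exact ⟨q, hq, hpq, by rw [compl_compl]; exact h.symm⟩

theorem Dec.iUnion (hV : CCC V) {J : Type*} [Countable J] {B : J → Set (Set α)}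
    (hB : ∀ j, Dec V (B j)) : Dec V (⋃ j, B j) := by
  intro p hp
  by_cases h : ∀ j, Frc V p (B j)ᶜ
  · refine ⟨p, hp, subset_rfl, Or.inr ?_⟩
    rw [compl_iUnion]
    exact Frc.iInter h
  · push Not at h
    obtain ⟨j, hj⟩ := h
    obtain ⟨q, hq, hpq, h⟩ := (hB j).compl.not_frc hV hj
    rw [compl_compl] at h
    exact ⟨q, hq, hpq, Or.inl (h.mono subset_rfl (subset_iUnion _ _))⟩

theorem dec_mem (a : α) : Dec V {c | a ∈ c} := by
  classical
  intro p hp
  by_cases h : ∃ q ∈ V, p ⊆ q ∧ a ∈ q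
  · obtain ⟨q, hq, hpq, ha⟩ := h
    exact ⟨q, hq, hpq, Or.inl (Frc.of_forall fun c _ hc => hc ha)⟩
  · refine ⟨p, hp, subset_rfl, Or.inr (Frc.of_forall fun c hc hpc hac => h ?_)⟩
    obtain ⟨q, hq, h1, -⟩ := hc (insert a p) (by rw [Finset.coe_insert]; exact insert_subset hac hpc)
    exact ⟨q, hq, (Finset.subset_insert _ _).trans h1, h1 (Finset.mem_insert_self _ _)⟩

theorem setMS_eq : (Set.instMeasurableSpace : MeasurableSpace (Set α)) =
    MeasurableSpace.generateFrom (range fun a : α => {c : Set α | a ∈ c}) := by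
  apply le_antisymm
  · have : @Measurable (Set α) (Set α)
        (MeasurableSpace.generateFrom (range fun a : α => {c : Set α | a ∈ c}))
        Set.instMeasurableSpace id := by
      refine (@measurable_set_iff _ _ (MeasurableSpace.generateFrom _) _).2 fun a => ?_
      refine (@measurableSet_setOfPred _ (MeasurableSpace.generateFrom _) _).1 ?_
      exact MeasurableSpace.measurableSet_generateFrom ⟨a, rfl⟩
    exact fun s hs => this hs
  · refine MeasurableSpace.generateFrom_le ?_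
    rintro _ ⟨a, rfl⟩
    exact measurableSet_mem a

theorem dec_of_meas (hV : CCC V) (hB : MeasurableSet B) : Dec V B := by
  rw [setMS_eq] at hB
  induction B, hB using MeasurableSpace.generateFrom_induction with
  | hC t ht _ =>
    obtain ⟨a, rfl⟩ := ht
    exact dec_mem a
  | empty => exact fun p hp => ⟨p, hp, subset_rfl, Or.inr (Frc.of_forall fun _ _ _ => by simp)⟩
  | compl t _ ih => exact ih.compl
  | iUnion s _ ih => exact Dec.iUnion hV ih

theorem Frc.exists_of_iUnion (hV : CCC V) (hp : p ∈ V) {J : Type*} [Countable J]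
    {B : J → Set (Set α)} (hB : ∀ j, MeasurableSet (B j)) (h : Frc V p (⋃ j, B j)) :
    ∃ q ∈ V, p ⊆ q ∧ ∃ j, Frc V q (B j) := by
  by_cases h' : ∀ j, Frc V p (B j)ᶜ
  · have := (h.inter (Frc.iInter h')).nonempty hp
    rw [← compl_iUnion, inter_compl_self] at this
    exact absurd this not_nonempty_empty
  · push Not at h'
    obtain ⟨j, hj⟩ := h'
    obtain ⟨q, hq, hpq, h⟩ := (dec_of_meas hV (hB j)).compl.not_frc hV hj
    rw [compl_compl] at h
    exact ⟨q, hq, hpq, j, h⟩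

/-- Truth lemma. -/
theorem frc_truth (hV : CCC V) (hB : MeasurableSet B) (p : Finset α) :
    Frc V p {c | c ∈ B → ∃ q ∈ V, ↑q ⊆ c ∧ Frc V q B} := by
  refine Frc.reg hV fun q hq _ => ?_
  obtain ⟨r, hr, hqr, h | h⟩ := dec_of_meas hV hB q hq
  · exact ⟨r, hr, hqr, Frc.of_forall fun c _ hc _ => ⟨r, hr, hc, h⟩⟩
  · exact ⟨r, hr, hqr, h.mono subset_rfl fun c hc hc' => (hc hc').elim⟩

/-- Measurable sets depend on countably many atoms. -/
theorem exists_countable_support (hB : MeasurableSet B) :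
    ∃ W : Set α, W.Countable ∧ ∀ c c', c ∩ W = c' ∩ W → (c ∈ B ↔ c' ∈ B) := by
  rw [setMS_eq] at hB
  induction B, hB using MeasurableSpace.generateFrom_induction with
  | hC t ht _ =>
    obtain ⟨a, rfl⟩ := ht
    refine ⟨{a}, countable_singleton _, fun c c' h => ?_⟩
    have := Set.ext_iff.1 h a
    simpa using this
  | empty => exact ⟨∅, countable_empty, by simp⟩
  | compl t _ ih =>
    obtain ⟨W, h1, h2⟩ := ih
    exact ⟨W, h1, fun c c' h => not_congr (h2 c c' h)⟩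
  | iUnion s _ ih =>
    choose W h1 h2 using ih
    refine ⟨⋃ n, W n, countable_iUnion h1, fun c c' h => ?_⟩
    simp only [mem_iUnion]
    refine exists_congr fun n => h2 n c c' ?_
    have e : ∀ c : Set α, c ∩ W n = (c ∩ ⋃ n, W n) ∩ W n := fun c => by
      rw [inter_assoc, inter_eq_self_of_subset_right (subset_iUnion W n)]
    rw [e c, e c', h]

theorem exists_countable_support_fun {x : Set α → ℝ} (hx : Measurable x) :
    ∃ W : Set α, W.Countable ∧ ∀ c c', c ∩ W = c' ∩ W → x c = x c' := by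
  have : ∀ q : ℚ, MeasurableSet {c | x c < q} := fun q => hx measurableSet_Iio
  choose W h1 h2 using fun q => exists_countable_support (this q)
  refine ⟨⋃ q, W q, countable_iUnion h1, fun c c' h => ?_⟩
  refine eq_of_forall_lt_rat_iff_lt fun q => h2 q c c' ?_
  have e : ∀ c : Set α, c ∩ W q = (c ∩ ⋃ n, W n) ∩ W q := fun c => by
    rw [inter_assoc, inter_eq_self_of_subset_right (subset_iUnion W q)]
  rw [e c, e c', h]

theorem measurableSet_supset (p : Finset α) : MeasurableSet {c : Set α | ↑p ⊆ c} := by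
  have : {c : Set α | ↑p ⊆ c} = ⋂ a ∈ p, {c | a ∈ c} := by
    ext c; simp [subset_def]
  rw [this]
  exact p.measurableSet_biInter fun a _ => measurableSet_mem a

end Pool.Agent.MP_02ff8e_lc
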