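import Pool.Agent.MP_02ff8e_lc.Real

namespace Pool.Agent.MP_02ff8e_lc

open Set Filter Topology Pool.Agent.MP_c6cf52_lc Name Gen

variable {D : Data} {g : Gen (Q D)}

theorem relN_get {ι : Type} {A A' : ι → Name (Q D)} (h : relN A A' (fun _ => ⊤) ∈ g.N)
    (inj : ∀ i j, A i ∈ g.N → A j ∈ g.N → g.v (A i) = g.v (A j) → i = j) {i : ι}
    (hi : A i ∈ g.N) : A' i ∈ g.N := by
  have : ∃ b, App g.E (g.v (relN A A' fun _ => ⊤)) (g.v (A i)) b :=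
    dens_one (Ψ := fun _ E w => ∃ b, App E (w 0) (w 1) b) (UDef.ex (UDef.app _ _ _)) (l2 h hi)
      {A' i} (countable_singleton _) fun g' hC hl =>
        ⟨_, (app_relN (hl _ (by simp))).2 ⟨i, g'.top, hl _ (by simp), hC rfl, rfl, rfl⟩⟩
  obtain ⟨b, hb⟩ := this
  obtain ⟨j, -, h1, h2, e, -⟩ := (app_relN h).1 hb
  rwa [inj i j hi h1 e]

theorem isFun_relN {ι : Type} {A A' : ι → Name (Q D)} (h : relN A A' (fun _ => ⊤) ∈ g.N)
    (inj : ∀ i j, A i ∈ g.N → A j ∈ g.N → g.v (A i) = g.v (A j) → i = j) {X Y : g.M}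
    (hX : ∀ a, g.E a X ↔ ∃ i, A i ∈ g.N ∧ g.v (A i) = a)
    (hY : ∀ i, A' i ∈ g.N → g.E (g.v (A' i)) Y) :
    IsFun g.E (g.v (relN A A' fun _ => ⊤)) X Y := by
  constructor
  · intro p hp
    obtain ⟨i, -, h1, h2, rfl⟩ := (E_relN h).1 hp
    exact ⟨_, _, (hX _).2 ⟨i, h1, rfl⟩, hY i h2, isPair_pr _ _⟩
  · intro a ha
    obtain ⟨i, hi, rfl⟩ := (hX a).1 ha
    refine ⟨_, (app_relN h).2 ⟨i, g.top, hi, relN_get h inj hi, rfl, rfl⟩, fun b hb => ?_⟩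
    obtain ⟨j, -, h1, -, e, rfl⟩ := (app_relN h).1 hb
    rw [inj i j hi h1 e]

theorem lt_iff_R (hR : RN ∈ g.N) {a b : g.M} (ha : g.E a (g.v RN)) (hb : g.E b (g.v RN)) :
    rho g a < rho g b ↔ ¬ ∀ y, g.E y b → g.E y a := by
  rw [← not_le, (isCut_R hR hb).le_iff (isCut_R hR ha)]

theorem exists_lt (hR : RN ∈ g.N) : ∃ lt : g.M, ∀ a b, App g.E lt a b ↔
    g.E a (g.v RN) ∧ g.E b (g.v RN) ∧ rho g a < rho g b := by
  obtain ⟨lt, h⟩ := tm_image (Γ := g.Elt (g.v RN) × g.Elt (g.v RN))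
    (Q := fun z => ¬ ∀ y : g.M, g.E y z.2.1 → g.E y z.1.1) (f := fun z => pr z.1.1 z.2.1)
    (by fun_prop) (by fun_prop)
  refine ⟨lt, fun a b => ?_⟩
  rw [app_iff, h]
  constructor
  · rintro ⟨⟨⟨a', ha⟩, ⟨b', hb⟩⟩, h1, e⟩
    obtain ⟨rfl, rfl⟩ := pr_inj.1 e
    exact ⟨ha, hb, (lt_iff_R hR ha hb).2 h1⟩
  · rintro ⟨ha, hb, h1⟩
    exact ⟨(⟨a, ha⟩, ⟨b, hb⟩), (lt_iff_R hR ha hb).1 h1, rfl⟩

def BU {M : Type 1} (E : M → M → Prop) (a R : M) : Prop :=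
  ∃ S, (∀ s, E s S → E s R) ∧ (∃ s, E s S) ∧ (∃ b, E b R ∧ ∀ s, E s S → ∀ y, E y s → E y b) ∧
    ∀ y, E y a ↔ ∃ s, E y s ∧ E s S

theorem udef_BU (i j : ℕ) : UDef.{1} (fun _ E w => BU E (w i) (w j)) := by
  unfold BU
  repeat' first
    | exact UDef.mem _ _ | apply UDef.and | apply UDef.iff | apply UDef.imp | apply UDef.all
    | apply UDef.ex

theorem BU.cut (hR : RN ∈ g.N) {a : g.M} (h : BU g.E a (g.v RN)) : ∃ r, IsCut g a r := by
  obtain ⟨S, h1, ⟨s, hs⟩, ⟨b, hb, h2⟩, h3⟩ := h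
  have hbd : BddAbove (rho g '' {s | g.E s S}) := ⟨rho g b, by
    rintro _ ⟨s, hs, rfl⟩
    exact ((isCut_R hR (h1 s hs)).le_iff (isCut_R hR hb)).2 (h2 s hs)⟩
  refine ⟨sSup (rho g '' {s | g.E s S}), fun y hy => ?_, fun n => ?_⟩
  · obtain ⟨s, h4, h5⟩ := (h3 y).1 hy
    exact (isCut_R hR (h1 s h5)).1 y h4
  · rw [h3, lt_csSup_iff hbd ⟨_, s, hs, rfl⟩]
    constructor
    · rintro ⟨s, h4, h5⟩
      exact ⟨_, ⟨s, h5, rfl⟩, ((isCut_R hR (h1 s h5)).2 n).1 h4⟩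
    · rintro ⟨_, ⟨s, h5, rfl⟩, h4⟩
      exact ⟨s, ((isCut_R hR (h1 s h5)).2 n).2 h4, h5⟩

theorem BU.mem (hR : RN ∈ g.N) {a : g.M} (h : BU g.E a (g.v RN)) : g.E a (g.v RN) := by
  classical
  obtain ⟨σ, hσ, rfl⟩ := exists_v a
  refine dens (Ψ := fun _ E w => BU E (w 0) (w 1) → E (w 0) (w 1))
    ((udef_BU _ _).imp (UDef.mem _ _)) (l2 hσ hR) (fun p _ => ?_) h
  obtain ⟨q, hq, B, hB, H⟩ := exists_sub σ p
  let x : Set D.α → ℝ := fun c => (⨆ m, if c ∈ B m then (qq m : EReal) else ⊥).toReal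
  have hx : Measurable x := measurable_ereal_toReal.comp
    (Measurable.iSup fun m => Measurable.ite (hB m) measurable_const measurable_const)
  refine ⟨q, hq, {cutN x}, countable_singleton _,
    fun g' hq' hC hl (h : BU g'.E (g'.v σ) (g'.v RN)) => ?_⟩
  have hσ' : σ ∈ g'.N := hl _ (by simp)
  have hR' : RN ∈ g'.N := hl _ (by simp)
  obtain ⟨r, hr⟩ := h.cut hR'
  have up : ∀ K, r < qq K → {c | ∀ m, qq K ≤ qq m → c ∉ B m} ∈ FG g' := by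
    intro K hK
    obtain ⟨p', hp', H'⟩ := transfer (Ψ := fun _ E w => BU E (w 0) (w 1) ∧ ¬ E (w 2) (w 0))
      ((udef_BU _ _).and (UDef.mem _ _).not) (l3 hσ' hR' (nN_mem K))
      ⟨h, fun h' => hK.not_gt ((hr.2 K).1 h')⟩
    obtain ⟨s, hs, h1, h2⟩ := g'.dir hp' hq'
    refine ⟨s, hs, Frc.all fun m => frc_of_gen s (C := {σ, RN}) (toFinite _).countable
      ?_ fun g'' h3 h4 h5 => ?_⟩
    · by_cases e : qq K ≤ qq m
      · simp only [e, true_imp_iff]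
        exact (hB m).compl
      · simp [e]
    · have hσ'' : σ ∈ g''.N := h4 (by simp)
      have hR'' : RN ∈ g''.N := h4 (by simp)
      obtain ⟨h6, h7⟩ := H' g'' (g''.up h3 h1) (l3 hσ'' hR'' (nN_mem K))
      obtain ⟨r', hr'⟩ := BU.cut hR'' h6
      obtain ⟨c, hc⟩ := Filter.nonempty_of_mem h5
      have h8 := (H g'' (g''.up h3 h2) hσ'' m).2 (mem_of_superset h5 fun c hc => by
        by_contra h'
        exact hc fun _ => h')
      refine h7 ((hr'.2 K).2 (lt_of_le_of_lt ?_ ((hr'.2 m).1 h8)))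
      by_contra h'
      exact hc fun e => (h' e).elim
  have ht : Tendsto x (FG g') (𝓝 r) := by
    have key : ∀ a b, a < r → r < b → {c | a < x c ∧ x c < b} ∈ FG g' := by
      intro a b ha hb
      obtain ⟨n, h1, h2⟩ := exists_qq ha
      obtain ⟨K, h3, h4⟩ := exists_qq hb
      refine mem_of_superset (inter_mem ((H g' hq' hσ' n).1 ((hr.2 n).2 h2)) (up K h3))
        fun c hc => ?_
      have h5 : (qq n : EReal) ≤ ⨆ m, if c ∈ B m then (qq m : EReal) else ⊥ :=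
        le_iSup_of_le n (by rw [if_pos hc.1])
      have h6 : (⨆ m, if c ∈ B m then (qq m : EReal) else ⊥) ≤ qq K := iSup_le fun m => by
        split_ifs with e
        · exact EReal.coe_le_coe_iff.2 (le_of_not_ge fun h' => hc.2 m h' e)
        · exact bot_le
      exact ⟨h1.trans_le (EReal.toReal_le_toReal h5 (EReal.coe_ne_bot _)
        (h6.trans_lt (EReal.coe_lt_top _)).ne), lt_of_le_of_lt (EReal.toReal_le_toReal h6
        ((EReal.bot_lt_coe _).trans_le h5).ne' (EReal.coe_ne_top _)) h4⟩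
    exact tendsto_order.2 ⟨fun a ha => mem_of_superset (key a _ ha (lt_add_one r))
      fun c hc => hc.1, fun b hb => mem_of_superset (key _ b (sub_one_lt r) hb) fun c hc => hc.2⟩
  exact (E_R hR').2 ⟨x, hx, hC rfl, ((isCut_cut hx (hC rfl)).eq_iff hr).1
    (tendsto_nhds_unique (tendsto_cut hx (hC rfl)) ht)⟩

theorem rho_const {t : ℝ} (h : cutN (fun _ => t) ∈ g.N) : rho g (g.v (cutN fun _ => t)) = t :=
  tendsto_nhds_unique (tendsto_cut measurable_const h) tendsto_const_nhds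

theorem isReals (hR : RN ∈ g.N) (ha : opN (fun z => z.1 + z.2) ∈ g.N)
    (hm : opN (fun z => z.1 * z.2) ∈ g.N) (hn : opN (fun z => -z.1) ∈ g.N)
    (hi : opN (fun z => z.1⁻¹) ∈ g.N) (h0 : cutN (fun _ => 0) ∈ g.N)
    (h1 : cutN (fun _ => 1) ∈ g.N) {lt : g.M} (hlt : ∀ a b, App g.E lt a b ↔
      g.E a (g.v RN) ∧ g.E b (g.v RN) ∧ rho g a < rho g b) :
    IsReals g.E (g.v RN) (g.v (opN fun z => z.1 + z.2)) (g.v (opN fun z => z.1 * z.2)) lt := by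
  have cl : ∀ f : ℝ × ℝ → ℝ, Measurable f → opN f ∈ g.N → ∀ a b, g.E a (g.v RN) →
      g.E b (g.v RN) → ContinuousAt f (rho g a, rho g b) →
      f (rho g a, rho g b) ∈ rho g '' {a | g.E a (g.v RN)} := by
    intro f hf h a b h2 h3 h4
    obtain ⟨c, hc⟩ := op_ex h hR h2 h3
    exact ⟨c, op_val hf h hR hc h4⟩
  have z0 : (0 : ℝ) ∈ rho g '' {a | g.E a (g.v RN)} :=
    ⟨_, (E_R hR).2 ⟨_, measurable_const, h0, rfl⟩, rho_const h0⟩
  let K : Subfield ℝ :=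
    { carrier := rho g '' {a | g.E a (g.v RN)}
      mul_mem' := by
        rintro _ _ ⟨a, h2, rfl⟩ ⟨b, h3, rfl⟩
        exact cl _ (by fun_prop) hm a b h2 h3 (by fun_prop)
      one_mem' := ⟨_, (E_R hR).2 ⟨_, measurable_const, h1, rfl⟩, rho_const h1⟩
      add_mem' := by
        rintro _ _ ⟨a, h2, rfl⟩ ⟨b, h3, rfl⟩
        exact cl _ (by fun_prop) ha a b h2 h3 (by fun_prop)
      zero_mem' := z0
      neg_mem' := by
        rintro _ ⟨a, h2, rfl⟩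
        exact cl _ (by fun_prop) hn a a h2 h2 (by fun_prop)
      inv_mem' := by
        rintro _ ⟨a, h2, rfl⟩
        by_cases e : rho g a = 0
        · rw [e, inv_zero]; exact z0
        · exact cl _ (by fun_prop) hi a a h2 h2 (continuousAt_fst.inv₀ e) }
  let ρ : {x // g.E x (g.v RN)} → ℝ := fun a => rho g a.1
  have inj : Function.Injective ρ := fun a b e =>
    Subtype.ext (((isCut_R hR a.2).eq_iff (isCut_R hR b.2)).1 e)
  let e : {x // g.E x (g.v RN)} ≃ K := Equiv.ofBijective (fun a => ⟨ρ a, a.1, a.2, rfl⟩)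
    ⟨fun a b h => inj (congrArg Subtype.val h), fun ⟨_, a, h2, h3⟩ => ⟨⟨a, h2⟩, Subtype.ext h3⟩⟩
  have he : ∀ k, ρ (e.symm k) = k.1 := fun k => congrArg Subtype.val (e.apply_symm_apply k)
  let _ := e.field
  let _ : LinearOrder {x // g.E x (g.v RN)} := LinearOrder.lift' ρ inj
  have e1 : ∀ a b, ρ (a + b) = ρ a + ρ b := fun a b => he _
  have e2 : ∀ a b, ρ (a * b) = ρ a * ρ b := fun a b => he _
  refine ⟨inferInstance, inferInstance,
    Function.Injective.isStrictOrderedRing ρ (he _) (he _) e1 e2 Iff.rfl Iff.rfl,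
    fun x y z => ?_, fun x y z => ?_, fun x y => ?_, fun S ⟨s, hs⟩ ⟨b, hb⟩ => ?_⟩
  · rw [op_iff (by fun_prop) ha hR x.2 y.2 z.2, ← inj.eq_iff, e1]
  · rw [op_iff (by fun_prop) hm hR x.2 y.2 z.2, ← inj.eq_iff, e2]
  · rw [hlt]
    exact ⟨fun h => h.2.2, fun h => ⟨x.2, y.2, h⟩⟩
  · obtain ⟨S', hS'⟩ := tm_sep (Q := fun x => g.E x (g.v RN)) (by fun_prop) S
    obtain ⟨U, hU⟩ := exists_union S'
    have le : ∀ a b : {x // g.E x (g.v RN)}, a ≤ b ↔ ∀ y, g.E y a.1 → g.E y b.1 :=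
      fun a b => (isCut_R hR a.2).le_iff (isCut_R hR b.2)
    have hb' : ∀ b ∈ upperBounds {x : {x // g.E x (g.v RN)} | g.E x.1 S}, ∀ s, g.E s S' →
        ∀ y, g.E y s → g.E y b.1 := fun b hb s hs =>
      (le ⟨s, ((hS' s).1 hs).2⟩ b).1 (hb ((hS' s).1 hs).1)
    have := BU.mem hR (a := U) ⟨S', fun s hs => ((hS' s).1 hs).2, ⟨s.1, (hS' _).2 ⟨hs, s.2⟩⟩,
      ⟨b.1, b.2, hb' b hb⟩, hU⟩
    refine ⟨⟨U, this⟩, fun a ha => (le _ _).2 fun y hy => (hU y).2 ⟨a.1, hy, (hS' _).2 ⟨ha, a.2⟩⟩,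
      fun b hb => (le _ _).2 fun y hy => ?_⟩
    obtain ⟨s, h2, h3⟩ := (hU y).1 hy
    exact hb' b hb s h3 y h2

theorem memN_sub (hR : RN ∈ g.N) {C : Set D.α → Set ℝ} (h : memN C ∈ g.N) (a : g.M)
    (ha : g.E a (g.v (memN C))) : g.E a (g.v RN) := by
  obtain ⟨x, hx, h1, h2, -⟩ := (E_memN h).1 ha
  exact (E_R hR).2 ⟨x, hx, h1, h2⟩

theorem closed_memN (hR : RN ∈ g.N) {lt : g.M} (hlt : ∀ a b, App g.E lt a b ↔
      g.E a (g.v RN) ∧ g.E b (g.v RN) ∧ rho g a < rho g b) {W : Set D.α} (hW : W.Countable)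
    {C : Set D.α → Set ℝ} (hC : Gam W C) (h : memN C ∈ g.N) :
    IsClosedIn g.E (g.v RN) lt (g.v (memN C)) := by
  refine ⟨memN_sub hR h, fun a ha hn => ?_⟩
  suffices H : ∃ u v, g.E u (g.v RN) ∧ g.E v (g.v RN) ∧ (¬ ∀ y, g.E y a → g.E y u) ∧
      (¬ ∀ y, g.E y v → g.E y a) ∧ ∀ z, g.E z (g.v (memN C)) →
        ¬ ((¬ ∀ y, g.E y z → g.E y u) ∧ ¬ ∀ y, g.E y v → g.E y z) by
    obtain ⟨u, v, hu, hv, h1, h2, h3⟩ := H
    refine ⟨u, v, hu, hv, (hlt _ _).2 ⟨hu, ha, (lt_iff_R hR hu ha).2 h1⟩,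
      (hlt _ _).2 ⟨ha, hv, (lt_iff_R hR ha hv).2 h2⟩, fun z hz h4 => h3 z hz ?_⟩
    have h5 := memN_sub hR h z hz
    exact ⟨(lt_iff_R hR hu h5).1 ((hlt _ _).1 h4.1).2.2, (lt_iff_R hR h5 hv).1
      ((hlt _ _).1 h4.2).2.2⟩
  obtain ⟨x, hx, h1, rfl⟩ := (E_R hR).1 ha
  refine dens_FG (Ψ := fun _ E w => ¬ E (w 0) (w 1) → ∃ u v, E u (w 2) ∧ E v (w 2) ∧
      (¬ ∀ y, E y (w 0) → E y u) ∧ (¬ ∀ y, E y v → E y (w 0)) ∧ ∀ z, E z (w 1) →
        ¬ ((¬ ∀ y, E y z → E y u) ∧ ¬ ∀ y, E y v → E y z)) ?_ (l3 h1 h hR)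
      (B := fun o : Option (ℚ × ℚ) => o.elim {c | x c ∈ C c} fun ab =>
        {c | (ab.1 : ℝ) < x c ∧ x c < ab.2 ∧ C c ⊆ (Icc (ab.1 : ℝ) ab.2)ᶜ}) ?_
      (univ_mem' fun c => ?_) ?_ hn
  · repeat' first
      | exact UDef.mem _ _ | apply UDef.and | apply UDef.not | apply UDef.imp | apply UDef.all
      | apply UDef.ex
  · rintro (_ | ab)
    exacts [hC.meas hW hx, hC.meas_piece hW hx ab]
  · by_cases hc : c ∈ {c | x c ∈ C c}
    · exact mem_iUnion.2 ⟨none, hc⟩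
    · obtain ⟨ab, h⟩ := mem_iUnion.1 ((hC.compl_eq x).le hc)
      exact mem_iUnion.2 ⟨some ab, h⟩
  · rintro (_ | ab)
    · exact ⟨∅, countable_empty, fun g' _ hl hB hn =>
        (hn ((mem_memN (hl _ (by simp)) hx (hl _ (by simp))).2 hB)).elim⟩
    · refine ⟨{cutN fun _ => (ab.1 : ℝ), cutN fun _ => (ab.2 : ℝ)}, (toFinite _).countable,
        fun g' hC' hl hB _ => ?_⟩
      have a1 : cutN (fun _ => (ab.1 : ℝ)) ∈ g'.N := hC' (by simp)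
      have a2 : cutN (fun _ => (ab.2 : ℝ)) ∈ g'.N := hC' (by simp)
      have a3 : cutN x ∈ g'.N := hl _ (by simp)
      have a4 : memN C ∈ g'.N := hl _ (by simp)
      have a5 : RN ∈ g'.N := hl _ (by simp)
      have b1 := (E_R a5).2 ⟨_, measurable_const, a1, rfl⟩
      have b2 := (E_R a5).2 ⟨_, measurable_const, a2, rfl⟩
      have b3 := (E_R a5).2 ⟨_, hx, a3, rfl⟩
      refine ⟨_, _, b1, b2, (lt_iff_R a5 b1 b3).1 ((rho_lt_iff measurable_const a1 hx a3).2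
        (mem_of_superset hB fun c hc => hc.1)), (lt_iff_R a5 b3 b2).1
        ((rho_lt_iff hx a3 measurable_const a2).2 (mem_of_superset hB fun c hc => hc.2.1)),
        fun z hz h4 => ?_⟩
      have b4 := memN_sub a5 a4 z hz
      obtain ⟨y, hy, h5, rfl, h6⟩ := (E_memN a4).1 hz
      obtain ⟨c, ⟨h7, h8⟩, h9, h10⟩ := Filter.nonempty_of_mem (inter_mem (inter_mem hB h6)
        (inter_mem ((rho_lt_iff measurable_const a1 hy h5).1 ((lt_iff_R a5 b1 b4).2 h4.1))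
          ((rho_lt_iff hy h5 measurable_const a2).1 ((lt_iff_R a5 b4 b2).2 h4.2))))
      exact h7.2.2 h8 ⟨le_of_lt h9, le_of_lt h10⟩

noncomputable def seqN (C : ℕ → Set D.α → Set ℝ) : Name (Q D) :=
  relN (fun n : ℕ => nN n) (fun n => memN (C n)) (fun _ => ⊤)

theorem app_seq {C : ℕ → Set D.α → Set ℝ} (h : seqN C ∈ g.N) {a b : g.M} :
    App g.E (g.v (seqN C)) a b ↔ ∃ n, a = g.nat n ∧ b = g.v (memN (C n)) :=
  (app_relN h).trans (exists_congr fun n =>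
    ⟨fun h => h.2.2.2, fun h' => ⟨g.top, nN_mem n, (relN_mem h n).2, h'⟩⟩)

theorem fsigma_memN (hR : RN ∈ g.N) {lt : g.M} (hlt : ∀ a b, App g.E lt a b ↔
      g.E a (g.v RN) ∧ g.E b (g.v RN) ∧ rho g a < rho g b) {W : Set D.α} (hW : W.Countable)
    {C : ℕ → Set D.α → Set ℝ} (hC : ∀ n, Gam W (C n)) {S : Set D.α → Set ℝ}
    (hS : ∀ c, S c = ⋃ n, C n c) (h : memN S ∈ g.N) (h' : seqN C ∈ g.N) :
    IsFsigma g.E g.om (g.v RN) lt (g.v (memN S)) := by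
  obtain ⟨P, hP⟩ := exists_power (g.v RN)
  refine ⟨g.v (seqN C), P, isFun_relN h' (fun i j _ _ e => nat_inj e) (fun a => E_om.trans
    (exists_congr fun n => ⟨fun h => ⟨nN_mem n, h⟩, fun h => h.2⟩))
    fun n hn => (hP _).2 (memN_sub hR hn), fun n c hc => ?_, fun a => ⟨fun ha => ?_, ?_⟩⟩
  · obtain ⟨n, -, rfl⟩ := (app_seq h').1 hc
    exact closed_memN hR hlt hW (hC n) (relN_mem h' n).2
  · obtain ⟨x, hx, h1, rfl, h2⟩ := (E_memN h).1 ha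
    refine dens_FG (Ψ := fun _ E w => ∃ n c, App E (w 1) n c ∧ E (w 0) c)
      (UDef.ex (UDef.ex ((UDef.app _ _ _).and (UDef.mem _ _)))) (l2 h1 h')
      (B := fun n => {c | x c ∈ C n c}) (fun n => (hC n).meas hW hx)
      (mem_of_superset h2 fun c hc => by simpa [hS] using hc)
      fun n => ⟨∅, countable_empty, fun g' _ hl hB => ?_⟩
    have a1 : seqN C ∈ g'.N := hl _ (by simp)
    exact ⟨_, _, (app_seq a1).2 ⟨n, rfl, rfl⟩,
      (mem_memN (relN_mem a1 n).2 hx (hl _ (by simp))).2 hB⟩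
  · rintro ⟨_, _, hc, ha⟩
    obtain ⟨n, -, rfl⟩ := (app_seq h').1 hc
    obtain ⟨x, hx, h1, rfl, h2⟩ := (E_memN (relN_mem h' n).2).1 ha
    exact (mem_memN h hx h1).2 (mem_of_superset h2 fun c hc => by
      rw [mem_ofPred_eq, hS]; exact mem_iUnion.2 ⟨n, hc⟩)

theorem semigroup_memN (ha : opN (fun z => z.1 + z.2) ∈ g.N) (j : J2)
    (h : memN (D.S j) ∈ g.N) :
    IsSemigroup g.E (g.v (opN fun z => z.1 + z.2)) (g.v (memN (D.S j))) := by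
  constructor
  · obtain ⟨x, hx, h1⟩ := D.ne j
    exact dens_one (Ψ := fun _ E w => ∃ y, E y (w 0)) (UDef.ex (UDef.mem _ _)) (l1 h) {cutN x}
      (countable_singleton _) fun g' hC hl =>
        ⟨_, (mem_memN (hl _ (by simp)) hx (hC rfl)).2 (FG_of_emp h1)⟩
  · intro a b c h1 h2 h3
    obtain ⟨x, y, hx, hy, h4, h5, h6, rfl, rfl, rfl⟩ := (app_op ha).1 h3
    exact (mem_memN h (hx.add hy) h6).2 (mem_of_superset (inter_mem ((mem_memN h hx h4).1 h1)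
      ((mem_memN h hy h5).1 h2)) fun c hc => D.add j c _ hc.1 _ hc.2)

theorem disj_memN {i j : J2} (hij : i ≠ j) (hi : memN (D.S i) ∈ g.N) (hj : memN (D.S j) ∈ g.N)
    (a : g.M) : ¬ (g.E a (g.v (memN (D.S i))) ∧ g.E a (g.v (memN (D.S j)))) := by
  rintro ⟨h1, h2⟩
  obtain ⟨x, hx, h3, rfl, h4⟩ := (E_memN hi).1 h1
  obtain ⟨c, ⟨h5, h6⟩, h7⟩ := Filter.nonempty_of_mem (inter_mem (inter_mem h4
    ((mem_memN hj hx h3).1 h2)) (FG_of_emp (D.disj i j hij)))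
  exact Set.disjoint_left.1 h7 h5 h6

end Pool.Agent.MP_02ff8e_lc
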